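/-
SB block A, R1: the order of a real closed field from its squares.  Pure algebra, Mathlib only.

`L` field of characteristic 0, `-1` not a square, every element is a square or minus a square, and sums of two
squares are squares.  Define `x ≤ y` iff `y - x` is a square.  Reflexive (0 is a square); transitive (sums);
antisymmetric: `a = c^2`, `-a = d^2`: `c^2 + d^2 = 0`, if `c ≠ 0` then `-1 = (d/c)^2`; total: hypothesis.
Compatible with `+` and products of nonnegative elements (`a^2 b^2 = (ab)^2`).
Linear order with `Classical.decRel`.  `IsStrictOrderedRing` via `IsOrderedRing`/positivity constructors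
(for example `IsStrictOrderedRing.of_mul_pos`), or through `RingPreordering`/`Field.LinearOrder` of a positive cone if convenient.
-/
import Mathlib

namespace Pool.Agent.Helper98.SA

theorem exists_order {L : Type*} [Field L] (h1 : ¬ IsSquare (-1 : L))
    (h2 : ∀ x : L, IsSquare x ∨ IsSquare (-x)) (h3 : ∀ a b : L, IsSquare (a ^ 2 + b ^ 2)) :
    ∃ lo : LinearOrder L, IsStrictOrderedRing L ∧ ∀ x : L, 0 ≤ x ↔ IsSquare x := by
  classical
  have hadd : ∀ a b : L, IsSquare a → IsSquare b → IsSquare (a + b) := by
    rintro _ _ ⟨a, rfl⟩ ⟨b, rfl⟩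
    have := h3 a b
    rwa [sq, sq] at this
  have hanti : ∀ a : L, IsSquare a → IsSquare (-a) → a = 0 := by
    rintro a ⟨c, hc⟩ ⟨d, hd⟩
    by_contra h0
    apply h1
    have hc0 : c ≠ 0 := by
      rintro rfl
      exact h0 (by rw [hc, mul_zero])
    refine ⟨d / c, ?_⟩
    rw [div_mul_div_comm, ← hd, ← hc, neg_div, div_self h0]
  obtain ⟨lo, hlo⟩ : ∃ lo : LinearOrder L, ∀ x y : L, lo.le x y ↔ IsSquare (y - x) :=
    ⟨{ le := fun x y => IsSquare (y - x)
       lt := fun x y => IsSquare (y - x) ∧ ¬ IsSquare (x - y)
       le_refl := fun x => by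
         change IsSquare (x - x)
         rw [sub_self]
         exact IsSquare.zero
       le_trans := fun x y z hxy hyz => by
         change IsSquare (z - x)
         have := hadd _ _ hyz hxy
         rwa [sub_add_sub_cancel] at this
       lt_iff_le_not_ge := fun x y => Iff.rfl
       le_antisymm := fun x y hxy hyx => by
         have h : y - x = 0 := hanti _ hxy (by
           rw [neg_sub]
           exact hyx)
         exact (sub_eq_zero.1 h).symm
       le_total := fun x y => by
         rcases h2 (y - x) with h | h
         · exact Or.inl h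
         · rw [neg_sub] at h
           exact Or.inr h
       toDecidableLE := Classical.decRel _ }, fun x y => Iff.rfl⟩
  have hle : ∀ x y : L, x ≤ y ↔ IsSquare (y - x) := hlo
  have hpos : ∀ x : L, 0 ≤ x ↔ IsSquare x := fun x => by rw [hle, sub_zero]
  refine ⟨lo, ?_, hpos⟩
  have i1 : IsOrderedAddMonoid L :=
    { add_le_add_left := fun a b hab c => by
        rw [hle] at hab ⊢
        have : b + c - (a + c) = b - a := by ring
        rw [this]
        exact hab }
  have i2 : ZeroLEOneClass L := ⟨(hpos 1).2 IsSquare.one⟩
  refine IsStrictOrderedRing.of_mul_pos fun a b ha hb => ?_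
  refine lt_of_le_of_ne ?_ (mul_ne_zero ha.ne' hb.ne').symm
  obtain ⟨c, hc⟩ := (hpos a).1 ha.le
  obtain ⟨d, hd⟩ := (hpos b).1 hb.le
  exact (hpos _).2 ⟨c * d, by rw [hc, hd]; ring⟩

end Pool.Agent.Helper98.SA
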