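/-
SB block A, R2: real closed fields from `Ω = L(i)`.  Pure algebra, Mathlib only.

`Ω` algebraically closed, `i^2 = -1`, every element of `Ω` is `a + b i` with `a, b ∈ L`, and `-1` is not a square in `L`
(so `1, i` are linearly independent over `L`: if `a + b i = 0`, `b ≠ 0`, then `(a/b)^2 = -1`).
`h2`: `x ∈ L`, `z ∈ Ω` with `z^2 = x`, `z = a + b i`: `a^2 - b^2 = x`, `2 a b = 0` (characteristic 0:
hypothesis `CharZero L`), so `x = a^2` or `x = -b^2`.
`h3`: `z^2 = a + b i`, `z = c + d i`: `c^2 - d^2 = a`, `2 c d = b`, so `a^2 + b^2 = (c^2 + d^2)^2`.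
-/
import Mathlib

namespace Pool.Agent.Helper98.SA

theorem real_closed {L Ω : Type*} [Field L] [CharZero L] [Field Ω] [Algebra L Ω]
    [IsAlgClosed Ω] {i : Ω} (hi : i ^ 2 = -1)
    (hL : ∀ z : Ω, ∃ a b : L, z = algebraMap L Ω a + algebraMap L Ω b * i)
    (h1 : ¬ IsSquare (-1 : L)) :
    (∀ x : L, IsSquare x ∨ IsSquare (-x)) ∧ (∀ a b : L, IsSquare (a ^ 2 + b ^ 2)) := by
  have hinj : Function.Injective (algebraMap L Ω) := (algebraMap L Ω).injective
  have hind : ∀ a b : L, algebraMap L Ω a + algebraMap L Ω b * i = 0 → a = 0 ∧ b = 0 := by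
    intro a b h
    have hb : b = 0 := by
      by_contra hb
      apply h1
      refine ⟨a / b, ?_⟩
      apply hinj
      have hb' : algebraMap L Ω b ≠ 0 := by
        rw [Ne, map_eq_zero]
        exact hb
      have h2 : algebraMap L Ω a = -(algebraMap L Ω b * i) := eq_neg_of_add_eq_zero_left h
      rw [map_neg, map_one, map_mul, map_div₀, h2, ← hi]
      field_simp
    subst hb
    refine ⟨?_, rfl⟩
    rw [map_zero, zero_mul, add_zero, map_eq_zero] at h
    exact h
  have huniq : ∀ a b c d : L, algebraMap L Ω a + algebraMap L Ω b * i =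
      algebraMap L Ω c + algebraMap L Ω d * i → a = c ∧ b = d := by
    intro a b c d h
    have h2 := hind (a - c) (b - d) (by
      rw [map_sub, map_sub]
      linear_combination h)
    exact ⟨sub_eq_zero.1 h2.1, sub_eq_zero.1 h2.2⟩
  have hsq : ∀ a b : L, (algebraMap L Ω a + algebraMap L Ω b * i) ^ 2 =
      algebraMap L Ω (a ^ 2 - b ^ 2) + algebraMap L Ω (2 * a * b) * i := by
    intro a b
    simp only [map_sub, map_mul, map_pow, map_ofNat]
    linear_combination (algebraMap L Ω b) ^ 2 * hi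
  constructor
  · intro x
    obtain ⟨z, hz⟩ := IsAlgClosed.exists_pow_nat_eq (algebraMap L Ω x) (n := 2) (by norm_num)
    obtain ⟨a, b, hab⟩ := hL z
    rw [hab, hsq] at hz
    have h2 := huniq _ _ x 0 (by rw [hz, map_zero, zero_mul, add_zero])
    have h3 : a * b = 0 := by
      have h4 : (2 : L) * (a * b) = 0 := by rw [← mul_assoc]; exact h2.2
      exact (mul_eq_zero.1 h4).resolve_left two_ne_zero
    rcases mul_eq_zero.1 h3 with h4 | h4
    · right
      refine ⟨b, ?_⟩
      rw [← h2.1, h4]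
      ring
    · left
      refine ⟨a, ?_⟩
      rw [← h2.1, h4]
      ring
  · intro a b
    obtain ⟨z, hz⟩ := IsAlgClosed.exists_pow_nat_eq (algebraMap L Ω a + algebraMap L Ω b * i) (n := 2) (by norm_num)
    obtain ⟨c, d, hcd⟩ := hL z
    rw [hcd, hsq] at hz
    have h2 := huniq _ _ _ _ hz
    refine ⟨c ^ 2 + d ^ 2, ?_⟩
    rw [← h2.1, ← h2.2]
    ring

end Pool.Agent.Helper98.SA
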