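/-
SB block A, R3: the standard part map.  Mathlib only (`Mathlib/Algebra/Order/Ring/StandardPart.lean`).

`L` a linearly ordered field, `F → L`, `ι : F → ℝ` such that `0 ≤ ι x` implies `0 ≤ x` in `L`.
`O := (ArchimedeanClass.addValuation L).toValuation.valuationSubring` (the elements bounded by a natural number; this is
`ArchimedeanClass.FiniteElement L`), `φ := ` the standard part (`ArchimedeanClass.FiniteElement.stdPart...`,
`FiniteResidueField` embeds in `ℝ`; a ring homomorphism).
`x ∈ F`: choose `n : ℕ` with `|ι x| ≤ n`: `0 ≤ ι (n - x)`, `0 ≤ ι (n + x)`, so `-n ≤ x ≤ n` in `L`: `x ∈ O`.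
For rational `r ≤ ι x`: `r ≤ x` in `L`, so `r ≤ φ x`, and for `ι x ≤ r`: `x ≤ r`, `φ x ≤ r`; so `φ x = ι x`.
(If it is easier, define `φ` directly: `φ x = sSup {(r : ℝ) | r : ℚ, (r : L) ≤ x}`.)
-/
import Mathlib

namespace Pool.Agent.Helper98.SA

theorem st_place {F L : Type*} [Field F] [Field L] [LinearOrder L] [IsStrictOrderedRing L]
    [Algebra F L] (ι : F →+* ℝ) (hι : ∀ x : F, 0 ≤ ι x → 0 ≤ algebraMap F L x) :
    ∃ (O : ValuationSubring L) (φ : O →+* ℝ) (hF : ∀ x : F, algebraMap F L x ∈ O),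
      ∀ x : F, φ ⟨algebraMap F L x, hF x⟩ = ι x := by
  have hmono : ∀ x y : F, ι x ≤ ι y → algebraMap F L x ≤ algebraMap F L y := by
    intro x y hxy
    have h1 := hι (y - x) (by rw [map_sub]; linarith)
    rw [map_sub] at h1
    linarith
  have hrat1 : ∀ (r : ℚ) (x : F), (r : ℝ) ≤ ι x → (r : L) ≤ algebraMap F L x := by
    intro r x h
    have h2 : (r : L) = (r.num : L) / (r.den : L) := Rat.cast_def r
    have h3 : (r : ℝ) = (r.num : ℝ) / (r.den : ℝ) := Rat.cast_def r
    have hd : (0 : L) < (r.den : L) := by exact_mod_cast r.den_pos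
    have hd' : (0 : ℝ) < (r.den : ℝ) := by exact_mod_cast r.den_pos
    rw [h2, div_le_iff₀ hd]
    rw [h3, div_le_iff₀ hd'] at h
    have h4 := hmono (r.num : F) (x * (r.den : F)) (by
      rw [map_intCast, map_mul, map_natCast]
      exact h)
    rw [map_intCast, map_mul, map_natCast] at h4
    exact h4
  have hrat2 : ∀ (r : ℚ) (x : F), ι x ≤ (r : ℝ) → algebraMap F L x ≤ (r : L) := by
    intro r x h
    have h1 := hrat1 (-r) (-x) (by rw [map_neg]; push_cast; linarith)
    rw [map_neg] at h1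
    push_cast at h1
    linarith
  have hmem : ∀ x : F, 0 ≤ ArchimedeanClass.mk (algebraMap F L x) := by
    intro x
    obtain ⟨n, hn⟩ := exists_nat_ge |ι x|
    have h1 := hrat1 (-(n : ℚ)) x (by push_cast; linarith [neg_abs_le (ι x)])
    have h2 := hrat2 (n : ℚ) x (by push_cast; linarith [le_abs_self (ι x)])
    refine ⟨n, ?_⟩
    push_cast at h1 h2
    change |algebraMap F L x| ≤ n • |(1 : L)|
    rw [abs_one, nsmul_eq_mul, mul_one]
    exact abs_le.2 ⟨h1, h2⟩
  let O : ValuationSubring L := (ArchimedeanClass.addValuation L).toValuation.valuationSubring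
  have hO : ∀ x : L, x ∈ O → 0 ≤ ArchimedeanClass.mk x := fun x hx => hx
  let φ : O →+* ℝ :=
    { toFun := fun x => ArchimedeanClass.stdPart (x : L)
      map_one' := ArchimedeanClass.stdPart_one
      map_zero' := ArchimedeanClass.stdPart_zero
      map_add' := fun x y => ArchimedeanClass.stdPart_add (hO _ x.2) (hO _ y.2)
      map_mul' := fun x y => ArchimedeanClass.stdPart_mul (hO _ x.2) (hO _ y.2) }
  refine ⟨O, φ, hmem, fun x => ?_⟩
  change ArchimedeanClass.stdPart (algebraMap F L x) = ι x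
  refine le_antisymm ?_ ?_
  · by_contra hlt
    rw [not_le] at hlt
    obtain ⟨r, hr1, hr2⟩ := exists_rat_btwn hlt
    have h1 := ArchimedeanClass.stdPart_monotoneOn (hmem x) (ArchimedeanClass.mk_ratCast_nonneg (R := L) r)
      (hrat2 r x hr1.le)
    rw [ArchimedeanClass.stdPart_ratCast] at h1
    linarith
  · by_contra hlt
    rw [not_le] at hlt
    obtain ⟨r, hr1, hr2⟩ := exists_rat_btwn hlt
    have h1 := ArchimedeanClass.stdPart_monotoneOn (ArchimedeanClass.mk_ratCast_nonneg (R := L) r) (hmem x)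
      (hrat1 r x hr2.le)
    rw [ArchimedeanClass.stdPart_ratCast] at h1
    linarith

end Pool.Agent.Helper98.SA
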