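/-
SB block A, CMP: Galois invariance of the canonical ring, and the canonical ring of a finite Galois
extension `N/L` lies over the canonical ring of `L`.

(1) `oring_inv`: `g : K ≃+* K` with `g T ⊆ T`, `g H ⊆ H` and the same for `g⁻¹`
    (hypotheses: `∀ x, g x ∈ T ↔ x ∈ T`, `∀ x, g x ∈ H ↔ x ∈ H`).  Then `g x ∈ oring ↔ x ∈ oring`:
    `g x ∈ om ↔ x ∈ om` (`1 + g x = g (1+x)`); for `op`: `x ∈ op`, `a ∈ om`: `g x * a = g (x * g⁻¹ a)`.
(2) `canon_comap`.  Write `i = algebraMap L N`, `n = finrank L N ≥ 1`.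
    `i x ∈ om T' H' ↔ x ∈ om T H` (from `hT`, `hH`, `i x = 0 ↔ x = 0`, `1 + i x = i (1 + x)`).
    (→) `i x ∈ O'`: `i x = 0`: `x = 0 ∈ O`.  `i x ∈ om'`: `x ∈ om`.  `i x ∈ op'`: `x ∈ H`, and for
    `a ∈ om`: `i a ∈ om'`, so `i (x a) = i x * i a ∈ om'`, so `x a ∈ om`; so `x ∈ op`.
    (←) `x ∈ O`, suppose `i x ∉ O'`.  Then `x ≠ 0`, `x ∉ om`, so `x ∈ op ⊆ H`.  `y := i (x⁻¹)`:
    `y ≠ 0`, `y⁻¹ = i x ∉ O'`, `y ∈ H'` (hH, `x⁻¹ ∈ H`).  By `canon_factor` (TH5) `y = a * b`,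
    `a, b ∈ om T' H'`.
    Claim: for `a ∈ om T' H'`: `Algebra.norm L a ∈ om T H`.  `i (norm a) = ∏_g g a`
    (Algebra.norm_eq_prod_automorphisms).  Each `g a ∈ om T' H'` (`g a ∉ H'` since
    `g a * a⁻¹ ∈ H'`; `1 + g a = g (1 + a) ∈ T'`), so by `canon_om` `g a ∈ O'`, `(g a)⁻¹ ∉ O'`, i.e.
    `O'.valuation (g a) < 1` (ValuationSubring.valuation_lt_one_iff / `mem_nonunits_iff`...); the
    product of `n ≥ 1` of them has valuation `< 1` too, so `P := i (norm a)` satisfies `P⁻¹ ∉ O'`,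
    `P ≠ 0`.  `P ∉ H'`: `∏ (g a * a⁻¹) = P * a^{-n} ∈ H'` (`card (N ≃ₐ[L] N) = n`, IsGalois), so
    `P ∈ H'` would give `a ^ n ∈ H'`, so `a ∈ H'` by `hd`, contradiction.  `1 + P ∈ T'` by
    `canon_one_add`.  So `P ∈ om T' H'` and `norm a ∈ om T H`.
    Now `norm a * norm b = norm (i x⁻¹) = (x⁻¹)^n` (Algebra.norm_algebraMap).  So
    `(norm b)⁻¹ = x^n * norm a`; `x ∈ O`, `norm a ∈ om ⊆ O` so `(norm b)⁻¹ ∈ O`, contradiction with
    `canon_om` for `norm b`.
-/
import Pool.Agent.Helper98.SA.TH5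

namespace Pool.Agent.Helper98.SA

private theorem CMP_om {K : Type*} [Field K] {T H : Set K} (g : K ≃+* K)
    (hT : ∀ x, g x ∈ T ↔ x ∈ T) (hH : ∀ x, g x ∈ H ↔ x ∈ H) (x : K) :
    g x ∈ om T H ↔ x ∈ om T H := by
  have h1 : 1 + g x = g (1 + x) := by rw [map_add, map_one]
  have h2 : g x ≠ 0 ↔ x ≠ 0 := by
    rw [ne_eq, ne_eq, map_eq_zero_iff g g.injective]
  show (g x ≠ 0 ∧ g x ∉ H ∧ 1 + g x ∈ T) ↔ (x ≠ 0 ∧ x ∉ H ∧ 1 + x ∈ T)
  rw [h1, hT, hH, h2]

theorem oring_inv {K : Type*} [Field K] {T H : Set K} (g : K ≃+* K)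
    (hT : ∀ x, g x ∈ T ↔ x ∈ T) (hH : ∀ x, g x ∈ H ↔ x ∈ H) (x : K) :
    g x ∈ oring T H ↔ x ∈ oring T H := by
  have hom := CMP_om g hT hH
  have hop : g x ∈ op T H ↔ x ∈ op T H := by
    constructor
    · rintro ⟨h1, h2⟩
      refine ⟨(hH x).1 h1, fun a ha => ?_⟩
      have h3 := h2 (g a) ((hom a).2 ha)
      rw [← map_mul] at h3
      exact (hom _).1 h3
    · rintro ⟨h1, h2⟩
      refine ⟨(hH x).2 h1, fun a ha => ?_⟩
      have h4 : g (g.symm a) = a := g.apply_symm_apply a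
      have h3 := h2 (g.symm a) ((hom _).1 (by rw [h4]; exact ha))
      have h5 := (hom _).2 h3
      rw [map_mul, h4] at h5
      exact h5
  have h0 : g x = 0 ↔ x = 0 := map_eq_zero_iff g g.injective
  show (g x = 0 ∨ g x ∈ om T H ∨ g x ∈ op T H) ↔ (x = 0 ∨ x ∈ om T H ∨ x ∈ op T H)
  rw [h0, hom x, hop]

private theorem CMP_ne {K : Type*} [Field K] {H : Set K} (hH : MulSub H) {x : K} (hx : x ∈ H) :
    x ≠ 0 := by
  intro h0
  rw [h0] at hx
  exact hH.zero hx

private theorem CMP_prod {K : Type*} [Field K] {H : Set K} (hH : MulSub H) {ι : Type*}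
    (s : Finset ι) (f : ι → K) (hf : ∀ j ∈ s, f j ∈ H) : ∏ j ∈ s, f j ∈ H := by
  classical
  induction s using Finset.induction_on with
  | empty => rw [Finset.prod_empty]; exact hH.one
  | insert a s ha ih =>
    rw [Finset.prod_insert ha]
    exact hH.mul _ (hf a (Finset.mem_insert_self a s)) _
      (ih (fun j hj => hf j (Finset.mem_insert_of_mem hj)))

theorem canon_comap {L N : Type*} [Field L] [Field N] [Algebra L N] [FiniteDimensional L N]
    [IsGalois L N] {T H : Set L} {T' H' : Set N} (h : Rig T H) (h' : Rig T' H')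
    (O : ValuationSubring L) (hO : ∀ x, x ∈ O ↔ x ∈ oring T H)
    (O' : ValuationSubring N) (hO' : ∀ x, x ∈ O' ↔ x ∈ oring T' H')
    (hT : ∀ x : L, algebraMap L N x ∈ T' ↔ x ∈ T)
    (hH : ∀ x : L, algebraMap L N x ∈ H' ↔ x ∈ H)
    (hgT : ∀ g : N ≃ₐ[L] N, ∀ x ∈ T', g x ∈ T')
    (hgH : ∀ g : N ≃ₐ[L] N, ∀ x : N, x ≠ 0 → g x * x⁻¹ ∈ H')
    (hd : ∀ x : N, x ^ Module.finrank L N ∈ H' → x ∈ H') (x : L) :
    algebraMap L N x ∈ O' ↔ x ∈ O := by
  classical
  have hinj : Function.Injective (algebraMap L N) := (algebraMap L N).injective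
  have h0 : ∀ y : L, algebraMap L N y = 0 ↔ y = 0 := fun y => map_eq_zero_iff _ hinj
  have hom : ∀ y : L, algebraMap L N y ∈ om T' H' ↔ y ∈ om T H := by
    intro y
    have h1 : 1 + algebraMap L N y = algebraMap L N (1 + y) := by rw [map_add, map_one]
    show (algebraMap L N y ≠ 0 ∧ algebraMap L N y ∉ H' ∧ 1 + algebraMap L N y ∈ T') ↔
      (y ≠ 0 ∧ y ∉ H ∧ 1 + y ∈ T)
    rw [h1, hT, hH, ne_eq, ne_eq, h0]
  constructor
  · intro hx
    rcases (hO' _).1 hx with h1 | h1 | h1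
    · rw [(h0 x).1 h1]
      exact O.zero_mem
    · exact (hO x).2 (Or.inr (Or.inl ((hom x).1 h1)))
    · refine (hO x).2 (Or.inr (Or.inr ⟨(hH x).1 h1.1, fun a ha => ?_⟩))
      have h2 := h1.2 _ ((hom a).2 ha)
      rw [← map_mul] at h2
      exact (hom _).1 h2
  · intro hx
    by_contra hn
    -- the norm maps `om T' H'` to `om T H`
    have key : ∀ a ∈ om T' H', Algebra.norm L a ∈ om T H := by
      intro a ha
      have ha0 : a ≠ 0 := ha.1
      have hga : ∀ g : N ≃ₐ[L] N, g a ∈ om T' H' := by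
        intro g
        refine ⟨?_, ?_, ?_⟩
        · intro h1
          exact ha0 ((map_eq_zero_iff g g.injective).1 h1)
        · intro h1
          apply ha.2.1
          have h2 := hgH g a ha0
          have h3 := h'.hH.mul _ (h'.hH.inv _ h2) _ h1
          have hg0 : g a ≠ 0 := CMP_ne h'.hH h1
          have h4 : (g a * a⁻¹)⁻¹ * g a = a := by
            field_simp
          rw [h4] at h3
          exact h3
        · have h1 := hgT g _ ha.2.2
          rw [map_add, map_one] at h1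
          exact h1
      have hP : algebraMap L N (Algebra.norm L a) = ∏ g : N ≃ₐ[L] N, g a :=
        Algebra.norm_eq_prod_automorphisms L a
      have hprodO : ∀ s : Finset (N ≃ₐ[L] N), ∏ g ∈ s, g a ∈ O' := fun s =>
        prod_mem (fun g _ => (canon_om h' O' hO' (hga g)).1)
      have hprod0 : ∀ s : Finset (N ≃ₐ[L] N), ∏ g ∈ s, g a ≠ 0 := fun s =>
        Finset.prod_ne_zero_iff.2 (fun g _ => (hga g).1)
      have hPinv : (∏ g : N ≃ₐ[L] N, g a)⁻¹ ∉ O' := by
        intro h1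
        have h2 : (∏ g : N ≃ₐ[L] N, g a) =
            (1 : N ≃ₐ[L] N) a * ∏ g ∈ Finset.univ.erase (1 : N ≃ₐ[L] N), g a :=
          (Finset.mul_prod_erase Finset.univ (fun g : N ≃ₐ[L] N => g a)
            (Finset.mem_univ _)).symm
        rw [h2] at h1
        have h3 := O'.mul_mem _ _ (hprodO (Finset.univ.erase (1 : N ≃ₐ[L] N))) h1
        have h4 := hprod0 (Finset.univ.erase (1 : N ≃ₐ[L] N))
        have h5 := (hga 1).1
        have h6 : (∏ g ∈ Finset.univ.erase (1 : N ≃ₐ[L] N), g a) *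
            ((1 : N ≃ₐ[L] N) a * ∏ g ∈ Finset.univ.erase (1 : N ≃ₐ[L] N), g a)⁻¹ =
            ((1 : N ≃ₐ[L] N) a)⁻¹ := by
          rw [mul_inv, mul_comm, mul_assoc, inv_mul_cancel₀ h4, mul_one]
        rw [h6] at h3
        exact (canon_om h' O' hO' (hga 1)).2 h3
      have hPH : (∏ g : N ≃ₐ[L] N, g a) ∉ H' := by
        intro h1
        have h2 : ∏ g : N ≃ₐ[L] N, (g a * a⁻¹) ∈ H' :=
          CMP_prod h'.hH _ _ (fun g _ => hgH g a ha0)
        rw [Finset.prod_mul_distrib, Finset.prod_const, Finset.card_univ] at h2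
        have h3 : Fintype.card (N ≃ₐ[L] N) = Module.finrank L N := by
          rw [← Nat.card_eq_fintype_card]
          exact IsGalois.card_aut_eq_finrank L N
        rw [h3] at h2
        have h4 := h'.hH.mul _ (h'.hH.inv _ h2) _ h1
        have h5 : ((∏ g : N ≃ₐ[L] N, g a) * a⁻¹ ^ Module.finrank L N)⁻¹ *
            (∏ g : N ≃ₐ[L] N, g a) = a ^ Module.finrank L N := by
          have h6 := hprod0 Finset.univ
          rw [mul_inv, inv_pow, inv_inv, mul_comm, ← mul_assoc, mul_inv_cancel₀ h6, one_mul]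
        rw [h5] at h4
        exact ha.2.1 (hd a h4)
      have hP1 : 1 + (∏ g : N ≃ₐ[L] N, g a) ∈ T' :=
        canon_one_add h' O' hO' (hprod0 Finset.univ) hPinv
      have hPom : algebraMap L N (Algebra.norm L a) ∈ om T' H' := by
        rw [hP]
        exact ⟨hprod0 Finset.univ, hPH, hP1⟩
      exact (hom _).1 hPom
    have hx0 : x ≠ 0 := by
      intro h1
      apply hn
      rw [h1, map_zero]
      exact O'.zero_mem
    have hix0 : algebraMap L N x ≠ 0 := fun h1 => hx0 ((h0 x).1 h1)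
    have hxH : x ∈ H := by
      rcases (hO x).1 hx with h1 | h1 | h1
      · exact absurd h1 hx0
      · exact absurd ((hO' _).2 (Or.inr (Or.inl ((hom x).2 h1)))) hn
      · exact h1.1
    have hyH : algebraMap L N x⁻¹ ∈ H' := (hH _).2 (h.hH.inv _ hxH)
    have hy0 : algebraMap L N x⁻¹ ≠ 0 := fun h1 => inv_ne_zero hx0 ((h0 _).1 h1)
    have hyi : (algebraMap L N x⁻¹)⁻¹ ∉ O' := by
      rw [map_inv₀, inv_inv]
      exact hn
    obtain ⟨a, ha, b, hb, hab⟩ := canon_factor h' O' hO' hy0 hyi hyH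
    have h1 : Algebra.norm L a * Algebra.norm L b = x⁻¹ ^ Module.finrank L N := by
      rw [← map_mul, ← hab, Algebra.norm_algebraMap]
    have hna := canon_om h O hO (key a ha)
    have hnb := canon_om h O hO (key b hb)
    have hna0 := (key a ha).1
    have hnb0 := (key b hb).1
    have h2 : (Algebra.norm L b)⁻¹ = x ^ Module.finrank L N * Algebra.norm L a := by
      have h3 : x ^ Module.finrank L N * (Algebra.norm L a * Algebra.norm L b) = 1 := by
        rw [h1, inv_pow, mul_inv_cancel₀ (pow_ne_zero _ hx0)]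
      rw [← mul_assoc] at h3
      exact inv_eq_of_mul_eq_one_left h3
    apply hnb.2
    rw [h2]
    exact O.mul_mem _ _ (pow_mem hx _) hna.1

end Pool.Agent.Helper98.SA
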