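/-
SB block A, CO3a: the groups `T = powSet l L` and `H = uP A l L`.

`uP A n L = {x | x = a y^n, a a unit of A, y ∈ L^*}`, `powSet n L = {y^n | y ∈ L^*}`.
`mulSub_uP`, `mulSub_powSet`: clear.
`two_uP`: `n` odd, `x^2 ∈ H → x ∈ H`: `x ≠ 0`, `n = 2 m + 1`, `x = x^n * ((x^2)^m)⁻¹`.
`unit_class`: `A` HDVR, `l` prime, `l ∣ q - 1`.  `u`, `a` units of `A`, `u` not an `l`-th power in `F`.
Then `a = u^i y^l`.  Proof: `ζ₀` a primitive `(q-1)`-th root of unity (`exists_zeta`), `π` a uniformizer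
(`exists_unif`).  `classes`: `u = π^i ζ₀^j y^l`, `a = π^i' ζ₀^j' y'^l` with `0 ≤ i, j, i', j' < l`.
`i = 0`: `y = π^k v` with `v` a unit (`exists_zpow`), so `π^(i + l k)` is a unit, `i + l k = 0`
(`zpow_isUn`), `l ∣ i`, `i = 0`.  Same for `i'`.  `j ≠ 0` since `u` is not an `l`-th power; so `l` is
prime to `j` and there is `e` with `j e ≡ j' mod l`; `a = u^e * (l-th power)`.
`unit_uP`: same for `a` in the form `uP`.
-/
import Mathlib
import Pool.Agent.Helper98.SA.GP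
import Pool.Agent.Helper60.SL.Classes

open Pool.Agent.Helper60.SL IsLocalRing

namespace Pool.Agent.Helper98.SA

variable {F L : Type*} [Field F] [Field L] [Algebra F L]

private theorem h86_pow_mem {T : Set L} (hT : MulSub T) {x : L} (hx : x ∈ T) (n : ℕ) : x ^ n ∈ T := by
  induction n with
  | zero => rw [pow_zero]; exact hT.one
  | succ n ih => rw [pow_succ]; exact hT.mul _ ih _ hx

private theorem h86_zpow_mem {T : Set L} (hT : MulSub T) {x : L} (hx : x ∈ T) (n : ℤ) : x ^ n ∈ T := by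
  obtain ⟨m, rfl | rfl⟩ := n.eq_nat_or_neg
  · rw [zpow_natCast]
    exact h86_pow_mem hT hx m
  · rw [zpow_neg, zpow_natCast]
    exact hT.inv _ (h86_pow_mem hT hx m)

private theorem h86_add_aux {H : Type*} [AddCommGroup H] (ζ y y' : H) (j j' l N M B C : ℤ)
    (h1 : j * C + l * B = 1) (h2 : C * j' = N + l * M) :
    j' • ζ + l • y' = N • (j • ζ + l • y) + l • (M • (j • ζ + l • y) + (B * j') • ζ + (-(C * j')) • y + y') := by
  have e1 : j' = N * j + l * M * j + l * B * j' := by linear_combination (-j') * h1 + j * h2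
  have e2 : N * l + l * M * l - l * (C * j') = 0 := by linear_combination (-l) * h2
  calc j' • ζ + l • y' = (N * j + l * M * j + l * B * j') • ζ + (N * l + l * M * l - l * (C * j')) • y + l • y' := by
        rw [e2, zero_smul, add_zero, ← e1]
    _ = _ := by module

private theorem h86_mul_aux {G : Type*} [CommGroup G] (ζ y y' : G) (j j' l N M B C : ℤ)
    (h1 : j * C + l * B = 1) (h2 : C * j' = N + l * M) :
    ζ ^ j' * y' ^ l = (ζ ^ j * y ^ l) ^ N * ((ζ ^ j * y ^ l) ^ M * ζ ^ (B * j') * y ^ (-(C * j')) * y') ^ l :=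
  h86_add_aux (H := Additive G) (Additive.ofMul ζ) (Additive.ofMul y) (Additive.ofMul y') j j' l N M B C h1 h2

private theorem h86_zero_exp {A : ValuationSubring F} (hA : HDVR A) {l : ℕ} {u π ζ y : F} (hπ : IsUnif A π)
    (hu : IsUn A u) (hζ : IsUn A ζ) {i : ℕ} (hi : i < l) (hy : y ≠ 0) (h : u = π ^ i * ζ * y ^ l) : i = 0 := by
  obtain ⟨k, v, hv, hyv⟩ := exists_zpow hA.dvr hπ hy
  have hπ0 := hπ.ne
  have hζ0 := (isUn_iff.1 hζ).1
  have hv0 := (isUn_iff.1 hv).1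
  have h1 : π ^ ((i : ℤ) + k * l) = u * (ζ * v ^ l)⁻¹ := by
    rw [eq_mul_inv_iff_mul_eq₀ (mul_ne_zero hζ0 (pow_ne_zero _ hv0)), h, hyv, mul_pow, zpow_add₀ hπ0, zpow_mul,
      zpow_natCast, zpow_natCast]
    ring
  have h2 : IsUn A (π ^ ((i : ℤ) + k * l)) := by
    rw [h1]
    exact hu.mul (hζ.mul (hv.pow l)).inv
  have h3 := zpow_isUn hπ h2
  have hl0 : (0 : ℤ) < l := by omega
  have h4 : -1 < k := by nlinarith
  have h5 : k < 1 := by nlinarith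
  have h6 : k = 0 := by omega
  rw [h6] at h3
  omega

theorem mulSub_uP (A : ValuationSubring F) (n : ℕ) : MulSub (uP A n L) := by
  refine ⟨?_, ?_, ?_, ?_⟩
  · rintro ⟨a, ha, -, -, y, hy, h⟩
    have h1 : algebraMap F L a ≠ 0 := (map_ne_zero _).2 ha
    exact mul_ne_zero h1 (pow_ne_zero n hy) h.symm
  · exact ⟨1, one_ne_zero, A.one_mem, by rw [inv_one]; exact A.one_mem, 1, one_ne_zero, by simp⟩
  · rintro _ ⟨a, ha, ha1, ha2, y, hy, rfl⟩ _ ⟨b, hb, hb1, hb2, z, hz, rfl⟩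
    refine ⟨a * b, mul_ne_zero ha hb, A.mul_mem _ _ ha1 hb1, ?_, y * z, mul_ne_zero hy hz, ?_⟩
    · rw [mul_inv]
      exact A.mul_mem _ _ ha2 hb2
    · rw [map_mul, mul_pow]
      ring
  · rintro _ ⟨a, ha, ha1, ha2, y, hy, rfl⟩
    refine ⟨a⁻¹, inv_ne_zero ha, ha2, by rwa [inv_inv], y⁻¹, inv_ne_zero hy, ?_⟩
    rw [mul_inv, map_inv₀, inv_pow]

theorem mulSub_powSet (n : ℕ) : MulSub (powSet n L) := by
  refine ⟨?_, ?_, ?_, ?_⟩
  · rintro ⟨y, hy, h⟩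
    exact pow_ne_zero n hy h.symm
  · exact ⟨1, one_ne_zero, by simp⟩
  · rintro _ ⟨y, hy, rfl⟩ _ ⟨z, hz, rfl⟩
    exact ⟨y * z, mul_ne_zero hy hz, by rw [mul_pow]⟩
  · rintro _ ⟨y, hy, rfl⟩
    exact ⟨y⁻¹, inv_ne_zero hy, by rw [inv_pow]⟩

theorem powSet_sub_uP (A : ValuationSubring F) (n : ℕ) : powSet n L ⊆ uP A n L := by
  rintro _ ⟨y, hy, rfl⟩
  exact ⟨1, one_ne_zero, A.one_mem, by rw [inv_one]; exact A.one_mem, y, hy, by simp⟩

theorem two_uP (A : ValuationSubring F) {n : ℕ} (hn : Odd n) {x : L} (hx : x ^ 2 ∈ uP A n L) :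
    x ∈ uP A n L := by
  have hM := mulSub_uP (L := L) A n
  have hx0 : x ≠ 0 := by
    rintro rfl
    rw [zero_pow two_ne_zero] at hx
    exact hM.zero hx
  obtain ⟨m, rfl⟩ := hn
  have h1 : x ^ (2 * m + 1) ∈ uP A (2 * m + 1) L := powSet_sub_uP A _ ⟨x, hx0, rfl⟩
  have h2 := hM.mul _ h1 _ (hM.inv _ (h86_pow_mem hM hx m))
  have h3 : x ^ (2 * m + 1) * ((x ^ 2) ^ m)⁻¹ = x := by
    rw [← pow_mul, pow_succ']
    exact mul_inv_cancel_right₀ (pow_ne_zero _ hx0) x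
  rwa [h3] at h2

theorem pow_mem_powSet {n m : ℕ} (hnm : Nat.Coprime m n) {x : L} (hx : x ≠ 0)
    (h : x ^ m ∈ powSet n L) : x ∈ powSet n L := by
  have hM := mulSub_powSet (L := L) n
  have h1 := h86_zpow_mem hM h (Nat.gcdA m n)
  have h2 : (x ^ (Nat.gcdB m n)) ^ n ∈ powSet n L := ⟨_, zpow_ne_zero _ hx, rfl⟩
  have h3 := hM.mul _ h1 _ h2
  have h4 : (x ^ m) ^ (Nat.gcdA m n) * (x ^ (Nat.gcdB m n)) ^ n = x := by
    rw [← zpow_natCast, ← zpow_natCast, ← zpow_mul, ← zpow_mul, ← zpow_add₀ hx, mul_comm (Nat.gcdB m n),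
      ← Nat.gcd_eq_gcd_ab, hnm.gcd_eq_one, Nat.cast_one, zpow_one]
  rwa [h4] at h3

theorem pow_mem_uP (A : ValuationSubring F) {n m : ℕ} (hnm : Nat.Coprime m n) {x : L}
    (h : x ^ m ∈ uP A n L) (hx : x ≠ 0) : x ∈ uP A n L := by
  have hM := mulSub_uP (L := L) A n
  have h1 := h86_zpow_mem hM h (Nat.gcdA m n)
  have h2 : (x ^ (Nat.gcdB m n)) ^ n ∈ uP A n L := powSet_sub_uP A _ ⟨_, zpow_ne_zero _ hx, rfl⟩
  have h3 := hM.mul _ h1 _ h2
  have h4 : (x ^ m) ^ (Nat.gcdA m n) * (x ^ (Nat.gcdB m n)) ^ n = x := by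
    rw [← zpow_natCast, ← zpow_natCast, ← zpow_mul, ← zpow_mul, ← zpow_add₀ hx, mul_comm (Nat.gcdB m n),
      ← Nat.gcd_eq_gcd_ab, hnm.gcd_eq_one, Nat.cast_one, zpow_one]
  rwa [h4] at h3

theorem unit_class {A : ValuationSubring F} (hA : HDVR A) {l : ℕ} (hl : l.Prime)
    (hlq : l ∣ Nat.card (ResidueField A) - 1) {u a : F} (hu : IsUn A u) (ha : IsUn A a)
    (hn : ¬ ∃ y, y ^ l = u) : ∃ (i : ℕ) (y : F), y ≠ 0 ∧ a = u ^ i * y ^ l := by
  obtain ⟨ζ, hζ⟩ := exists_zeta hA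
  obtain ⟨π, hπ⟩ := exists_unif hA.dvr
  have hN : Nat.card (ResidueField A) - 1 ≠ 0 := by
    haveI := hA.fin
    have h : 1 < Nat.card (ResidueField A) := Finite.one_lt_card
    omega
  have hζU : IsUn A ζ := zeta_isUn hN hζ.pow_eq_one
  obtain ⟨i, hi, j, hj, y, hy, h1⟩ := classes hA hl hlq hζ hπ (isUn_iff.1 hu).1
  obtain ⟨i', hi', j', hj', y', hy', h1'⟩ := classes hA hl hlq hζ hπ (isUn_iff.1 ha).1
  have hi0 := h86_zero_exp hA hπ hu (hζU.pow j) hi hy h1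
  have hi0' := h86_zero_exp hA hπ ha (hζU.pow j') hi' hy' h1'
  rw [hi0, pow_zero, one_mul] at h1
  rw [hi0', pow_zero, one_mul] at h1'
  have hj0 : j ≠ 0 := by
    intro h0
    rw [h0, pow_zero, one_mul] at h1
    exact hn ⟨y, h1.symm⟩
  have hcop : Nat.Coprime j l :=
    ((Nat.Prime.coprime_iff_not_dvd hl).2 (fun hd => by
      have := Nat.le_of_dvd (by omega) hd
      omega)).symm
  have hB : (j : ℤ) * Nat.gcdA j l + l * Nat.gcdB j l = 1 := by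
    rw [← Nat.gcd_eq_gcd_ab, hcop.gcd_eq_one, Nat.cast_one]
  have hl0 : (0 : ℤ) < l := by exact_mod_cast hl.pos
  obtain ⟨C, hC⟩ : ∃ C : ℤ, C = Nat.gcdA j l := ⟨_, rfl⟩
  obtain ⟨B, hB'⟩ : ∃ B : ℤ, B = Nat.gcdB j l := ⟨_, rfl⟩
  rw [← hC, ← hB'] at hB
  have hN0 : 0 ≤ (C * j') % l := Int.emod_nonneg _ hl0.ne'
  have h2 : C * j' = (((C * j') % l).toNat : ℤ) + l * ((C * j') / l) := by
    rw [Int.toNat_of_nonneg hN0, Int.emod_add_mul_ediv]
  have hζ0 := (isUn_iff.1 hζU).1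
  have h3 := h86_mul_aux (Units.mk0 ζ hζ0) (Units.mk0 y hy) (Units.mk0 y' hy') j j' l _ _ B C hB h2
  have h4 := congrArg Units.val h3
  simp only [zpow_natCast, Units.val_mul, Units.val_zpow_eq_zpow_val, Units.val_pow_eq_pow_val, Units.val_mk0] at h4
  rw [← h1, ← h1'] at h4
  refine ⟨((C * j') % l).toNat, _, ?_, h4⟩
  have hu0 := (isUn_iff.1 hu).1
  exact mul_ne_zero (mul_ne_zero (mul_ne_zero (zpow_ne_zero _ hu0) (zpow_ne_zero _ hζ0)) (zpow_ne_zero _ hy)) hy'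

end Pool.Agent.Helper98.SA
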