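/-
PROJECT SB (MP_ad201b_nt), BLOCK A (place theorem), helper98.  Definitions.

Subgroups of the multiplicative group of a field `K` are treated as SETS of elements of `K`
(`MulSub`).  `T` and `H` are two such subgroups, `T ⊆ H`.
-/
import Mathlib

namespace Pool.Agent.Helper98.SA

/-- a subgroup of the multiplicative group of `K`, as a set of elements of `K` -/
structure MulSub {K : Type*} [Field K] (T : Set K) : Prop where
  zero : (0 : K) ∉ T
  one : (1 : K) ∈ T
  mul : ∀ a ∈ T, ∀ b ∈ T, a * b ∈ T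
  inv : ∀ a ∈ T, a⁻¹ ∈ T

/-- the hypotheses of the `(T,H)` lemma: every `x` outside `H` is `T`-rigid, and `K^*/H` has no
element of order two -/
structure Rig {K : Type*} [Field K] (T H : Set K) : Prop where
  hT : MulSub T
  hH : MulSub H
  le : T ⊆ H
  neg : (-1 : K) ∈ T
  two : ∀ x : K, x ^ 2 ∈ H → x ∈ H
  rig : ∀ x : K, x ≠ 0 → x ∉ H → 1 + x ∈ T ∨ (1 + x) * x⁻¹ ∈ T

/-- `O^-(T,H)` -/
def om {K : Type*} [Field K] (T H : Set K) : Set K := {x | x ≠ 0 ∧ x ∉ H ∧ 1 + x ∈ T}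

/-- `O^+(T,H)` -/
def op {K : Type*} [Field K] (T H : Set K) : Set K :=
  {x | x ∈ H ∧ ∀ a ∈ om T H, x * a ∈ om T H}

/-- the carrier of the canonical ring `O(T,H)` -/
def oring {K : Type*} [Field K] (T H : Set K) : Set K := {x | x = 0 ∨ x ∈ om T H ∨ x ∈ op T H}

/-- the nonzero `n`-th powers of `L` -/
def powSet (n : ℕ) (L : Type*) [Field L] : Set L := {x | ∃ y : L, y ≠ 0 ∧ x = y ^ n}

/-- `K^* / (K^*)^n` -/
abbrev PQ (K : Type*) [Field K] (n : ℕ) : Type _ := Kˣ ⧸ (powMonoidHom n : Kˣ →* Kˣ).range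

end Pool.Agent.Helper98.SA
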