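/-
PROJECT SB (MP_ad201b_nt), BLOCK A (place theorem), helper98.  Good pairs and composita.

`GPair F L Ω`: `F` is algebraically closed in `L`, `Ω` is algebraic over `L` and generated over `L`
by elements algebraic over `F`.  For a finite Galois extension `E / F` inside `Ω`,
`cmp L E` is the compositum `L E`, an intermediate field of `Ω / L`, and an algebra over `E`.
-/
import Mathlib
import Pool.Agent.Helper98.SA.Defs

namespace Pool.Agent.Helper98.SA

/-- good pairs: `F` is algebraically closed in `L`, `Ω / L` is algebraic and `Ω` is generated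
over `L` by elements algebraic over `F` (equivalently for `Ω` algebraically closed of
characteristic `0`: restriction `Gal(Ω/L) → Gal(Fbar/F)` is an isomorphism) -/
structure GPair (F L Ω : Type*) [Field F] [Field L] [Field Ω] [Algebra F L] [Algebra L Ω]
    [Algebra F Ω] [IsScalarTower F L Ω] : Prop where
  closed : ∀ x : L, IsAlgebraic F x → ∃ y : F, algebraMap F L y = x
  alg : ∀ x : Ω, IsAlgebraic L x
  gen : ∀ y : Ω, y ∈ IntermediateField.adjoin L {z : Ω | IsAlgebraic F z}

section cmp

variable {F Ω : Type*} (L : Type*) [Field F] [Field L] [Field Ω] [Algebra F L] [Algebra L Ω]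
  [Algebra F Ω] [IsScalarTower F L Ω]

/-- the compositum `L E` in `Ω` -/
noncomputable def cmp (E : IntermediateField F Ω) : IntermediateField L Ω :=
  IntermediateField.adjoin L (E : Set Ω)

omit [Algebra F L] [IsScalarTower F L Ω] in
theorem mem_cmp (E : IntermediateField F Ω) {x : Ω} (hx : x ∈ E) : x ∈ cmp L E :=
  IntermediateField.subset_adjoin L (E : Set Ω) hx

/-- the inclusion `E → L E` -/
noncomputable def cmpHom (E : IntermediateField F Ω) : E →+* cmp L E where
  toFun x := ⟨x, mem_cmp L E x.2⟩
  map_one' := rfl
  map_mul' _ _ := rfl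
  map_zero' := rfl
  map_add' _ _ := rfl

noncomputable instance cmpAlgebra (E : IntermediateField F Ω) : Algebra E (cmp L E) :=
  (cmpHom L E).toAlgebra

omit [Algebra F L] [IsScalarTower F L Ω] in
@[simp] theorem coe_algebraMap_cmp (E : IntermediateField F Ω) (x : E) :
    ((algebraMap E (cmp L E) x : cmp L E) : Ω) = (x : Ω) := rfl

instance cmpTower1 (E : IntermediateField F Ω) : IsScalarTower E (cmp L E) Ω :=
  IsScalarTower.of_algebraMap_eq (fun _ => rfl)

instance cmpTower2 (E : IntermediateField F Ω) : IsScalarTower F L (cmp L E) :=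
  IsScalarTower.of_algebraMap_eq (fun x => by
    apply Subtype.ext
    change algebraMap F Ω x = algebraMap L Ω (algebraMap F L x)
    exact IsScalarTower.algebraMap_apply F L Ω x)

instance cmpTower3 (E : IntermediateField F Ω) : IsScalarTower F E (cmp L E) :=
  IsScalarTower.of_algebraMap_eq (fun x => by
    apply Subtype.ext
    rfl)

instance cmpTower4 (E : IntermediateField F Ω) : IsScalarTower F (cmp L E) Ω :=
  IsScalarTower.of_algebraMap_eq (fun _ => rfl)

end cmp

/-- `H = A^* L^{*n}`: the elements of `L` which are a unit of `A` times a nonzero `n`-th power -/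
def uP {F : Type*} [Field F] (A : ValuationSubring F) (n : ℕ) (L : Type*) [Field L]
    [Algebra F L] : Set L :=
  {x | ∃ a : F, a ≠ 0 ∧ a ∈ A ∧ a⁻¹ ∈ A ∧ ∃ y : L, y ≠ 0 ∧ x = algebraMap F L a * y ^ n}

end Pool.Agent.Helper98.SA
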