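/-
SB block A, GT01: minimal polynomials over a good pair.

`h : GPair F L Ω`, `z : Ω` algebraic over `F`, characteristic 0, `Ω` algebraically closed.
(1) `minpoly_map`: `g := minpoly L z` divides `(minpoly F z).map (algebraMap F L)`, so all roots of `g`
    in `Ω` are roots of `minpoly F z`, so algebraic (integral) over `F`.  `g` splits over `Ω`
    (`IsAlgClosed.splits`), so all coefficients of `g.map (algebraMap L Ω)` are integral over `F`
    (Mathlib: for instance `Polynomial.isIntegral_coeff_of_...`, or `Multiset.prod`/`coeff` in the subalgebra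
    `integralClosure F Ω`; with the roots in the intermediate field `E = algebraicClosure F Ω` the
    polynomial `∏ (X - root)` has its coefficients in `E`).
    So each coefficient `c : L` of `g` is algebraic over `F` (`isAlgebraic_algebraMap_iff` with the
    injective map `L → Ω`), hence in the image of `F` by `h.closed`: `g = g₀.map (algebraMap F L)`,
    `g₀` monic over `F`, `g₀(z) = 0`, so `minpoly F z ∣ g₀` and degrees give
    `g₀ = minpoly F z` (`minpoly.unique`/`eq_of_monic_of_associated`, or natDegree comparison:
    `natDegree g ≤ natDegree (minpoly F z)` by divisibility and `≥` by minimality).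
(2) `finrank_adjoin_eq`: `IntermediateField.adjoin.finrank` for both (`z` integral over `F` and over `L`)
    and `natDegree_map`.
(3) `mem_of_algebraic`: if `y : L` and `algebraMap L Ω y` is algebraic over `F`, then `y` is in the
    image of `F`.
-/
import Mathlib
import Pool.Agent.Helper98.SA.GP

namespace Pool.Agent.Helper98.SA

variable {F L Ω : Type*} [Field F] [Field L] [Field Ω] [Algebra F L] [Algebra L Ω] [Algebra F Ω]
  [IsScalarTower F L Ω]

theorem minpoly_map [IsAlgClosed Ω] (h : GPair F L Ω) {z : Ω} (hz : IsAlgebraic F z) :
    minpoly L z = (minpoly F z).map (algebraMap F L) := by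
  have hzF : IsIntegral F z := hz.isIntegral
  have hzL : IsIntegral L z := hzF.tower_top
  have hdvd : minpoly L z ∣ (minpoly F z).map (algebraMap F L) :=
    minpoly.dvd_map_of_isScalarTower F L z
  have hc : ∀ i, IsIntegral F ((minpoly L z).coeff i) := fun i =>
    Polynomial.isIntegral_coeff_of_dvd (minpoly F z) (minpoly L z) (minpoly.monic hzF)
      (minpoly.monic hzL) hdvd i
  have hl : minpoly L z ∈ Polynomial.lifts (algebraMap F L) := by
    rw [Polynomial.lifts_iff_coeff_lifts]
    intro i
    obtain ⟨y, hy⟩ := h.closed _ (hc i).isAlgebraic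
    exact ⟨y, hy⟩
  obtain ⟨g, hg, hgd, hgm⟩ := Polynomial.lifts_and_natDegree_eq_and_monic hl (minpoly.monic hzL)
  have hgz : Polynomial.aeval z g = 0 := by
    have h1 : Polynomial.aeval z (g.map (algebraMap F L)) = 0 := by
      rw [hg]
      exact minpoly.aeval L z
    rwa [Polynomial.aeval_map_algebraMap] at h1
  have h1 : minpoly F z ∣ g := minpoly.dvd F z hgz
  have h2 : (minpoly F z).map (algebraMap F L) ∣ minpoly L z := by
    rw [← hg]
    exact Polynomial.map_dvd _ h1
  exact Polynomial.eq_of_monic_of_associated (minpoly.monic hzL)
    ((minpoly.monic hzF).map _) (associated_of_dvd_dvd hdvd h2)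

theorem finrank_adjoin_eq [IsAlgClosed Ω] (h : GPair F L Ω) {z : Ω} (hz : IsAlgebraic F z) :
    Module.finrank L (IntermediateField.adjoin L {z}) =
      Module.finrank F (IntermediateField.adjoin F {z}) := by
  rw [IntermediateField.adjoin.finrank hz.isIntegral,
    IntermediateField.adjoin.finrank (hz.isIntegral.tower_top (A := L)), minpoly_map h hz,
    Polynomial.natDegree_map]

theorem mem_of_algebraic (h : GPair F L Ω) (y : L) (hy : IsAlgebraic F (algebraMap L Ω y)) :
    ∃ x : F, algebraMap F L x = y := by
  refine h.closed y ?_
  exact (isAlgebraic_algebraMap_iff (FaithfulSMul.algebraMap_injective L Ω)).1 hy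

end Pool.Agent.Helper98.SA
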