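/-
SB block A, GT02: the compositum `cmp L E` of a finite Galois `E / F` is finite Galois over `L`, of the
same degree.

Characteristic 0.  `E = F(z)` for some `z : Ω` algebraic over `F` (primitive element theorem,
`Field.exists_primitive_element F E`; transport: `E = IntermediateField.adjoin F {(z : Ω)}`,
`IntermediateField.lift`/`adjoin_simple...`).
`cmp L E = IntermediateField.adjoin L {z}`: `⊇` clear; `⊆`: every `e ∈ E` is a polynomial in `z` over
`F`, so in `L(z)`.
Finite: `z` is integral over `L`.  Galois: `E` is the splitting field over `F` of the separable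
polynomial `f = minpoly F z` (E normal), its roots in `Ω` are all in `E ⊆ cmp L E` and
`cmp L E = L(z) = L(roots of f)`: splitting field of `f.map (algebraMap F L)` over `L`
(`IsGalois.of_separable_splitting_field`, or `normal_iff`...; separability is automatic in characteristic
0).  Alternatively: `cmp L E` is normal over `L` because the conjugates over `L` of elements of `E` are
conjugates over `F`, so in `E`.
Degree: `finrank_adjoin_eq` (GT01).
-/
import Mathlib
import Pool.Agent.Helper98.SA.GP
import Pool.Agent.Helper98.SA.GT01

namespace Pool.Agent.Helper98.SA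

variable {F L Ω : Type*} [Field F] [Field L] [Field Ω] [Algebra F L] [Algebra L Ω] [Algebra F Ω]
  [IsScalarTower F L Ω] [CharZero F] [IsAlgClosed Ω]

omit [Algebra F L] [Algebra L Ω] [IsScalarTower F L Ω] [IsAlgClosed Ω] in
private theorem gt_prim (E : IntermediateField F Ω) [FiniteDimensional F E] :
    ∃ z : Ω, IsIntegral F z ∧ z ∈ E ∧ IntermediateField.adjoin F {z} = E := by
  obtain ⟨α, hα⟩ := Field.exists_primitive_element F E
  refine ⟨(α : Ω), ?_, α.2, ?_⟩
  · exact (Algebra.IsIntegral.isIntegral (R := F) α).map E.val
  · have h1 := IntermediateField.lift_adjoin_simple F E α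
    rw [hα, IntermediateField.lift_top] at h1
    exact h1.symm

omit [CharZero F] [IsAlgClosed Ω] in
private theorem gt_cmp {E : IntermediateField F Ω} {z : Ω} (hz : z ∈ E)
    (h : IntermediateField.adjoin F {z} = E) : cmp L E = IntermediateField.adjoin L {z} := by
  apply le_antisymm
  · unfold cmp
    rw [IntermediateField.adjoin_le_iff]
    intro x hx
    have h1 : IntermediateField.adjoin F {z} ≤
        (IntermediateField.adjoin L {z}).restrictScalars F := by
      rw [IntermediateField.adjoin_le_iff]
      intro y hy
      exact IntermediateField.subset_adjoin L {z} hy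
    rw [h] at h1
    exact h1 hx
  · rw [IntermediateField.adjoin_le_iff]
    intro y hy
    have hy' : y = z := hy
    rw [hy']
    exact mem_cmp L E hz

theorem cmp_finite (E : IntermediateField F Ω) [FiniteDimensional F E] :
    FiniteDimensional L (cmp L E) := by
  obtain ⟨z, hz, hzE, h⟩ := gt_prim (F := F) E
  rw [gt_cmp hzE h]
  exact IntermediateField.adjoin.finiteDimensional (hz.tower_top (A := L))

theorem cmp_galois (E : IntermediateField F Ω) [FiniteDimensional F E] [IsGalois F E] :
    IsGalois L (cmp L E) := by
  obtain ⟨z, hz, hzE, h⟩ := gt_prim (F := F) E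
  have hL : CharZero L := charZero_of_injective_algebraMap (algebraMap F L).injective
  obtain ⟨p, hp⟩ : ∃ p : Polynomial L, p = (minpoly F z).map (algebraMap F L) := ⟨_, rfl⟩
  have hp0 : p ≠ 0 := by
    rw [hp]
    exact (Polynomial.map_ne_zero_iff (algebraMap F L).injective).2 (minpoly.ne_zero hz)
  -- the roots of the minimal polynomial are in E
  have hmin : minpoly F (⟨z, hzE⟩ : E) = minpoly F z :=
    (minpoly.algebraMap_eq (algebraMap E Ω).injective (⟨z, hzE⟩ : E)).symm
  have hspl : ((minpoly F z).map (algebraMap F E)).Splits := by
    rw [← hmin]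
    exact Normal.splits (IsGalois.to_normal) _
  have hroots : ∀ x ∈ (minpoly F z).rootSet Ω, x ∈ E :=
    (IntermediateField.splits_iff_mem (IsAlgClosed.splits _)).1 hspl
  have hset : p.rootSet Ω = (minpoly F z).rootSet Ω := by
    ext x
    rw [Polynomial.mem_rootSet_of_ne hp0, Polynomial.mem_rootSet_of_ne (minpoly.ne_zero hz), hp,
      Polynomial.aeval_map_algebraMap]
  have hcmp : cmp L E = IntermediateField.adjoin L (p.rootSet Ω) := by
    apply le_antisymm
    · rw [gt_cmp hzE h, IntermediateField.adjoin_le_iff]
      intro y hy
      have hy' : y = z := hy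
      rw [hy']
      apply IntermediateField.subset_adjoin
      rw [hset, Polynomial.mem_rootSet_of_ne (minpoly.ne_zero hz)]
      exact minpoly.aeval F z
    · rw [IntermediateField.adjoin_le_iff]
      intro y hy
      rw [hset] at hy
      exact mem_cmp L E (hroots y hy)
  rw [hcmp]
  have hs : p.IsSplittingField L (IntermediateField.adjoin L (p.rootSet Ω)) :=
    IntermediateField.adjoin_rootSet_isSplittingField (IsAlgClosed.splits _)
  have hn : Normal L (IntermediateField.adjoin L (p.rootSet Ω)) := Normal.of_isSplittingField p
  exact { }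

theorem cmp_finrank (h : GPair F L Ω) (E : IntermediateField F Ω) [FiniteDimensional F E] :
    Module.finrank L (cmp L E) = Module.finrank F E := by
  obtain ⟨z, hz, hzE, hE⟩ := gt_prim (F := F) E
  have h1 := finrank_adjoin_eq h hz.isAlgebraic
  rw [gt_cmp hzE hE, h1, hE]

end Pool.Agent.Helper98.SA
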