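/-
SB block A, GT03: restriction `Gal(LE / L) → Gal(E / F)` is bijective.

`E / F` finite Galois inside `Ω`, `M := cmp L E`.  For `g ∈ Gal(M/L)` and `x ∈ E`: `g x` is a root of
`minpoly F x`, so it lies in `E` (`E` normal over `F`).  This gives the restriction `r g : E ≃ₐ[F] E`
(for instance `AlgEquiv.restrictNormal` applied to `g.restrictScalars F` for the tower `F, E, M`:
`(AlgEquiv.restrictNormalHom E).comp (restrictScalars)`, with `AlgEquiv.restrictNormal_commutes`).
Injective: `M` is generated over `L` by `E`.  Both groups are finite with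
`card = finrank` (`IsGalois.card_aut_eq_finrank`), equal by `cmp_finrank`; so bijective.
`norm_cmp`, `trace_cmp`: `Algebra.norm_eq_prod_automorphisms`, `trace_eq_sum_automorphisms` and
re-indexing by the equivalence, compared in `M` (`algebraMap L M` injective).
-/
import Mathlib
import Pool.Agent.Helper98.SA.GP
import Pool.Agent.Helper98.SA.GT02

namespace Pool.Agent.Helper98.SA

variable {F L Ω : Type*} [Field F] [Field L] [Field Ω] [Algebra F L] [Algebra L Ω] [Algebra F Ω]
  [IsScalarTower F L Ω] [CharZero F] [IsAlgClosed Ω]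

/-- the restriction homomorphism -/
private noncomputable def gt03R (E : IntermediateField F Ω) [IsGalois F E] :
    (cmp L E ≃ₐ[L] cmp L E) →* (E ≃ₐ[F] E) :=
  (AlgEquiv.restrictNormalHom (K₁ := cmp L E) E).comp (AlgEquiv.restrictScalarsHom F)

omit [CharZero F] [IsAlgClosed Ω] in
private theorem gt03R_apply (E : IntermediateField F Ω) [IsGalois F E]
    (g : cmp L E ≃ₐ[L] cmp L E) (x : E) :
    algebraMap E (cmp L E) (gt03R E g x) = g (algebraMap E (cmp L E) x) :=
  AlgEquiv.restrictNormal_commutes (K₁ := cmp L E) (K₂ := cmp L E) (g.restrictScalars F) E x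

omit [CharZero F] [IsAlgClosed Ω] in
private theorem gt03R_inj (E : IntermediateField F Ω) [IsGalois F E] :
    Function.Injective (gt03R (L := L) E) := by
  rw [injective_iff_map_eq_one]
  intro g hg
  have h1 : ∀ x : E, g (algebraMap E (cmp L E) x) = algebraMap E (cmp L E) x := by
    intro x
    rw [← gt03R_apply, hg]
    rfl
  have h2 : (g : cmp L E →ₐ[L] cmp L E) = AlgHom.id L (cmp L E) := by
    refine IntermediateField.algHom_ext_of_eq_adjoin (s := (E : Set Ω)) L rfl ?_
    intro x hx
    exact h1 ⟨x, hx⟩
  apply AlgEquiv.ext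
  intro x
  exact congrArg (fun f : cmp L E →ₐ[L] cmp L E => f x) h2

theorem cmp_restr (h : GPair F L Ω) (E : IntermediateField F Ω) [FiniteDimensional F E]
    [IsGalois F E] : ∃ r : (cmp L E ≃ₐ[L] cmp L E) ≃* (E ≃ₐ[F] E),
      ∀ g x, algebraMap E (cmp L E) (r g x) = g (algebraMap E (cmp L E) x) := by
  have := cmp_finite (L := L) E
  have := cmp_galois (L := L) E
  have hb : Function.Bijective (gt03R (L := L) E) := by
    refine (Nat.bijective_iff_injective_and_card _).2 ⟨gt03R_inj E, ?_⟩
    rw [IsGalois.card_aut_eq_finrank, IsGalois.card_aut_eq_finrank, cmp_finrank h E]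
  exact ⟨MulEquiv.ofBijective (gt03R E) hb, fun g x => gt03R_apply E g x⟩

theorem norm_cmp (h : GPair F L Ω) (E : IntermediateField F Ω) [FiniteDimensional F E]
    [IsGalois F E] (x : E) :
    Algebra.norm L (algebraMap E (cmp L E) x) = algebraMap F L (Algebra.norm F x) := by
  have := cmp_finite (L := L) E
  have := cmp_galois (L := L) E
  obtain ⟨r, hr⟩ := cmp_restr h E
  apply (algebraMap L (cmp L E)).injective
  rw [Algebra.norm_eq_prod_automorphisms, ← IsScalarTower.algebraMap_apply F L (cmp L E),
    IsScalarTower.algebraMap_apply F E (cmp L E), Algebra.norm_eq_prod_automorphisms, map_prod]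
  exact Fintype.prod_equiv r.toEquiv _ _ fun g => (hr g x).symm

theorem trace_cmp (h : GPair F L Ω) (E : IntermediateField F Ω) [FiniteDimensional F E]
    [IsGalois F E] (x : E) :
    Algebra.trace L (cmp L E) (algebraMap E (cmp L E) x) =
      algebraMap F L (Algebra.trace F E x) := by
  have := cmp_finite (L := L) E
  have := cmp_galois (L := L) E
  obtain ⟨r, hr⟩ := cmp_restr h E
  apply (algebraMap L (cmp L E)).injective
  rw [trace_eq_sum_automorphisms, ← IsScalarTower.algebraMap_apply F L (cmp L E),
    IsScalarTower.algebraMap_apply F E (cmp L E), trace_eq_sum_automorphisms, map_sum]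
  exact Fintype.sum_equiv r.toEquiv _ _ fun g => (hr g x).symm

end Pool.Agent.Helper98.SA
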