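/-
SB block A, GT04: large finite Galois subextensions.

(1) `exists_galois`: a finite set `S` of elements of `Ω` algebraic over `F` lies in a finite Galois
    `E / F` inside `Ω`: `IntermediateField.adjoin F S` is finite dimensional
    (`IntermediateField.finiteDimensional_adjoin`), take its normal closure in `Ω`
    (`IntermediateField.normalClosure F _ Ω`, finite and normal as `Ω` is algebraically closed; char 0).
(2) `exists_cmp`: a finite set `S` of elements of `Ω` and a finite set `S'` of elements algebraic over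
    `F`: there is a finite Galois `E / F` with `S' ⊆ E`, `S ⊆ cmp L E`.  For one `y : Ω`: by `h.gen` and
    `IntermediateField.exists_finset_of_mem_adjoin` there is a finite set `S_y` of elements algebraic over
    `F` with `y ∈ adjoin L S_y`.  Take the union over `S`, and `S'`, and apply (1); monotonicity of
    `adjoin`.
(3) `exists_cmp_fd`: `N / L` finite dimensional, then `N ≤ cmp L E` for some finite Galois `E`: apply (2)
    to generators of `N` (`IntermediateField.fg_of_finiteDimensional`/`FiniteDimensional` basis).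
-/
import Mathlib
import Pool.Agent.Helper98.SA.GP

namespace Pool.Agent.Helper98.SA

variable {F L Ω : Type*} [Field F] [Field L] [Field Ω] [Algebra F L] [Algebra L Ω] [Algebra F Ω]
  [IsScalarTower F L Ω] [CharZero F] [IsAlgClosed Ω]

private theorem GT04_fg {K M : Type*} [Field K] [Field M] [Algebra K M] (N : IntermediateField K M)
    [FiniteDimensional K N] : ∃ t : Finset M, IntermediateField.adjoin K (t : Set M) = N :=
  IntermediateField.essFiniteType_iff.1 inferInstance

omit [IsScalarTower F L Ω] in
theorem exists_galois (S : Finset Ω) (hS : ∀ z ∈ S, IsAlgebraic F z) :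
    ∃ E : IntermediateField F Ω, FiniteDimensional F E ∧ IsGalois F E ∧ (S : Set Ω) ⊆ E := by
  classical
  obtain ⟨p, hp⟩ : ∃ p : Polynomial F, p = ∏ z ∈ S, minpoly F z := ⟨_, rfl⟩
  have hp0 : p ≠ 0 := by
    rw [hp]
    exact Finset.prod_ne_zero_iff.2 (fun z hz => minpoly.ne_zero (hS z hz).isIntegral)
  have hsplit : (p.map (algebraMap F Ω)).Splits := IsAlgClosed.splits _
  have hsf : p.IsSplittingField F (IntermediateField.adjoin F (p.rootSet Ω)) :=
    IntermediateField.adjoin_rootSet_isSplittingField hsplit
  have hfd : FiniteDimensional F (IntermediateField.adjoin F (p.rootSet Ω)) :=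
    Polynomial.IsSplittingField.finiteDimensional _ p
  have hnor : Normal F (IntermediateField.adjoin F (p.rootSet Ω)) :=
    Normal.of_isSplittingField p
  refine ⟨IntermediateField.adjoin F (p.rootSet Ω), hfd, ?_, ?_⟩
  · exact IsGalois.mk
  · intro z hz
    apply IntermediateField.subset_adjoin
    rw [Polynomial.mem_rootSet]
    refine ⟨hp0, ?_⟩
    rw [hp, map_prod]
    exact Finset.prod_eq_zero (Finset.mem_coe.1 hz) (minpoly.aeval F z)

theorem exists_cmp (h : GPair F L Ω) (S S' : Finset Ω) (hS : ∀ z ∈ S', IsAlgebraic F z) :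
    ∃ E : IntermediateField F Ω, FiniteDimensional F E ∧ IsGalois F E ∧ (S' : Set Ω) ⊆ E ∧
      (S : Set Ω) ⊆ cmp L E := by
  classical
  have h1 : ∀ y : Ω, ∃ t : Finset Ω, (t : Set Ω) ⊆ {z : Ω | IsAlgebraic F z} ∧
      y ∈ IntermediateField.adjoin L (t : Set Ω) := fun y =>
    IntermediateField.exists_finset_of_mem_adjoin (h.gen y)
  choose t ht1 ht2 using h1
  obtain ⟨E, hE1, hE2, hE3⟩ := exists_galois (F := F) (S' ∪ S.biUnion t) (by
    intro z hz
    rcases Finset.mem_union.1 hz with hz | hz
    · exact hS z hz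
    · obtain ⟨y, _, hy⟩ := Finset.mem_biUnion.1 hz
      exact ht1 y (Finset.mem_coe.2 hy))
  refine ⟨E, hE1, hE2, fun z hz => hE3 (Finset.mem_coe.2 (Finset.mem_union_left _ hz)), ?_⟩
  intro y hy
  have h2 : IntermediateField.adjoin L (t y : Set Ω) ≤ cmp L E := by
    apply IntermediateField.adjoin.mono
    intro z hz
    exact hE3 (Finset.mem_coe.2 (Finset.mem_union_right _
      (Finset.mem_biUnion.2 ⟨y, Finset.mem_coe.1 hy, Finset.mem_coe.1 hz⟩)))
  exact h2 (ht2 y)

theorem exists_cmp_fd (h : GPair F L Ω) (N : IntermediateField L Ω) [FiniteDimensional L N] :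
    ∃ E : IntermediateField F Ω, FiniteDimensional F E ∧ IsGalois F E ∧ N ≤ cmp L E := by
  obtain ⟨t, ht⟩ := GT04_fg N
  obtain ⟨E, hE1, hE2, _, hE4⟩ := exists_cmp h t ∅ (by simp)
  refine ⟨E, hE1, hE2, ?_⟩
  rw [← ht]
  exact IntermediateField.adjoin_le_iff.2 hE4

end Pool.Agent.Helper98.SA
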