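/-
SB block A, GT07: Kummer theory over a good pair: `L^* = F^* L^{*n}`.

`h : GPair F L Ω`, `x : L`, `x ≠ 0`, `n ≠ 0`.  Let `y₁ : Ω` with `y₁ ^ n = x` (IsAlgClosed), and `E / F`
finite Galois with `y₁ ∈ cmp L E =: M` and all `n`-th roots of unity of `Ω` in `E` (GT04.exists_cmp with
`S = {y₁}`, `S' = ` the finite set of `n`-th roots of unity).  For `g ∈ Gal(M/L)`:
`g y₁ / y₁` is an `n`-th root of unity, so in `E`.  Define `f : Gal(E/F) → Eˣ`,
`f τ := (r⁻¹ τ) y₁ / y₁` (`r` from `cmp_restr`).  It is a 1-cocycle: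
`f (τ τ') = τ (f τ') * f τ` because `g g' y₁ / y₁ = g (g' y₁ / y₁) * (g y₁ / y₁)` and `g` acts on `E` as `τ`.
Hilbert 90 (Mathlib: `groupCohomology.isMulCoboundary₁_of_isMulCocycle₁_of_aut_to_units`): there is
`e ∈ Eˣ` with `τ e / e = f τ` for all `τ`.  Put `y := y₁ / e ∈ M`: `g y = y` for all `g`, so `y ∈ L`
(`IsGalois M/L` by `cmp_galois`).  `x = y₁^n = e^n y^n`, so `e^n = x / y^n ∈ L` is algebraic over `F`
(`e ∈ E`), so it is the image of some `c ∈ F` (`mem_of_algebraic`, GT01).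
-/
import Mathlib
import Pool.Agent.Helper98.SA.GP
import Pool.Agent.Helper98.SA.GT03
import Pool.Agent.Helper98.SA.GT04

namespace Pool.Agent.Helper98.SA

variable {F L Ω : Type*} [Field F] [Field L] [Field Ω] [Algebra F L] [Algebra L Ω] [Algebra F Ω]
  [IsScalarTower F L Ω] [CharZero F] [IsAlgClosed Ω]

theorem kummer (h : GPair F L Ω) {n : ℕ} (hn : n ≠ 0) {x : L} (hx : x ≠ 0) :
    ∃ c : F, ∃ y : L, c ≠ 0 ∧ y ≠ 0 ∧ x = algebraMap F L c * y ^ n := by
  classical
  have hnpos : 0 < n := Nat.pos_of_ne_zero hn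
  obtain ⟨y1, hy1⟩ : ∃ y1 : Ω, y1 ^ n = algebraMap L Ω x := IsAlgClosed.exists_pow_nat_eq _ hnpos
  have hx' : algebraMap L Ω x ≠ 0 := fun h0 => hx ((algebraMap L Ω).injective (by rw [h0, map_zero]))
  have hy10 : y1 ≠ 0 := by
    rintro rfl
    rw [zero_pow hn] at hy1
    exact hx' hy1.symm
  have hS' : ∀ z ∈ Polynomial.nthRootsFinset n (1 : Ω), IsAlgebraic F z := by
    intro z hz
    have h1 : z ^ n = 1 := (Polynomial.mem_nthRootsFinset hnpos _).1 hz
    exact (IsIntegral.of_pow hnpos (by rw [h1]; exact isIntegral_one)).isAlgebraic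
  obtain ⟨E, hE1, hE2, hE3, hE4⟩ := exists_cmp h {y1} (Polynomial.nthRootsFinset n (1 : Ω)) hS'
  have := hE1
  have := hE2
  obtain ⟨r, hr⟩ := cmp_restr h E
  have : FiniteDimensional L (cmp L E) := cmp_finite E
  have : IsGalois L (cmp L E) := cmp_galois E
  obtain ⟨Y, hY⟩ : ∃ Y : cmp L E, (Y : Ω) = y1 := ⟨⟨y1, hE4 (by simp)⟩, rfl⟩
  have hYn : Y ^ n = algebraMap L (cmp L E) x := by
    apply Subtype.ext
    rw [SubmonoidClass.coe_pow, hY, hy1]
    rfl
  have hY0 : Y ≠ 0 := by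
    rintro rfl
    exact hy10 hY.symm
  have hroot : ∀ g : cmp L E ≃ₐ[L] cmp L E, ∃ e : E, e ≠ 0 ∧
      algebraMap E (cmp L E) e * Y = g Y := by
    intro g
    have h1 : (g Y / Y) ^ n = 1 := by
      rw [div_pow, ← map_pow, hYn, AlgEquiv.commutes, div_self]
      rw [← hYn]
      exact pow_ne_zero n hY0
    have h2 : ((g Y / Y : cmp L E) : Ω) ∈ E := by
      apply hE3
      rw [Finset.mem_coe, Polynomial.mem_nthRootsFinset hnpos, ← SubmonoidClass.coe_pow, h1]
      rfl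
    have h3 : algebraMap E (cmp L E) ⟨_, h2⟩ = g Y / Y := Subtype.ext rfl
    refine ⟨⟨_, h2⟩, ?_, ?_⟩
    · intro h4
      rw [h4, map_zero] at h3
      rw [← h3, zero_pow hn] at h1
      exact zero_ne_one h1
    · rw [h3, div_mul_cancel₀ _ hY0]
  choose e he0 he using hroot
  have hinj : Function.Injective (algebraMap E (cmp L E)) := (algebraMap E (cmp L E)).injective
  obtain ⟨f, hf'⟩ : ∃ f : (E ≃ₐ[F] E) → Eˣ, ∀ τ, (f τ : E) = e (r.symm τ) :=
    ⟨fun τ => Units.mk0 (e (r.symm τ)) (he0 _), fun τ => rfl⟩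
  have hf : groupCohomology.IsMulCocycle₁ f := by
    intro τ τ'
    apply Units.ext
    rw [Units.val_mul, AlgEquiv.smul_units_def, Units.coe_map, hf', hf', hf']
    apply hinj
    apply mul_right_cancel₀ hY0
    rw [he, map_mul (r.symm), AlgEquiv.mul_apply, ← he (r.symm τ'), map_mul, ← he (r.symm τ),
      ← hr, MulEquiv.apply_symm_apply, map_mul, mul_assoc]
    rfl
  obtain ⟨b, hb⟩ := groupCohomology.isMulCoboundary₁_of_isMulCocycle₁_of_aut_to_units f hf
  have hb' : ∀ τ : E ≃ₐ[F] E, τ (b : E) = e (r.symm τ) * b := by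
    intro τ
    have h1 := congrArg (fun u : Eˣ => (u : E)) (div_eq_iff_eq_mul.1 (hb τ))
    simp only [AlgEquiv.smul_units_def, Units.coe_map, Units.val_mul, hf'] at h1
    exact h1
  have hb0 : algebraMap E (cmp L E) (b : E) ≠ 0 := by
    intro h0
    exact b.ne_zero (hinj (by rw [h0, map_zero]))
  have hfix : ∀ g : cmp L E ≃ₐ[L] cmp L E, g (Y / algebraMap E (cmp L E) b) =
      Y / algebraMap E (cmp L E) b := by
    intro g
    have h1 : g (algebraMap E (cmp L E) b) = algebraMap E (cmp L E) (e g) * algebraMap E (cmp L E) b := by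
      rw [← hr, hb', MulEquiv.symm_apply_apply, map_mul]
    have h2 : algebraMap E (cmp L E) (e g) ≠ 0 := by
      intro h0
      exact he0 g (hinj (by rw [h0, map_zero]))
    rw [map_div₀, h1, ← he g, mul_div_mul_left _ _ h2]
  obtain ⟨y, hy⟩ : ∃ y : L, algebraMap L (cmp L E) y = Y / algebraMap E (cmp L E) b := by
    have h1 := (IsGalois.mem_bot_iff_fixed (F := L) (E := cmp L E) _).2 hfix
    exact IntermediateField.mem_bot.1 h1
  have hy0 : y ≠ 0 := by
    rintro rfl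
    rw [map_zero] at hy
    exact (div_ne_zero hY0 hb0) hy.symm
  have hbn : algebraMap E (cmp L E) (b : E) ^ n = algebraMap L (cmp L E) (x / y ^ n) := by
    rw [map_div₀, map_pow, hy, ← hYn, div_pow, div_div_eq_mul_div, mul_div_cancel_left₀]
    exact pow_ne_zero n hY0
  have halg : IsAlgebraic F (algebraMap L Ω (x / y ^ n)) := by
    have h1 : algebraMap L Ω (x / y ^ n) = ((b : E) : Ω) ^ n := by
      have h2 := congrArg (fun z : cmp L E => (z : Ω)) hbn
      exact h2.symm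
    rw [h1]
    have h3 : IsAlgebraic F ((b : E) : Ω) := by
      have h4 : IsAlgebraic F (b : E) := Algebra.IsAlgebraic.isAlgebraic _
      exact h4.algebraMap (A := Ω)
    exact h3.pow n
  obtain ⟨c, hc⟩ := mem_of_algebraic h _ halg
  refine ⟨c, y, ?_, hy0, ?_⟩
  · rintro rfl
    rw [map_zero] at hc
    exact (div_ne_zero hx (pow_ne_zero n hy0)) hc.symm
  · rw [hc, div_mul_cancel₀ _ (pow_ne_zero n hy0)]

end Pool.Agent.Helper98.SA
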