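/-
SB block A, HN2: the groups `T`, `H` of a compositum `M = cmp L E`, `E / F` finite Galois.

`A' := ext hA E` (the valuation ring of `E` over `A`), `T' = powSet n M`, `H' = uP A' n M`.
`r : Gal(M/L) ≃* Gal(E/F)` from `cmp_restr` (GT03).
(1) `powSet_gal`: clear (apply `g`, `g⁻¹`).
(2) `uP_gal`: `g (a y^n) = r(g)(a) (g y)^n` and `r(g) a` is a unit of `A'` (`ext_hom` applied to
    `r g : E ≃ₐ[F] E` and to `a`, `a⁻¹`).  For `←` use `g⁻¹` (`g.symm`).
(3) `div_unit`: `σ : E ≃ₐ[F] E`, `c ≠ 0`: `σ c / c` is a unit of `A'`: suppose `m := σ c / c` is not a unit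
    of `A'`; replacing `σ` by `σ⁻¹` (and `m` by `σ⁻¹(m⁻¹)`) we may assume that `m` is a nonunit of `A'`
    (`m ∈ A'`, not a unit); then all `σ^i m` are nonunits (`ext_nonunits_hom`), and for `k ≥ 1` the order of `σ`
    (the group is finite) `1 = σ^k c / c = ∏_{i<k} σ^i m` is a nonunit: contradiction.
    Or: `c = π^k u` (`exists_zpow`), `σ π / π` is a unit.
(4) `gal_div`: `x ∈ M`, `x ≠ 0`: by `kummer` (GT07) for `gpair_cmp` (GT05) `x = c y^n`, `c ∈ E`; so
    `g x * x⁻¹ = (r(g) c / c) (g y / y)^n ∈ H'`, by (3).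
(5) `powSet_comap`: `x ∈ L`, `[M:L] = [E:F] = m` prime to `n` (`cmp_finrank`).  `x = y^n` in `M` gives
    `x^m = N(y)^n`, so `x ∈ powSet n L` (`pow_mem_powSet`, CO3a).  Conversely clear.
(6) `uP_comap`: `x = a y^n` in `M`, `a` a unit of `A'`: `x^m = N_{M/L}(a) N(y)^n` and
    `N_{M/L}(a) = N_{E/F}(a)` (`norm_cmp`, GT03) is a unit of `A` (`norm_mem` for `a`, `a⁻¹`), so `x^m ∈ H` and
    `x ∈ H` (`pow_mem_uP`, CO3a).  Conversely: `ext_map`.
-/
import Mathlib
import Pool.Agent.Helper98.SA.GT05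
import Pool.Agent.Helper98.SA.GT07
import Pool.Agent.Helper98.SA.CO3a
import Pool.Agent.Helper60.SL.ExtHDVR

open Pool.Agent.Helper60.SL IsLocalRing

namespace Pool.Agent.Helper98.SA

variable {F L Ω : Type*} [Field F] [Field L] [Field Ω] [Algebra F L] [Algebra L Ω] [Algebra F Ω]
  [IsScalarTower F L Ω] [CharZero F] [IsAlgClosed Ω]

theorem powSet_gal {K : Type*} [Field K] (g : K ≃+* K) {n : ℕ} (x : K) :
    g x ∈ powSet n K ↔ x ∈ powSet n K := by
  constructor
  · rintro ⟨y, hy, h⟩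
    refine ⟨g.symm y, ?_, ?_⟩
    · intro h0
      apply hy
      rw [← g.apply_symm_apply y, h0, map_zero]
    · rw [← map_pow, ← h, g.symm_apply_apply]
  · rintro ⟨y, hy, rfl⟩
    refine ⟨g y, ?_, map_pow g y n⟩
    intro h0
    apply hy
    rw [← g.symm_apply_apply y, h0, map_zero]

private theorem hn2_prod {E : Type*} [Field E] [Algebra F E] (σ : E ≃ₐ[F] E) {c : E} (hc : c ≠ 0)
    (k : ℕ) : ∏ i ∈ Finset.range k, (σ ^ i) (σ c / c) = (σ ^ k) c / c := by
  induction k with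
  | zero =>
    rw [Finset.range_zero, Finset.prod_empty, pow_zero, AlgEquiv.one_apply, div_self hc]
  | succ k ih =>
    rw [Finset.prod_range_succ, ih, map_div₀, pow_succ, AlgEquiv.mul_apply]
    have h1 : (σ ^ k) c ≠ 0 := (map_ne_zero_iff _ (σ ^ k).injective).2 hc
    field_simp

private theorem hn2_half {E : Type*} [Field E] [Algebra F E] [FiniteDimensional F E]
    {A : ValuationSubring F} (hA : HDVR A) (σ : E ≃ₐ[F] E) {c : E} (hc : c ≠ 0)
    (hm : σ c / c ∈ ext hA E) : (σ c / c)⁻¹ ∈ ext hA E := by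
  obtain ⟨k, hk⟩ : ∃ k, orderOf σ = k + 1 := ⟨orderOf σ - 1, by
    have := orderOf_pos σ
    omega⟩
  have h1 := hn2_prod σ hc (k + 1)
  rw [← hk, pow_orderOf_eq_one, AlgEquiv.one_apply, div_self hc, hk, Finset.prod_range_succ',
    pow_zero, AlgEquiv.one_apply] at h1
  rw [← eq_inv_of_mul_eq_one_left h1]
  exact prod_mem fun i _ => (ext_hom hA ((σ ^ (i + 1) : E ≃ₐ[F] E) : E →ₐ[F] E) _).2 hm

theorem div_unit {E : Type*} [Field E] [Algebra F E] [FiniteDimensional F E]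
    {A : ValuationSubring F} (hA : HDVR A) (σ : E ≃ₐ[F] E) {c : E} (hc : c ≠ 0) :
    IsUn (ext hA E) (σ c / c) := by
  have h0 : σ c ≠ 0 := (map_ne_zero_iff _ σ.injective).2 hc
  rw [isUn_iff]
  rcases (ext hA E).mem_or_inv_mem (σ c / c) with h | h
  · exact ⟨div_ne_zero h0 hc, h, hn2_half hA σ hc h⟩
  · refine ⟨div_ne_zero h0 hc, ?_, h⟩
    have e1 : (σ c / c)⁻¹ = σ⁻¹ (σ c) / σ c := by
      have e2 : σ⁻¹ (σ c) = c := σ.symm_apply_apply c
      rw [e2, inv_div]
    rw [e1] at h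
    have h1 := hn2_half hA σ⁻¹ h0 h
    rwa [← e1, inv_inv] at h1

private theorem hn2_uP (h : GPair F L Ω) {A : ValuationSubring F} (hA : HDVR A) {n : ℕ}
    (E : IntermediateField F Ω) [FiniteDimensional F E] [IsGalois F E]
    (g : cmp L E ≃ₐ[L] cmp L E) (x : cmp L E) (hx : x ∈ uP (ext hA E) n (cmp L E)) :
    g x ∈ uP (ext hA E) n (cmp L E) := by
  obtain ⟨r, hr⟩ := cmp_restr h E
  obtain ⟨a, ha0, ha1, ha2, y, hy, rfl⟩ := hx
  refine ⟨r g a, ?_, ?_, ?_, g y, ?_, ?_⟩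
  · exact (map_ne_zero_iff _ (r g).injective).2 ha0
  · exact (ext_hom hA ((r g : E ≃ₐ[F] E) : E →ₐ[F] E) a).2 ha1
  · rw [← map_inv₀]
    exact (ext_hom hA ((r g : E ≃ₐ[F] E) : E →ₐ[F] E) a⁻¹).2 ha2
  · exact (map_ne_zero_iff _ g.injective).2 hy
  · rw [map_mul, map_pow, hr]

theorem uP_gal (h : GPair F L Ω) {A : ValuationSubring F} (hA : HDVR A) {n : ℕ}
    (E : IntermediateField F Ω) [FiniteDimensional F E] [IsGalois F E]
    (g : cmp L E ≃ₐ[L] cmp L E) (x : cmp L E) :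
    g x ∈ uP (ext hA E) n (cmp L E) ↔ x ∈ uP (ext hA E) n (cmp L E) := by
  constructor
  · intro hx
    have h1 := hn2_uP h hA E g.symm (g x) hx
    rwa [g.symm_apply_apply] at h1
  · exact hn2_uP h hA E g x

theorem gal_div (h : GPair F L Ω) {A : ValuationSubring F} (hA : HDVR A) {n : ℕ} (hn : n ≠ 0)
    (E : IntermediateField F Ω) [FiniteDimensional F E] [IsGalois F E]
    (g : cmp L E ≃ₐ[L] cmp L E) {x : cmp L E} (hx : x ≠ 0) :
    g x * x⁻¹ ∈ uP (ext hA E) n (cmp L E) := by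
  have hchar : CharZero E := charZero_of_injective_algebraMap (algebraMap F E).injective
  obtain ⟨r, hr⟩ := cmp_restr h E
  obtain ⟨c, y, hc, hy, hxy⟩ := kummer (gpair_cmp h E) hn hx
  have h1 := isUn_iff.1 (div_unit hA (r g) hc)
  have hy' : g y ≠ 0 := (map_ne_zero_iff _ g.injective).2 hy
  have hc' : algebraMap E (cmp L E) c ≠ 0 :=
    (map_ne_zero_iff _ (algebraMap E (cmp L E)).injective).2 hc
  refine ⟨r g c / c, h1.1, h1.2.1, h1.2.2, g y / y, div_ne_zero hy' hy, ?_⟩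
  rw [hxy, map_mul, map_pow, map_div₀, hr, div_pow]
  field_simp

theorem powSet_comap (h : GPair F L Ω) {n : ℕ} (E : IntermediateField F Ω)
    [FiniteDimensional F E] [IsGalois F E] (hc : Nat.Coprime (Module.finrank F E) n) (x : L) :
    algebraMap L (cmp L E) x ∈ powSet n (cmp L E) ↔ x ∈ powSet n L := by
  have hfd : FiniteDimensional L (cmp L E) := cmp_finite E
  constructor
  · rintro ⟨y, hy, hxy⟩
    have hx : x ≠ 0 := by
      rintro rfl
      rw [map_zero] at hxy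
      exact pow_ne_zero n hy hxy.symm
    refine pow_mem_powSet hc hx ⟨Algebra.norm L y, Algebra.norm_ne_zero_iff.2 hy, ?_⟩
    rw [← map_pow, ← hxy, Algebra.norm_algebraMap, cmp_finrank h E]
  · rintro ⟨y, hy, rfl⟩
    refine ⟨algebraMap L (cmp L E) y, ?_, map_pow _ _ _⟩
    exact (map_ne_zero_iff _ (algebraMap L (cmp L E)).injective).2 hy

theorem uP_comap (h : GPair F L Ω) {A : ValuationSubring F} (hA : HDVR A) {n : ℕ}
    (E : IntermediateField F Ω) [FiniteDimensional F E] [IsGalois F E]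
    (hc : Nat.Coprime (Module.finrank F E) n) (x : L) :
    algebraMap L (cmp L E) x ∈ uP (ext hA E) n (cmp L E) ↔ x ∈ uP A n L := by
  have hfd : FiniteDimensional L (cmp L E) := cmp_finite E
  constructor
  · rintro ⟨a, ha0, ha1, ha2, y, hy, hxy⟩
    have ha' : algebraMap E (cmp L E) a ≠ 0 :=
      (map_ne_zero_iff _ (algebraMap E (cmp L E)).injective).2 ha0
    have hx : x ≠ 0 := by
      rintro rfl
      rw [map_zero] at hxy
      exact mul_ne_zero ha' (pow_ne_zero n hy) hxy.symm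
    refine pow_mem_uP A hc (x := x) ⟨Algebra.norm F a, Algebra.norm_ne_zero_iff.2 ha0,
      norm_mem hA ha1, ?_, Algebra.norm L y, Algebra.norm_ne_zero_iff.2 hy, ?_⟩ hx
    · have h3 : Algebra.norm F a⁻¹ * Algebra.norm F a = 1 := by
        rw [← map_mul, inv_mul_cancel₀ ha0, map_one]
      rw [← eq_inv_of_mul_eq_one_left h3]
      exact norm_mem hA ha2
    · rw [← norm_cmp h E, ← map_pow, ← map_mul, ← hxy, Algebra.norm_algebraMap, cmp_finrank h E]
  · rintro ⟨a, ha0, ha1, ha2, y, hy, rfl⟩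
    refine ⟨algebraMap F E a, (map_ne_zero_iff _ (algebraMap F E).injective).2 ha0,
      (ext_map hA a).2 ha1, ?_, algebraMap L (cmp L E) y,
      (map_ne_zero_iff _ (algebraMap L (cmp L E)).injective).2 hy, ?_⟩
    · rw [← map_inv₀]
      exact (ext_map hA a⁻¹).2 ha2
    · rw [map_mul, map_pow, ← IsScalarTower.algebraMap_apply F L (cmp L E),
        ← IsScalarTower.algebraMap_apply F E (cmp L E)]

end Pool.Agent.Helper98.SA
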