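/-
SB block A, HL: Hensel's lemma from a Galois invariant extension of the valuation ring.
Mathlib only.

`N/L` finite Galois, `O` valuation subring of `L`, `O'` valuation subring of `N` over `O`, stable under
`Gal(N/L)`.  `f` monic with coefficients in `O`, splitting over `N`; `a ∈ O`, `f(a) ∈ m`,
`f'(a) ∉ m`.  Then `f` has a root `x ∈ L` with `x - a ∈ m`.

Proof.  `O'.valuation (i x) < 1 ↔ O.valuation x < 1`, `= 1 ↔ = 1`, `≤ 1 ↔ ≤ 1` (from `hc` applied to
`x` and `x⁻¹`).  Over `N`: `f = ∏_{α ∈ R} (X - α)`, `R` = multiset of roots in `N`.  Each `α ∈ O'`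
(integral over `O'`, valuation rings are integrally closed).  `b := i a ∈ O'`.
`f(b) = ∏ (b - α)` has valuation `< 1`, all factors have valuation `≤ 1`, so some `α ∈ R` has
`v'(b - α) < 1`.  Write `R = α ::ₘ R'`; `f = (X - α) * F`, `F = ∏_{R'} (X - β)`, so
`f'(b) = F(b) + (b - α) F'(b)`; `v'(F'(b)) ≤ 1` (coefficients in `O'`), so
`v'(F(b)) = 1`, so `v'(b - β) = 1` for all `β ∈ R'`.  So `α` is the ONLY root with `v'(b - α) < 1`.
For `g ∈ Gal(N/L)`: `g α` is a root of `f` and `b - g α = g (b - α)` has `v' < 1` (`g` and `g⁻¹`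
preserve `O'`, so they preserve `v' < 1`), so `g α = α`.  So `α = i x`, `x ∈ L`
(IsGalois.mem_bot_iff_fixed / `InfiniteGalois`), `f(x) = 0`, `v(x - a) < 1`.
-/
import Mathlib

namespace Pool.Agent.Helper98.SA

section aux

variable {N : Type*} [Field N] (O' : ValuationSubring N)

private theorem HL_lt_one_iff {K : Type*} [Field K] (O : ValuationSubring K) (x : K) :
    O.valuation x < 1 ↔ x = 0 ∨ x⁻¹ ∉ O := by
  rcases eq_or_ne x 0 with rfl | hx
  · simp
  · have hv : O.valuation x ≠ 0 := (Valuation.ne_zero_iff _).2 hx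
    rw [← ValuationSubring.valuation_le_one_iff, map_inv₀, not_le]
    constructor
    · intro h
      exact Or.inr ((one_lt_inv₀ (zero_lt_iff.2 hv)).2 h)
    · rintro (h | h)
      · exact absurd h hx
      · exact (one_lt_inv₀ (zero_lt_iff.2 hv)).1 h

private theorem HL_root_mem {f : Polynomial N} (hf : f.Monic) (hfO : ∀ i, f.coeff i ∈ O')
    {α : N} (hα : f.eval α = 0) : O'.valuation α ≤ 1 := by
  by_contra hcon
  rw [not_le] at hcon
  have h1 : f.eval α = (∑ i ∈ Finset.range f.natDegree, f.coeff i * α ^ i) + α ^ f.natDegree := by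
    rw [Polynomial.eval_eq_sum_range, Finset.sum_range_succ]
    congr 1
    rw [show f.coeff f.natDegree = 1 from hf, one_mul]
  rw [h1, add_eq_zero_iff_eq_neg] at hα
  have h2 : O'.valuation (∑ i ∈ Finset.range f.natDegree, f.coeff i * α ^ i) <
      O'.valuation α ^ f.natDegree := by
    apply Valuation.map_sum_lt
    · exact pow_ne_zero _ (ne_of_gt (lt_trans zero_lt_one hcon))
    · intro i hi
      rw [map_mul, map_pow]
      calc O'.valuation (f.coeff i) * O'.valuation α ^ i ≤ 1 * O'.valuation α ^ i := by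
            gcongr
            exact (ValuationSubring.valuation_le_one_iff _ _).2 (hfO i)
        _ = O'.valuation α ^ i := one_mul _
        _ < O'.valuation α ^ f.natDegree := pow_lt_pow_right₀ hcon (Finset.mem_range.1 hi)
  rw [hα, Valuation.map_neg, map_pow] at h2
  exact lt_irrefl _ h2

private theorem HL_prod_le (b : N) (R : Multiset N) (hR : ∀ β ∈ R, O'.valuation (b - β) ≤ 1) :
    O'.valuation ((R.map fun β => Polynomial.X - Polynomial.C β).prod.eval b) ≤ 1 ∧
      O'.valuation ((R.map fun β => Polynomial.X - Polynomial.C β).prod.derivative.eval b) ≤ 1 := by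
  induction R using Multiset.induction_on with
  | empty => simp
  | cons β R ih =>
    obtain ⟨h1, h2⟩ := ih fun γ hγ => hR γ (Multiset.mem_cons_of_mem hγ)
    have h3 := hR β (Multiset.mem_cons_self _ _)
    rw [Multiset.map_cons, Multiset.prod_cons]
    constructor
    · rw [Polynomial.eval_mul, map_mul, Polynomial.eval_sub, Polynomial.eval_X,
        Polynomial.eval_C]
      exact mul_le_one' h3 h1
    · rw [Polynomial.derivative_mul, Polynomial.eval_add, Polynomial.eval_mul,
        Polynomial.eval_mul]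
      simp only [Polynomial.derivative_sub, Polynomial.derivative_X, Polynomial.derivative_C,
        sub_zero, Polynomial.eval_one, one_mul, Polynomial.eval_sub, Polynomial.eval_X,
        Polynomial.eval_C]
      refine (Valuation.map_add _ _ _).trans (max_le h1 ?_)
      rw [map_mul]
      exact mul_le_one' h3 h2

private theorem HL_eval_lt (b : N) (R : Multiset N) (hR : ∀ β ∈ R, O'.valuation (b - β) ≤ 1)
    {β : N} (hβ : β ∈ R) (h : O'.valuation (b - β) < 1) :
    O'.valuation ((R.map fun β => Polynomial.X - Polynomial.C β).prod.eval b) < 1 := by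
  obtain ⟨R', rfl⟩ := Multiset.exists_cons_of_mem hβ
  have h1 := (HL_prod_le O' b R' fun γ hγ => hR γ (Multiset.mem_cons_of_mem hγ)).1
  rw [Multiset.map_cons, Multiset.prod_cons, Polynomial.eval_mul, map_mul, Polynomial.eval_sub,
    Polynomial.eval_X, Polynomial.eval_C]
  exact mul_lt_one_of_lt_of_le h h1

private theorem HL_exists (b : N) (R : Multiset N)
    (h : O'.valuation ((R.map fun β => Polynomial.X - Polynomial.C β).prod.eval b) < 1) :
    ∃ β ∈ R, O'.valuation (b - β) < 1 := by
  induction R using Multiset.induction_on with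
  | empty => simp at h
  | cons β R ih =>
    rw [Multiset.map_cons, Multiset.prod_cons, Polynomial.eval_mul, map_mul,
      Polynomial.eval_sub, Polynomial.eval_X, Polynomial.eval_C] at h
    by_cases h1 : O'.valuation (b - β) < 1
    · exact ⟨β, Multiset.mem_cons_self _ _, h1⟩
    · obtain ⟨γ, hγ, h2⟩ := ih (by
        by_contra h3
        rw [not_lt] at h1 h3
        exact absurd h (not_lt.2 (one_le_mul h1 h3)))
      exact ⟨γ, Multiset.mem_cons_of_mem hγ, h2⟩

end aux

theorem hensel_of_inv {L N : Type*} [Field L] [Field N] [Algebra L N] [FiniteDimensional L N]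
    [IsGalois L N] (O : ValuationSubring L) (O' : ValuationSubring N)
    (hc : ∀ x : L, algebraMap L N x ∈ O' ↔ x ∈ O) (hg : ∀ g : N ≃ₐ[L] N, ∀ x ∈ O', g x ∈ O')
    (f : Polynomial L) (hf : f.Monic) (hfO : ∀ i, f.coeff i ∈ O)
    (hs : (f.map (algebraMap L N)).Splits) (a : L) (ha : a ∈ O)
    (h0 : O.valuation (f.eval a) < 1) (h1 : O.valuation (f.derivative.eval a) = 1) :
    ∃ x : L, f.eval x = 0 ∧ O.valuation (x - a) < 1 := by
  set ι := algebraMap L N with hι
  have hlt : ∀ x : L, O'.valuation (ι x) < 1 ↔ O.valuation x < 1 := by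
    intro x
    rw [HL_lt_one_iff, HL_lt_one_iff, ← map_inv₀, hc, map_eq_zero]
  have hglt : ∀ (g : N ≃ₐ[L] N) (x : N), O'.valuation x < 1 → O'.valuation (g x) < 1 := by
    intro g x hx
    rw [HL_lt_one_iff] at hx ⊢
    rcases hx with rfl | hx
    · left; exact map_zero g
    · right
      intro h
      apply hx
      have := hg g.symm _ h
      rwa [← map_inv₀, AlgEquiv.symm_apply_apply] at this
  set F := f.map ι with hF
  have hFm : F.Monic := hf.map ι
  have hprod := hs.eq_prod_roots_of_monic hFm
  have hFO : ∀ i, F.coeff i ∈ O' := by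
    intro i
    rw [hF, Polynomial.coeff_map]
    exact (hc _).2 (hfO i)
  have hroot : ∀ α ∈ F.roots, O'.valuation (ι a - α) ≤ 1 := by
    intro α hα
    have h2 := HL_root_mem O' hFm hFO (Polynomial.isRoot_of_mem_roots hα)
    refine (Valuation.map_sub _ _ _).trans (max_le ?_ h2)
    rw [ValuationSubring.valuation_le_one_iff]
    exact (hc a).2 ha
  have hev : F.eval (ι a) = ι (f.eval a) := by
    rw [hF, Polynomial.eval_map, Polynomial.eval₂_hom]
  have hdev : F.derivative.eval (ι a) = ι (f.derivative.eval a) := by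
    rw [hF, Polynomial.derivative_map, Polynomial.eval_map, Polynomial.eval₂_hom]
  have h0' : O'.valuation (F.eval (ι a)) < 1 := by rw [hev, hlt]; exact h0
  have h1' : ¬ O'.valuation (F.derivative.eval (ι a)) < 1 := by
    rw [hdev, hlt, h1]
    exact lt_irrefl _
  obtain ⟨α, hα, hαb⟩ := HL_exists O' (ι a) F.roots (by rw [← hprod]; exact h0')
  -- uniqueness
  have huniq : ∀ γ ∈ F.roots, O'.valuation (ι a - γ) < 1 → γ = α := by
    intro γ hγ hγb
    by_contra hne
    obtain ⟨R', hR'⟩ := Multiset.exists_cons_of_mem hα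
    have hγ' : γ ∈ R' := by
      rw [hR', Multiset.mem_cons] at hγ
      exact hγ.resolve_left hne
    have hle : ∀ β ∈ R', O'.valuation (ι a - β) ≤ 1 := fun β hβ =>
      hroot β (by rw [hR']; exact Multiset.mem_cons_of_mem hβ)
    apply h1'
    rw [hprod, hR', Multiset.map_cons, Multiset.prod_cons, Polynomial.derivative_mul,
      Polynomial.eval_add, Polynomial.eval_mul, Polynomial.eval_mul]
    simp only [Polynomial.derivative_sub, Polynomial.derivative_X, Polynomial.derivative_C,
      sub_zero, Polynomial.eval_one, one_mul, Polynomial.eval_sub, Polynomial.eval_X,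
      Polynomial.eval_C]
    refine Valuation.map_add_lt _ (HL_eval_lt O' (ι a) R' hle hγ' hγb) ?_
    rw [map_mul]
    exact mul_lt_one_of_lt_of_le hαb (HL_prod_le O' (ι a) R' hle).2
  have hfix : ∀ g : N ≃ₐ[L] N, g α = α := by
    intro g
    apply huniq
    · have h2 : F.eval α = 0 := Polynomial.isRoot_of_mem_roots hα
      rw [hF, hι, Polynomial.eval_map_algebraMap] at h2
      rw [Polynomial.mem_roots hFm.ne_zero, Polynomial.IsRoot.def, hF, hι,
        Polynomial.eval_map_algebraMap]
      have h3 : Polynomial.aeval (g α) f = g (Polynomial.aeval α f) :=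
        Polynomial.aeval_algHom_apply g.toAlgHom α f
      rw [h3, h2, map_zero]
    · have := hglt g _ hαb
      rwa [map_sub, AlgEquiv.commutes] at this
  obtain ⟨x, hx⟩ := (IsGalois.mem_range_algebraMap_iff_fixed α).2 hfix
  refine ⟨x, ?_, ?_⟩
  · have h2 : F.eval α = 0 := Polynomial.isRoot_of_mem_roots hα
    rw [← hx, ← hι, hF, Polynomial.eval_map, Polynomial.eval₂_hom, map_eq_zero] at h2
    exact h2
  · rw [← hlt, map_sub, ← neg_sub, Valuation.map_neg, hι, hx]
    exact hαb

end Pool.Agent.Helper98.SA
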