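/-
SB block A, CO1a: kernel of `K^*/l → K'^*/l` for a Kummer extension `K' = K(γ)`, `γ^l = c`.

Kernel: `x = y^l`, `x ∈ K^*`, `y ∈ K'`.  `K' = K(γ)` (degree `l` prime, `γ ∉ K` since `c` is not an
`l`-th power in `K`), the group `Gal(K'/K)` has prime order `l`, let `σ` be a generator; `σ γ / γ` is an
`l`-th root of unity, `≠ 1` (otherwise `γ ∈ K`), so a primitive one (`l` prime);
`σ y / y` is an `l`-th root of unity, so `= (σ γ/γ)^i` (`IsPrimitiveRoot.eq_pow_of_pow_eq_one`; the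
roots of unity are in `K` by `hζ`, so fixed by `σ`); then `y / γ^i` is fixed by `σ`, so by the whole group,
so it is in `K`, `= t`, and `x = y^l = c^i t^l`.
-/
import Mathlib

namespace Pool.Agent.Helper98.SA

variable {K K' : Type*} [Field K] [Field K'] [Algebra K K'] [FiniteDimensional K K']
  [IsGalois K K']

/-- the kernel of `K^*/l → K'^*/l` -/
theorem kernel_res {l : ℕ} (hl : l.Prime) {ζ : K} (hζ : IsPrimitiveRoot ζ l)
    {c : K} (hc : ¬ ∃ y, y ^ l = c) (hd : Module.finrank K K' = l) {γ : K'}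
    (hγ : γ ^ l = algebraMap K K' c) {x : K} {y : K'} (hx : x ≠ 0)
    (hxy : algebraMap K K' x = y ^ l) : ∃ (i : ℕ) (t : K), t ≠ 0 ∧ x = c ^ i * t ^ l := by
  have : Fact l.Prime := ⟨hl⟩
  have hl0 : l ≠ 0 := hl.ne_zero
  have hc0 : c ≠ 0 := by
    rintro rfl
    exact hc ⟨0, zero_pow hl0⟩
  have hinj : Function.Injective (algebraMap K K') := (algebraMap K K').injective
  have hγ0 : γ ≠ 0 := by
    rintro rfl
    rw [zero_pow hl0] at hγ
    exact hc0 (hinj (by rw [← hγ, map_zero]))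
  have hy0 : y ≠ 0 := by
    rintro rfl
    rw [zero_pow hl0] at hxy
    exact hx (hinj (by rw [hxy, map_zero]))
  -- an automorphism moving `γ`
  obtain ⟨σ, hσ⟩ : ∃ σ : K' ≃ₐ[K] K', σ γ ≠ γ := by
    by_contra hne
    push Not at hne
    obtain ⟨g, hg⟩ := (IsGalois.mem_range_algebraMap_iff_fixed (F := K) (E := K') γ).2 hne
    refine hc ⟨g, hinj ?_⟩
    rw [map_pow, hg, hγ]
  have hpow : ∀ w : K', ∀ a : K, a ≠ 0 → w ^ l = algebraMap K K' a → (σ w / w) ^ l = 1 := by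
    intro w a ha hw
    rw [div_pow, ← map_pow, hw, AlgEquiv.commutes, div_self]
    rw [Ne, map_eq_zero]
    exact ha
  have hρ1 : σ γ / γ ≠ 1 := by
    rw [Ne, div_eq_one_iff_eq hγ0]
    exact hσ
  have hρ : IsPrimitiveRoot (σ γ / γ) l := by
    have h1 := IsPrimitiveRoot.orderOf (σ γ / γ)
    rwa [orderOf_eq_prime (hpow γ c hc0 hγ) hρ1] at h1
  have : NeZero l := ⟨hl0⟩
  obtain ⟨i, -, hi⟩ := hρ.eq_pow_of_pow_eq_one (hpow y x hx hxy.symm)
  have hfix : σ (y / γ ^ i) = y / γ ^ i := by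
    have h1 : σ y = (σ γ / γ) ^ i * y := by
      rw [hi, div_mul_cancel₀ _ hy0]
    rw [map_div₀, map_pow, h1, div_pow]
    have h2 : σ γ ≠ 0 := by
      rw [Ne, map_eq_zero]
      exact hγ0
    field_simp
  have hσ1 : σ ≠ 1 := by
    rintro rfl
    exact hσ rfl
  have hcard : Nat.card (K' ≃ₐ[K] K') = l := by
    rw [IsGalois.card_aut_eq_finrank, hd]
  have htop := zpowers_eq_top_of_prime_card hcard hσ1
  have hall : ∀ g : K' ≃ₐ[K] K', g (y / γ ^ i) = y / γ ^ i := by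
    intro g
    have h1 : Subgroup.zpowers σ ≤ MulAction.stabilizer (K' ≃ₐ[K] K') (y / γ ^ i) := by
      rw [Subgroup.zpowers_le, MulAction.mem_stabilizer_iff]
      exact hfix
    rw [htop] at h1
    exact h1 (Subgroup.mem_top g)
  obtain ⟨t, ht⟩ := (IsGalois.mem_range_algebraMap_iff_fixed (F := K) (E := K') (y / γ ^ i)).2 hall
  have hγi : γ ^ i ≠ 0 := pow_ne_zero _ hγ0
  refine ⟨i, t, ?_, hinj ?_⟩
  · rintro rfl
    rw [map_zero] at ht
    exact div_ne_zero hy0 hγi ht.symm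
  · rw [hxy, map_mul, map_pow, map_pow, ht, ← hγ, div_pow, ← pow_mul, ← pow_mul, mul_comm l i,
      mul_div_cancel₀]
    exact pow_ne_zero _ hγ0

end Pool.Agent.Helper98.SA
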