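/-
SB block A, CO1b: norms of `γ` and `1 + γ` in a Kummer extension `K' = K(γ)`, `γ^l = c`, `l` odd prime.

The minimal polynomial of `γ` over `K` is `X^l - C c` (irreducible:
`X_pow_sub_C_irreducible_of_prime`, degree `l = finrank`).
`norm_gen`: `N(γ) = (-1)^l * (constant coefficient) = (-1)^l * (-c) = c` for odd `l`
(`Algebra.norm_eq_..minpoly`, `PowerBasis.norm_gen_eq_coeff_zero_minpoly`), or: the conjugates of `γ` are
the `ζ^i γ`.
`norm_one_add`: `1 + γ` has minimal polynomial `(X - 1)^l - c` with constant coefficient `-1 - c`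
(`l` odd), so `N(1+γ) = 1 + c`; or `N(x - γ) = x^l - c` at `x = -1`
(`Algebra.norm` of `x - gen` is `charpoly/minpoly` evaluated at `x`) times `N(-1) = (-1)^l`.
-/
import Mathlib

namespace Pool.Agent.Helper98.SA

variable {K K' : Type*} [Field K] [Field K'] [Algebra K K'] [FiniteDimensional K K']
  [IsGalois K K']

open Polynomial in
private theorem co1b_charpoly {l : ℕ} (hl : l.Prime) {c : K} (hc : ¬ ∃ y, y ^ l = c)
    (hd : Module.finrank K K' = l) {γ : K'} (hγ : γ ^ l = algebraMap K K' c) :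
    (Algebra.lmul K K' γ).charpoly = X ^ l - C c := by
  have hi : Irreducible (X ^ l - C c : K[X]) :=
    X_pow_sub_C_irreducible_of_prime hl fun b hb => hc ⟨b, hb⟩
  have hm : (X ^ l - C c : K[X]).Monic := monic_X_pow_sub_C c hl.ne_zero
  have h0 : aeval (Algebra.lmul K K' γ) (X ^ l - C c : K[X]) = 0 := by
    rw [aeval_algHom_apply]
    simp [hγ]
  have h1 : (X ^ l - C c : K[X]) = minpoly K (Algebra.lmul K K' γ) :=
    minpoly.eq_of_irreducible_of_monic hi h0 hm
  have h2 : (X ^ l - C c : K[X]) ∣ (Algebra.lmul K K' γ).charpoly := by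
    rw [h1]
    exact LinearMap.minpoly_dvd_charpoly _
  refine eq_of_monic_of_dvd_of_natDegree_le hm (LinearMap.charpoly_monic _) h2 ?_
  rw [LinearMap.charpoly_natDegree, natDegree_X_pow_sub_C, hd]

private theorem co1b_norm_sub {l : ℕ} (hl : l.Prime) {c : K} (hc : ¬ ∃ y, y ^ l = c)
    (hd : Module.finrank K K' = l) {γ : K'} (hγ : γ ^ l = algebraMap K K' c) (t : K) :
    Algebra.norm K (algebraMap K K' t - γ) = t ^ l - c := by
  have h1 := LinearMap.eval_charpoly (Algebra.lmul K K' γ) t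
  rw [co1b_charpoly hl hc hd hγ] at h1
  have h2 : (algebraMap K (Module.End K K') t - Algebra.lmul K K' γ) =
      Algebra.lmul K K' (algebraMap K K' t - γ) := by
    rw [map_sub, AlgHom.commutes]
  rw [h2] at h1
  rw [Algebra.norm_apply, ← h1]
  simp

private theorem co1b_norm_neg {l : ℕ} (hl : l.Prime) (hl2 : l ≠ 2)
    (hd : Module.finrank K K' = l) (z : K') : Algebra.norm K (-z) = - Algebra.norm K z := by
  have h1 : -z = algebraMap K K' (-1) * z := by
    rw [map_neg, map_one, neg_one_mul]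
  rw [h1, map_mul, Algebra.norm_algebraMap, hd, (hl.odd_of_ne_two hl2).neg_one_pow, neg_one_mul]

theorem norm_gen {l : ℕ} (hl : l.Prime) (hl2 : l ≠ 2) {c : K} (hc : ¬ ∃ y, y ^ l = c)
    (hd : Module.finrank K K' = l) {γ : K'}
    (hγ : γ ^ l = algebraMap K K' c) : Algebra.norm K γ = c := by
  have h1 := co1b_norm_sub hl hc hd hγ 0
  rw [map_zero, zero_sub, co1b_norm_neg hl hl2 hd, zero_pow hl.ne_zero, zero_sub] at h1
  exact neg_injective h1

theorem norm_one_add {l : ℕ} (hl : l.Prime) (hl2 : l ≠ 2)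
    {c : K} (hc : ¬ ∃ y, y ^ l = c) (hd : Module.finrank K K' = l) {γ : K'}
    (hγ : γ ^ l = algebraMap K K' c) : Algebra.norm K (1 + γ) = 1 + c := by
  have h1 := co1b_norm_sub hl hc hd hγ (-1)
  rw [map_neg, map_one, show (-1 - γ : K') = -(1 + γ) by ring, co1b_norm_neg hl hl2 hd,
    (hl.odd_of_ne_two hl2).neg_one_pow] at h1
  linear_combination -h1

end Pool.Agent.Helper98.SA
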