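/-
SB block A, CO1: norm classes of a Kummer extension when both fields have `l^2` power classes.

`l` an odd prime, `K` contains a primitive `l`-th root of unity `ζ`, `c ∈ K^*` not an `l`-th power,
`K' / K` Galois of degree `l` with `γ ∈ K'`, `γ^l = c`; `PQ K l` and `PQ K' l` have `l^2` elements
(`PQ K l = Kˣ ⧸ (l-th powers)`).  Then for `w ∈ K'^*`: `N(w) ∈ ⟨c⟩ K^{*l}`.

Proof.  `res : PQ K l →* PQ K' l` induced by the inclusion (`Units.map`, `QuotientGroup.map`).  By
`kernel_res` (CO1a) its kernel is the subgroup generated by the class of `c`, of order dividing `l`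
(`c^l` is an `l`-th power), in fact `l` (`c` is not an `l`-th power).
So the range `I` of `res` has `l^2 / l = l` elements (`Subgroup.card_eq_card_quotient_mul_card_subgroup` and
the first isomorphism theorem: `card (PQ K l) = card ker * card range`).
The norm induces `N : PQ K' l →* PQ K l` (`Units.map (Algebra.norm K)`) and `N ∘ res` is `x ↦ x^l = 1`
(`Algebra.norm_algebraMap`, `finrank = l`), so `I ≤ ker N` and the range of `N` has at most
`l^2 / l = l` elements.  `N(γ) = c` (`norm_gen`, CO1b; `γ ≠ 0`), so the class of `c` is in the range of `N`; it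
generates a subgroup of order `l`, so the range of `N` is `⟨c⟩`.  Unfold for `w`.
-/
import Mathlib
import Pool.Agent.Helper98.SA.GP
import Pool.Agent.Helper98.SA.CO1a
import Pool.Agent.Helper98.SA.CO1b

namespace Pool.Agent.Helper98.SA

variable {K K' : Type*} [Field K] [Field K'] [Algebra K K'] [FiniteDimensional K K']
  [IsGalois K K']

/-- a homomorphism of the multiplicative groups induces one of the groups of power classes -/
private def co1Map {A B : Type*} [Field A] [Field B] (l : ℕ) (f : Aˣ →* Bˣ) : PQ A l →* PQ B l :=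
  QuotientGroup.map _ _ f (by
    rintro _ ⟨y, rfl⟩
    exact ⟨f y, by simp⟩)

private theorem co1Map_mk {A B : Type*} [Field A] [Field B] (l : ℕ) (f : Aˣ →* Bˣ) (x : Aˣ) :
    co1Map l f (QuotientGroup.mk x) = QuotientGroup.mk (f x) := rfl

private theorem co1_mk_eq_one {A : Type*} [Field A] (l : ℕ) (x : Aˣ) :
    (QuotientGroup.mk x : PQ A l) = 1 ↔ ∃ y : Aˣ, y ^ l = x := by
  rw [QuotientGroup.eq_one_iff]
  exact Iff.rfl

private theorem co1_card {G H : Type*} [Group G] [Group H] (f : G →* H) :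
    Nat.card f.ker * Nat.card f.range = Nat.card G := by
  rw [← Subgroup.index_ker, Subgroup.card_mul_index]

theorem norm_class {l : ℕ} (hl : l.Prime) (hl2 : l ≠ 2) {ζ : K} (hζ : IsPrimitiveRoot ζ l)
    {c : K} (hc : ¬ ∃ y, y ^ l = c) (hd : Module.finrank K K' = l) {γ : K'}
    (hγ : γ ^ l = algebraMap K K' c) (hK : Nat.card (PQ K l) = l ^ 2)
    (hK' : Nat.card (PQ K' l) = l ^ 2) {w : K'} (hw : w ≠ 0) :
    ∃ (i : ℕ) (t : K), t ≠ 0 ∧ Algebra.norm K w = c ^ i * t ^ l := by
  have hl0 := hl.pos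
  have hc0 : c ≠ 0 := by
    rintro rfl
    exact hc ⟨0, zero_pow hl.ne_zero⟩
  have hγ0 : γ ≠ 0 := by
    rintro rfl
    rw [zero_pow hl.ne_zero] at hγ
    exact hc0 ((map_eq_zero (algebraMap K K')).1 hγ.symm)
  have hfin : Finite (PQ K l) := Nat.finite_of_card_ne_zero (by rw [hK]; positivity)
  have hfin' : Finite (PQ K' l) := Nat.finite_of_card_ne_zero (by rw [hK']; positivity)
  -- the class of `c`
  obtain ⟨q, hq⟩ : ∃ q : PQ K l, q = QuotientGroup.mk (Units.mk0 c hc0) := ⟨_, rfl⟩
  have hord : orderOf q = l := by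
    refine orderOf_eq_prime_iff (hp := ⟨hl⟩) |>.2 ⟨?_, ?_⟩
    · rw [hq, ← QuotientGroup.mk_pow, co1_mk_eq_one]
      exact ⟨_, rfl⟩
    · rw [hq, ne_eq, co1_mk_eq_one]
      rintro ⟨y, hy⟩
      refine hc ⟨(y : K), ?_⟩
      have h1 := congrArg (Units.val) hy
      rw [Units.val_pow_eq_pow_val] at h1
      exact h1
  have hcardq : Nat.card (Subgroup.zpowers q) = l := by
    rw [Nat.card_zpowers, hord]
  -- the two homomorphisms
  obtain ⟨res, hres⟩ : ∃ res : PQ K l →* PQ K' l,
      res = co1Map l (Units.map (algebraMap K K' : K →* K')) := ⟨_, rfl⟩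
  obtain ⟨N, hN⟩ : ∃ N : PQ K' l →* PQ K l,
      N = co1Map l (Units.map (Algebra.norm K : K' →* K)) := ⟨_, rfl⟩
  have hker : res.ker ≤ Subgroup.zpowers q := by
    intro x hx
    obtain ⟨x, rfl⟩ := QuotientGroup.mk_surjective x
    rw [MonoidHom.mem_ker, hres, co1Map_mk, co1_mk_eq_one] at hx
    obtain ⟨y, hy⟩ := hx
    have h1 : algebraMap K K' (x : K) = (y : K') ^ l := by
      have h2 := congrArg Units.val hy
      rw [Units.val_pow_eq_pow_val] at h2
      exact h2.symm
    obtain ⟨i, t, ht, hxt⟩ := kernel_res hl hζ hc hd hγ x.ne_zero h1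
    have h3 : x = Units.mk0 c hc0 ^ i * Units.mk0 t ht ^ l := by
      apply Units.ext
      rw [Units.val_mul, Units.val_pow_eq_pow_val, Units.val_pow_eq_pow_val]
      exact hxt
    have h4 : (QuotientGroup.mk x : PQ K l) = q ^ i := by
      have h5 : (QuotientGroup.mk x : PQ K l) = QuotientGroup.mk (Units.mk0 c hc0 ^ i) := by
        rw [QuotientGroup.eq]
        refine ⟨(Units.mk0 t ht)⁻¹, ?_⟩
        show (Units.mk0 t ht)⁻¹ ^ l = x⁻¹ * Units.mk0 c hc0 ^ i
        rw [h3, mul_inv_rev, inv_mul_cancel_right, inv_pow]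
      rw [h5, hq]
      rfl
    rw [h4]
    exact Subgroup.pow_mem _ (Subgroup.mem_zpowers q) i
  have hle : res.range ≤ N.ker := by
    rintro _ ⟨x, rfl⟩
    obtain ⟨x, rfl⟩ := QuotientGroup.mk_surjective x
    rw [MonoidHom.mem_ker, hres, hN, co1Map_mk, co1Map_mk, co1_mk_eq_one]
    refine ⟨x, ?_⟩
    apply Units.ext
    rw [Units.val_pow_eq_pow_val, Units.coe_map, Units.coe_map]
    show (x : K) ^ l = Algebra.norm K (algebraMap K K' (x : K))
    rw [Algebra.norm_algebraMap, hd]
  have hNq : Subgroup.zpowers q ≤ N.range := by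
    rw [Subgroup.zpowers_le]
    refine ⟨QuotientGroup.mk (Units.mk0 γ hγ0), ?_⟩
    rw [hN, co1Map_mk, hq]
    congr 1
    apply Units.ext
    rw [Units.coe_map]
    exact norm_gen hl hl2 hc hd hγ
  -- counting
  have h1 : Nat.card res.ker ≤ l := by
    exact le_trans (Subgroup.card_le_of_le hker) hcardq.le
  have h2 : Nat.card res.range ≤ Nat.card N.ker := Subgroup.card_le_of_le hle
  have h3 := co1_card res
  have h4 := co1_card N
  rw [hK] at h3
  rw [hK'] at h4
  have h5 : l ≤ Nat.card N.ker := by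
    have h6 : l * l ≤ l * Nat.card N.ker := by
      calc l * l = l ^ 2 := (pow_two l).symm
        _ = Nat.card res.ker * Nat.card res.range := h3.symm
        _ ≤ l * Nat.card N.ker := Nat.mul_le_mul h1 h2
    exact Nat.le_of_mul_le_mul_left h6 hl0
  have h6 : Nat.card N.range ≤ l := by
    have h7 : l * Nat.card N.range ≤ l * l := by
      calc l * Nat.card N.range ≤ Nat.card N.ker * Nat.card N.range :=
            Nat.mul_le_mul_right _ h5
        _ = l ^ 2 := h4
        _ = l * l := pow_two l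
    exact Nat.le_of_mul_le_mul_left h7 hl0
  have h7 : Subgroup.zpowers q = N.range :=
    Subgroup.eq_of_le_of_card_ge hNq (by rw [hcardq]; exact h6)
  -- unfold
  have h8 : N (QuotientGroup.mk (Units.mk0 w hw)) ∈ Subgroup.zpowers q := by
    rw [h7]
    exact ⟨_, rfl⟩
  rw [← mem_powers_iff_mem_zpowers] at h8
  obtain ⟨i, hi⟩ := h8
  rw [hN, co1Map_mk, hq] at hi
  have hi' : (QuotientGroup.mk (Units.mk0 c hc0 ^ i) : PQ K l) =
      QuotientGroup.mk (Units.map (Algebra.norm K : K' →* K) (Units.mk0 w hw)) := by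
    rw [QuotientGroup.mk_pow]
    exact hi
  rw [QuotientGroup.eq] at hi'
  obtain ⟨t, ht⟩ := hi'
  refine ⟨i, (t : K), t.ne_zero, ?_⟩
  have h9 : Units.map (Algebra.norm K : K' →* K) (Units.mk0 w hw) =
      Units.mk0 c hc0 ^ i * t ^ l := by
    have h10 : t ^ l = (Units.mk0 c hc0 ^ i)⁻¹ *
        Units.map (Algebra.norm K : K' →* K) (Units.mk0 w hw) := ht
    rw [h10, mul_inv_cancel_left]
  have h10 := congrArg Units.val h9
  rw [Units.val_mul, Units.val_pow_eq_pow_val, Units.val_pow_eq_pow_val, Units.coe_map] at h10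
  exact h10

end Pool.Agent.Helper98.SA
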