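/-
SB block A, GT06: every finite Galois extension `N / L` inside `Ω` is `cmp L E` with `E / F` finite
Galois.

`h : GPair F L Ω`.  Let `E₂ / F` be finite Galois with `N ≤ cmp L E₂ =: M₂` (GT04.exists_cmp_fd), and
`r : Gal(M₂/L) ≃* Gal(E₂/F)` from `cmp_restr`.  Let `U ≤ Gal(M₂/L)` be the subgroup fixing `N`
(`N` Galois over `L`, so `U` is normal), `U' = r(U)`, `E := ` the fixed field of `U'` in `E₂`, viewed in
`Ω` (`IntermediateField.lift`).  `U'` is normal, so `E / F` is Galois (Mathlib:
`IsGalois.of_fixedField_normal_subgroup`; or check normality directly: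
for `x ∈ E`, all `τ x`, `τ ∈ Gal(E₂/F)` are fixed by `U'`).  `E ≤ N`: `x ∈ E` is fixed by all `r g`,
`g ∈ U`, so `g x = x` for `g ∈ U`, so `x ∈ N` (Galois correspondence for `M₂ / L`).  So
`cmp L E ≤ N`.  Degrees: `[cmp L E : L] = [E : F]` (`cmp_finrank`) `= index of U' = index of U = [N : L]`
(`IntermediateField.finrank_fixedField_eq_card` and `card (M₂ ≃ₐ[L] M₂) = finrank`), so
`cmp L E = N` (`IntermediateField.eq_of_le_of_finrank_eq`).
ALTERNATIVE for `E`: `E := {z ∈ N algebraic over F}`.
-/
import Mathlib
import Pool.Agent.Helper98.SA.GP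
import Pool.Agent.Helper98.SA.GT03
import Pool.Agent.Helper98.SA.GT04

namespace Pool.Agent.Helper98.SA

variable {F L Ω : Type*} [Field F] [Field L] [Field Ω] [Algebra F L] [Algebra L Ω] [Algebra F Ω]
  [IsScalarTower F L Ω] [CharZero F] [IsAlgClosed Ω]

theorem descend (h : GPair F L Ω) (N : IntermediateField L Ω) [FiniteDimensional L N]
    [IsGalois L N] : ∃ E : IntermediateField F Ω, FiniteDimensional F E ∧ IsGalois F E ∧
      N = cmp L E := by
  obtain ⟨E₂, hfd, hgal, hN⟩ := exists_cmp_fd h N
  haveI : FiniteDimensional L (cmp L E₂) := cmp_finite E₂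
  haveI : IsGalois L (cmp L E₂) := cmp_galois E₂
  obtain ⟨r, hr⟩ := cmp_restr h E₂
  let N' : IntermediateField L (cmp L E₂) := IntermediateField.restrict hN
  haveI : IsGalois L N' := IsGalois.of_algEquiv (IntermediateField.restrictAlgEquiv hN)
  let U : Subgroup (cmp L E₂ ≃ₐ[L] cmp L E₂) := N'.fixingSubgroup
  haveI hUn : U.Normal := IsGalois.fixingSubgroup_normal_of_isGalois N'
  let U' : Subgroup (E₂ ≃ₐ[F] E₂) := U.map r.toMonoidHom
  haveI hUn' : U'.Normal := hUn.map r.toMonoidHom r.surjective
  let E' : IntermediateField F E₂ := IntermediateField.fixedField U'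
  haveI : IsGalois F E' := IsGalois.of_fixedField_normal_subgroup U'
  let E : IntermediateField F Ω := IntermediateField.lift E'
  let e : E' ≃ₐ[F] E := IntermediateField.liftAlgEquiv E'
  haveI hEf : FiniteDimensional F E := Module.Finite.equiv e.toLinearEquiv
  haveI hEg : IsGalois F E := IsGalois.of_algEquiv e
  refine ⟨E, hEf, hEg, ?_⟩
  have hle : cmp L E ≤ N := by
    unfold cmp
    rw [IntermediateField.adjoin_le_iff]
    intro x hx
    have hx' : x ∈ IntermediateField.lift E' := hx
    have hxE₂ : x ∈ E₂ := IntermediateField.lift_le E' hx'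
    have hxE' : (⟨x, hxE₂⟩ : E₂) ∈ E' := (IntermediateField.mem_lift ⟨x, hxE₂⟩).1 hx'
    have hfix : algebraMap E₂ (cmp L E₂) ⟨x, hxE₂⟩ ∈ IntermediateField.fixedField U := by
      rw [IntermediateField.mem_fixedField_iff]
      intro g hg
      rw [← hr g]
      congr 1
      exact (IntermediateField.mem_fixedField_iff U' _).1 hxE' (r g) ⟨g, hg, rfl⟩
    have hN'' : IntermediateField.fixedField U = N' := IsGalois.fixedField_fixingSubgroup N'
    rw [hN''] at hfix
    exact (IntermediateField.mem_restrict hN _).1 hfix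
  have hcard : Nat.card U' = Nat.card U := by
    exact Nat.card_congr (Equiv.Set.image r U r.injective).symm
  have h1 : Module.finrank E' E₂ = Nat.card U' := IntermediateField.finrank_fixedField_eq_card U'
  have h2 : Module.finrank N' (cmp L E₂) = Nat.card U := by
    exact (IsGalois.card_fixingSubgroup_eq_finrank N').symm
  have h3 : Module.finrank F E' * Module.finrank E' E₂ = Module.finrank F E₂ :=
    Module.finrank_mul_finrank F E' E₂
  have h4 : Module.finrank L N' * Module.finrank N' (cmp L E₂) = Module.finrank L (cmp L E₂) :=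
    Module.finrank_mul_finrank L N' (cmp L E₂)
  have h5 : Module.finrank L (cmp L E₂) = Module.finrank F E₂ := cmp_finrank h E₂
  have h6 : Module.finrank L (cmp L E) = Module.finrank F E := cmp_finrank h E
  have h7 : Module.finrank F E = Module.finrank F E' := e.toLinearEquiv.finrank_eq.symm
  have h8 : Module.finrank L N = Module.finrank L N' :=
    (IntermediateField.restrictAlgEquiv hN).toLinearEquiv.finrank_eq
  have hpos : 0 < Nat.card U := by
    rw [← h2]
    exact Module.finrank_pos
  have h9 : Module.finrank L (cmp L E) = Module.finrank L N := by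
    rw [h6, h7, h8]
    apply Nat.eq_of_mul_eq_mul_right hpos
    rw [← h2, h4, h5, ← h3, h1, hcard, h2]
  exact (IntermediateField.eq_of_le_of_finrank_eq hle h9).symm

end Pool.Agent.Helper98.SA
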