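/-
SB block A, GT05: base change of good pairs.

`h : GPair F L Ω`, `E / F` finite Galois inside `Ω`.  Claim `GPair E (cmp L E) Ω`.
alg: `Ω` is algebraic over `L`, so over `cmp L E`.
gen: `y ∈ adjoin L {algebraic over F}` is in `adjoin (cmp L E) {algebraic over E}` (an element algebraic
  over `F` is algebraic over `E`; the smaller field `L` is contained in `cmp L E`).
closed: `x ∈ M := cmp L E` algebraic over `E`, so over `F` (`E / F` algebraic).  Take `E₂ / F` finite
  Galois with `E ≤ E₂`, `(x : Ω) ∈ E₂` (GT04.exists_galois; `E` is generated by finitely many elements,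
  or use the normal closure of `E ⊔ F(x)`).  Let `τ ∈ Gal(E₂/F)` fix `E` pointwise.  By `cmp_restr` for
  `E₂` there is `g ∈ Gal(cmp L E₂ / L)` restricting to `τ`.  `g` fixes `L` and `E` pointwise, so it fixes
  `cmp L E ≤ cmp L E₂` pointwise, so it fixes `x`, i.e. `τ x = x`.  So `x` is in the fixed field of
  `Gal(E₂/E)`, which is `E` (Galois correspondence: `IsGalois.fixedField_fixingSubgroup`, for `E`
  restricted to an intermediate field of `E₂ / F`).
Also `algebraic_mem`: an element of `cmp L E` algebraic over `F` lies in `E` (the same statement).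
-/
import Mathlib
import Pool.Agent.Helper98.SA.GP
import Pool.Agent.Helper98.SA.GT03
import Pool.Agent.Helper98.SA.GT04

namespace Pool.Agent.Helper98.SA

variable {F L Ω : Type*} [Field F] [Field L] [Field Ω] [Algebra F L] [Algebra L Ω] [Algebra F Ω]
  [IsScalarTower F L Ω] [CharZero F] [IsAlgClosed Ω]

private theorem GT05_fg {K M : Type*} [Field K] [Field M] [Algebra K M] (N : IntermediateField K M)
    [FiniteDimensional K N] : ∃ t : Finset M, IntermediateField.adjoin K (t : Set M) = N :=
  IntermediateField.essFiniteType_iff.1 inferInstance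

omit [Algebra F L] [IsScalarTower F L Ω] [CharZero F] [IsAlgClosed Ω] in
private theorem GT05_fix (E E₂ : IntermediateField F Ω) (hle : E ≤ E₂)
    (g : cmp L E₂ ≃ₐ[L] cmp L E₂)
    (hg : ∀ (z : Ω) (_ : z ∈ E) (hz : z ∈ cmp L E₂), g ⟨z, hz⟩ = ⟨z, hz⟩)
    {x : Ω} (hx : x ∈ cmp L E) : ∀ hz : x ∈ cmp L E₂, g ⟨x, hz⟩ = ⟨x, hz⟩ := by
  have hmono : cmp L E ≤ cmp L E₂ := IntermediateField.adjoin.mono L _ _ hle
  have hx' : x ∈ IntermediateField.adjoin L (E : Set Ω) := hx
  induction hx' using IntermediateField.adjoin_induction with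
  | mem y hy => exact fun hz => hg y hy hz
  | algebraMap y => exact fun hz => g.commutes y
  | add a b ha hb iha ihb =>
    intro hz
    have h1 := iha ha (hmono ha)
    have h2 := ihb hb (hmono hb)
    have h3 : (⟨a + b, hz⟩ : cmp L E₂) = ⟨a, hmono ha⟩ + ⟨b, hmono hb⟩ := rfl
    rw [h3, map_add, h1, h2]
  | inv a ha iha =>
    intro hz
    have h1 := iha ha (hmono ha)
    have h3 : (⟨a⁻¹, hz⟩ : cmp L E₂) = (⟨a, hmono ha⟩ : cmp L E₂)⁻¹ := rfl
    rw [h3, map_inv₀, h1]
  | mul a b ha hb iha ihb =>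
    intro hz
    have h1 := iha ha (hmono ha)
    have h2 := ihb hb (hmono hb)
    have h3 : (⟨a * b, hz⟩ : cmp L E₂) = ⟨a, hmono ha⟩ * ⟨b, hmono hb⟩ := rfl
    rw [h3, map_mul, h1, h2]

theorem algebraic_mem (h : GPair F L Ω) (E : IntermediateField F Ω) [FiniteDimensional F E]
    [IsGalois F E] {x : Ω} (hx : x ∈ cmp L E) (hx' : IsAlgebraic F x) : x ∈ E := by
  classical
  obtain ⟨t, ht⟩ := GT05_fg E
  have htE : (t : Set Ω) ⊆ E := by
    rw [← ht]
    exact IntermediateField.subset_adjoin F _
  obtain ⟨E₂, hfd, hgal, hS⟩ := exists_galois (F := F) (insert x t) (by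
    intro z hz
    rcases Finset.mem_insert.1 hz with hz | hz
    · rw [hz]
      exact hx'
    · have h1 : IsAlgebraic F (⟨z, htE (Finset.mem_coe.2 hz)⟩ : E) :=
        Algebra.IsAlgebraic.isAlgebraic _
      exact h1.algebraMap (A := Ω))
  have hle : E ≤ E₂ := by
    rw [← ht]
    exact IntermediateField.adjoin_le_iff.2 (fun z hz =>
      hS (Finset.mem_coe.2 (Finset.mem_insert_of_mem (Finset.mem_coe.1 hz))))
  have hx2 : x ∈ E₂ := hS (Finset.mem_coe.2 (Finset.mem_insert_self x t))
  obtain ⟨r, hr⟩ := cmp_restr h E₂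
  have h1 : (⟨x, hx2⟩ : E₂) ∈ IntermediateField.restrict hle := by
    rw [← IsGalois.fixedField_fixingSubgroup (IntermediateField.restrict hle),
      IntermediateField.mem_fixedField_iff]
    intro τ hτ
    rw [IntermediateField.mem_fixingSubgroup_iff] at hτ
    have h2 := hr (r.symm τ)
    rw [MulEquiv.apply_symm_apply] at h2
    have h3 := GT05_fix E E₂ hle (r.symm τ) (fun z hz hz2 => by
      have h4 := h2 ⟨z, hle hz⟩
      rw [hτ ⟨z, hle hz⟩ ((IntermediateField.mem_restrict hle _).2 hz)] at h4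
      exact h4.symm) hx (IntermediateField.adjoin.mono L _ _ hle hx)
    have h4 := h2 ⟨x, hx2⟩
    have h5 : algebraMap E₂ (cmp L E₂) (τ ⟨x, hx2⟩) = algebraMap E₂ (cmp L E₂) ⟨x, hx2⟩ :=
      h4.trans h3
    exact (algebraMap E₂ (cmp L E₂)).injective h5
  exact (IntermediateField.mem_restrict hle _).1 h1

theorem gpair_cmp (h : GPair F L Ω) (E : IntermediateField F Ω) [FiniteDimensional F E]
    [IsGalois F E] : GPair E (cmp L E) Ω := by
  have hEalg : Algebra.IsAlgebraic F E := inferInstance
  refine ⟨?_, ?_, ?_⟩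
  · intro x hx
    have h1 : IsAlgebraic E (algebraMap (cmp L E) Ω x) := hx.algebraMap
    have h2 : IsAlgebraic F (x : Ω) := IsAlgebraic.restrictScalars F h1
    have h3 := algebraic_mem h E x.2 h2
    exact ⟨⟨x, h3⟩, rfl⟩
  · intro x
    exact (h.alg x).tower_top (cmp L E)
  · intro y
    have h1 : IntermediateField.adjoin L {z : Ω | IsAlgebraic F z} ≤
        (IntermediateField.adjoin (cmp L E) {z : Ω | IsAlgebraic E z}).restrictScalars L := by
      apply IntermediateField.adjoin_le_iff.2
      intro z hz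
      have h2 : IsAlgebraic E z := IsAlgebraic.tower_top E (show IsAlgebraic F z from hz)
      exact IntermediateField.subset_adjoin (cmp L E) {z : Ω | IsAlgebraic E z} h2
    exact h1 (h.gen y)

end Pool.Agent.Helper98.SA
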