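/-
SB block A, GT08: `F^*/F^{*n} → L^*/L^{*n}` is bijective; cardinalities.

(1) `pow_descend`: `c : F`, `y : L`, `algebraMap c = y^n`, `n ≠ 0`: `y` is algebraic over `F`, so
    `y = algebraMap y₀` (`h.closed`), `c = y₀^n`.
(2) `card_PQ`: `PQ K n = Kˣ ⧸ (n-th powers)`.  The map `PQ F n → PQ L n` induced by the inclusion is
    injective by (1) and surjective by `kummer` (GT07).
(3) `card_PQ_local`: `F, A` HDVR, `l` prime, `l ∣ q - 1`: `Nat.card (PQ F l) = l ^ 2`, by
    `Pool.Agent.Helper60.SL.classes` and `classes_unique` (with `exists_unif`, `exists_zeta`): the map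
    `Fin l × Fin l → PQ F l`, `(i,j) ↦ class of π^i u^j` is bijective.
(4) `card_PQ_ext`: `E / F` finite Galois: `Nat.card (PQ (cmp L E) l) = l ^ 2`: `gpair_cmp` (GT05), (2) and (3) for
    `ext hA E` (helper60: `ext_hdvr`, `card_residue_pow`: the residue field of `ext hA E` has `q^f` elements,
    `l ∣ q - 1 ∣ q^f - 1`).
-/
import Mathlib
import Pool.Agent.Helper98.SA.GP
import Pool.Agent.Helper98.SA.GT05
import Pool.Agent.Helper98.SA.GT07
import Pool.Agent.Helper60.SL.Classes
import Pool.Agent.Helper60.SL.Resid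

open Pool.Agent.Helper60.SL IsLocalRing

namespace Pool.Agent.Helper98.SA

variable {F L Ω : Type*} [Field F] [Field L] [Field Ω] [Algebra F L] [Algebra L Ω] [Algebra F Ω]
  [IsScalarTower F L Ω] [CharZero F] [IsAlgClosed Ω]

theorem pow_descend (h : GPair F L Ω) {n : ℕ} (hn : n ≠ 0) {c : F} {y : L}
    (hc : algebraMap F L c = y ^ n) : ∃ z : F, algebraMap F L z = y ∧ c = z ^ n := by
  have hy : IsAlgebraic F y := by
    have h1 : IsAlgebraic F (y ^ n) := by
      rw [← hc]
      exact isAlgebraic_algebraMap c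
    exact h1.of_pow (Nat.pos_of_ne_zero hn)
  obtain ⟨z, hz⟩ := h.closed y hy
  refine ⟨z, hz, ?_⟩
  apply (algebraMap F L).injective
  rw [map_pow, hz, hc]

theorem card_PQ (h : GPair F L Ω) {n : ℕ} (hn : n ≠ 0) :
    Nat.card (PQ L n) = Nat.card (PQ F n) := by
  symm
  have hle : (powMonoidHom n : Fˣ →* Fˣ).range ≤
      (powMonoidHom n : Lˣ →* Lˣ).range.comap (Units.map (algebraMap F L : F →* L)) := by
    rintro x ⟨y, rfl⟩
    refine ⟨Units.map (algebraMap F L : F →* L) y, ?_⟩
    show (Units.map (algebraMap F L : F →* L) y) ^ n = Units.map (algebraMap F L : F →* L) (y ^ n)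
    rw [map_pow]
  let φ : PQ F n →* PQ L n := QuotientGroup.map _ _ (Units.map (algebraMap F L : F →* L)) hle
  refine Nat.card_congr (Equiv.ofBijective φ ⟨?_, ?_⟩)
  · rw [injective_iff_map_eq_one]
    intro a
    induction a using QuotientGroup.induction_on with
    | H u =>
      intro hu
      have h1 : (QuotientGroup.mk (Units.map (algebraMap F L : F →* L) u) : PQ L n) = 1 := hu
      rw [QuotientGroup.eq_one_iff] at h1
      obtain ⟨v, hv⟩ := h1
      have h2 : algebraMap F L (u : F) = (v : L) ^ n := by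
        have h3 := congrArg (Units.val) hv
        exact h3.symm
      obtain ⟨z, -, hz⟩ := pow_descend h hn h2
      have hz0 : z ≠ 0 := by
        rintro rfl
        rw [zero_pow hn] at hz
        exact u.ne_zero hz
      rw [QuotientGroup.eq_one_iff]
      refine ⟨Units.mk0 z hz0, ?_⟩
      apply Units.ext
      exact hz.symm
  · intro b
    induction b using QuotientGroup.induction_on with
    | H v =>
      obtain ⟨c, y, hc, hy, hv⟩ := kummer h hn v.ne_zero
      refine ⟨QuotientGroup.mk (Units.mk0 c hc), ?_⟩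
      show (QuotientGroup.mk (Units.map (algebraMap F L : F →* L) (Units.mk0 c hc)) : PQ L n) =
        QuotientGroup.mk v
      rw [QuotientGroup.eq]
      refine ⟨Units.mk0 y hy, ?_⟩
      apply Units.ext
      show y ^ n = (((Units.map (algebraMap F L : F →* L) (Units.mk0 c hc))⁻¹ : Lˣ) : L) * (v : L)
      rw [Units.val_inv_eq_inv_val]
      show y ^ n = (algebraMap F L c)⁻¹ * (v : L)
      have hc' : algebraMap F L c ≠ 0 := by
        rw [ne_eq, map_eq_zero_iff _ (algebraMap F L).injective]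
        exact hc
      rw [hv, inv_mul_cancel_left₀ hc']

omit [CharZero F] in
theorem card_PQ_local {A : ValuationSubring F} (hA : HDVR A) {l : ℕ} (hl : l.Prime)
    (hlq : l ∣ Nat.card (ResidueField A) - 1) : Nat.card (PQ F l) = l ^ 2 := by
  obtain ⟨u, hu⟩ := exists_zeta hA
  obtain ⟨π, hπ⟩ := exists_unif hA.dvr
  have hq0 : Nat.card (ResidueField A) - 1 ≠ 0 := by
    haveI := hA.fin
    have h1 : 1 < Nat.card (ResidueField A) := Finite.one_lt_card
    omega
  have hu0 : u ≠ 0 := hu.ne_zero hq0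
  have hπ0 : π ≠ 0 := hπ.ne
  let f : Fin l × Fin l → PQ F l := fun p =>
    QuotientGroup.mk ((Units.mk0 π hπ0) ^ (p.1 : ℕ) * (Units.mk0 u hu0) ^ (p.2 : ℕ))
  have hf : Function.Bijective f := by
    constructor
    · rintro ⟨i, j⟩ ⟨i', j'⟩ hij
      have h1 : (QuotientGroup.mk ((Units.mk0 π hπ0) ^ (i : ℕ) * (Units.mk0 u hu0) ^ (j : ℕ)) :
          PQ F l) = QuotientGroup.mk ((Units.mk0 π hπ0) ^ (i' : ℕ) * (Units.mk0 u hu0) ^ (j' : ℕ)) :=
        hij
      rw [QuotientGroup.eq] at h1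
      obtain ⟨v, hv⟩ := h1
      have hv' : v ^ l = ((Units.mk0 π hπ0) ^ (i : ℕ) * (Units.mk0 u hu0) ^ (j : ℕ))⁻¹ *
          ((Units.mk0 π hπ0) ^ (i' : ℕ) * (Units.mk0 u hu0) ^ (j' : ℕ)) := hv
      have h2 : (Units.mk0 π hπ0) ^ (i : ℕ) * (Units.mk0 u hu0) ^ (j : ℕ) * v ^ l =
          (Units.mk0 π hπ0) ^ (i' : ℕ) * (Units.mk0 u hu0) ^ (j' : ℕ) * 1 ^ l := by
        rw [hv', mul_inv_cancel_left, one_pow, mul_one]
      have h3 := congrArg Units.val h2
      have h4 : π ^ (i : ℕ) * u ^ (j : ℕ) * (v : F) ^ l = π ^ (i' : ℕ) * u ^ (j' : ℕ) * 1 ^ l := h3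
      obtain ⟨e1, e2⟩ := classes_unique hA hl hlq hu hπ i.2 j.2 i'.2 j'.2 v.ne_zero one_ne_zero h4
      rw [Prod.mk.injEq]
      exact ⟨Fin.ext e1, Fin.ext e2⟩
    · intro b
      induction b using QuotientGroup.induction_on with
      | H x =>
        obtain ⟨i, hi, j, hj, y, hy, hx⟩ := classes hA hl hlq hu hπ x.ne_zero
        refine ⟨(⟨i, hi⟩, ⟨j, hj⟩), ?_⟩
        show (QuotientGroup.mk ((Units.mk0 π hπ0) ^ i * (Units.mk0 u hu0) ^ j) : PQ F l) =
          QuotientGroup.mk x
        rw [QuotientGroup.eq]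
        refine ⟨Units.mk0 y hy, ?_⟩
        have h1 : x = (Units.mk0 π hπ0) ^ i * (Units.mk0 u hu0) ^ j * (Units.mk0 y hy) ^ l := by
          apply Units.ext
          exact hx
        show (Units.mk0 y hy) ^ l = _
        conv_rhs => rw [h1]
        rw [inv_mul_cancel_left]
  rw [← Nat.card_congr (Equiv.ofBijective f hf), Nat.card_prod, Nat.card_fin, sq]

theorem card_PQ_ext (h : GPair F L Ω) {A : ValuationSubring F} (hA : HDVR A) {l : ℕ}
    (hl : l.Prime) (hlq : l ∣ Nat.card (ResidueField A) - 1) (E : IntermediateField F Ω)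
    [FiniteDimensional F E] [IsGalois F E] : Nat.card (PQ (cmp L E) l) = l ^ 2 := by
  haveI : CharZero E := charZero_of_injective_algebraMap (algebraMap F E).injective
  rw [card_PQ (gpair_cmp h E) hl.ne_zero]
  refine card_PQ_local (ext_hdvr hA E) hl ?_
  obtain ⟨f, -, hf⟩ := card_residue_pow hA E
  rw [hf]
  refine hlq.trans ?_
  have h1 := Nat.sub_dvd_pow_sub_pow (Nat.card (ResidueField A)) 1 f
  rwa [one_pow] at h1

end Pool.Agent.Helper98.SA
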