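/-
SB block A, CO2: collinearity.  `x ∈ L^*` not an `l`-th power  ⟹  `1 + x ∈ ⟨x⟩ L^{*l}`.

`h : GPair F L Ω`, `A` HDVR of `F`, `l` odd prime, `l ∣ q - 1`.
`exists_root_of_unity`: `Helper60.SL.exists_zeta` gives a primitive `(q-1)`-th root `u` in `F`;
`ζ = u^((q-1)/l)` (`IsPrimitiveRoot.pow`), map it to `L` (`IsPrimitiveRoot.map_of_injective`).
`one_add_class`: `N`, `γ` from `exists_kummer_ext` (CO2a).  By `descend` (GT06) `N = cmp L E` with `E / F`
finite Galois (substitute).  `card_PQ_ext` (GT08) gives `card (PQ (cmp L E) l) = l^2`, and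
`card_PQ`, `card_PQ_local` give `card (PQ L l) = l^2`.
`norm_class` (CO1) for `w = 1 + γ` (nonzero: otherwise `x = γ^l = (-1)^l = -1` is an `l`-th power, `l` odd)
and `norm_one_add` (CO1b).
`add_class`: `a, b ∈ L^*` with `a / b` not an `l`-th power: `a + b = b (1 + a/b) = b (a/b)^i t^l`.
-/
import Mathlib
import Pool.Agent.Helper98.SA.GP
import Pool.Agent.Helper98.SA.GT06
import Pool.Agent.Helper98.SA.GT08
import Pool.Agent.Helper98.SA.CO1
import Pool.Agent.Helper98.SA.CO2a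

open Pool.Agent.Helper60.SL IsLocalRing

namespace Pool.Agent.Helper98.SA

variable {F L Ω : Type*} [Field F] [Field L] [Field Ω] [Algebra F L] [Algebra L Ω] [Algebra F Ω]
  [IsScalarTower F L Ω] [CharZero F] [IsAlgClosed Ω]

omit [CharZero F] in
theorem exists_root_of_unity {A : ValuationSubring F} (hA : HDVR A) {l : ℕ}
    (hl : l.Prime) (hlq : l ∣ Nat.card (ResidueField A) - 1) :
    ∃ ζ : F, IsPrimitiveRoot ζ l := by
  obtain ⟨u, hu⟩ := exists_zeta hA
  have hq0 : Nat.card (ResidueField A) - 1 ≠ 0 := by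
    have := hA.fin
    have h1 : 1 < Nat.card (ResidueField A) := Finite.one_lt_card
    omega
  exact ⟨u ^ ((Nat.card (ResidueField A) - 1) / l),
    hu.pow (Nat.pos_of_ne_zero hq0) (Nat.div_mul_cancel hlq).symm⟩

theorem one_add_class (h : GPair F L Ω) {A : ValuationSubring F} (hA : HDVR A) {l : ℕ}
    (hl : l.Prime) (hl2 : l ≠ 2) (hlq : l ∣ Nat.card (ResidueField A) - 1) {x : L}
    (hx : ¬ ∃ y, y ^ l = x) : ∃ (i : ℕ) (t : L), t ≠ 0 ∧ 1 + x = x ^ i * t ^ l := by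
  have : CharZero L := charZero_of_injective_algebraMap (algebraMap F L).injective
  obtain ⟨ζ, hζ⟩ := exists_root_of_unity hA hl hlq
  have hζ' : IsPrimitiveRoot (algebraMap F L ζ) l :=
    hζ.map_of_injective (algebraMap F L).injective
  obtain ⟨N, hfd, hgal, hdeg, γ, hγ⟩ := exists_kummer_ext (Ω := Ω) hl hζ' hx
  obtain ⟨E, hEf, hEg, rfl⟩ := descend h N
  have hK' : Nat.card (PQ (cmp L E) l) = l ^ 2 := card_PQ_ext h hA hl hlq E
  have hK : Nat.card (PQ L l) = l ^ 2 := by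
    rw [card_PQ h hl.ne_zero, card_PQ_local hA hl hlq]
  have hw : 1 + γ ≠ 0 := by
    intro h0
    apply hx
    refine ⟨-1, ?_⟩
    have h1 : γ = -1 := by linear_combination h0
    rw [h1] at hγ
    apply (algebraMap L (cmp L E)).injective
    rw [map_pow, map_neg, map_one, hγ]
  obtain ⟨i, t, ht, hn⟩ := norm_class hl hl2 hζ' hx hdeg hγ hK hK' hw
  refine ⟨i, t, ht, ?_⟩
  rw [← hn, norm_one_add hl hl2 hx hdeg hγ]

theorem add_class (h : GPair F L Ω) {A : ValuationSubring F} (hA : HDVR A) {l : ℕ}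
    (hl : l.Prime) (hl2 : l ≠ 2) (hlq : l ∣ Nat.card (ResidueField A) - 1) {a b : L}
    (ha : a ≠ 0) (hb : b ≠ 0) (hx : ¬ ∃ y, y ^ l = a / b) :
    ∃ (i : ℕ) (t : L), t ≠ 0 ∧ a + b = b * (a / b) ^ i * t ^ l := by
  obtain ⟨i, t, ht, hi⟩ := one_add_class h hA hl hl2 hlq hx
  refine ⟨i, t, ht, ?_⟩
  have h1 : a + b = b * (1 + a / b) := by
    field_simp
    ring
  rw [h1, hi, mul_assoc]

end Pool.Agent.Helper98.SA
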