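/-
SB block A, CO3: rigidity: `(T, H) = (L^{*l}, A^* L^{*l})` satisfies `Rig`.

Hypotheses: `h : GPair F L Ω`, `A` HDVR of `F`, `l` odd prime, `l ∣ q - 1`, and
(UC) for every `j` there is `c ∈ F`, a unit of `A`, with `1 + c` a unit of `A`, not an `l`-th power,
     `c = (1 + c)^j y^l`.
`T := powSet l L`, `H := uP A l L`.  `IsUn A x ↔ x ≠ 0 ∧ x ∈ A ∧ x⁻¹ ∈ A` (`isUn_iff`).
Group properties: CO3a.  `-1 = (-1)^l ∈ T`.
Rigidity: `x ∈ L`, `x ≠ 0`, `x ∉ H`.  Then `x` is not an `l`-th power, `1 + x = x^j t^l` (CO2), `j` may be reduced to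
`0 ≤ j < l`.  `j = 0`: `1 + x ∈ T`.  `j = 1`: `(1 + x)x⁻¹ ∈ T`.  Suppose `2 ≤ j < l`.  Take `c`, `u := 1 + c` from
(UC) for `j`, `c = u^j y^l`.  All in `L` now (apply `algebraMap F L`).
 `(a)` `x / u` is not an `l`-th power (otherwise `x = u y^l ∈ H`).  So (add_class) `s := x + u = u (x/u)^e t₁^l`.
 `(b)` `(1+x) / c = (x/u)^j t₂^l` is not an `l`-th power: `(x/u)^j = z^l` and `j` prime to `l` would give that `x/u` is an
    `l`-th power (`pow_mem_powSet`).  So `s = (1 + x) + c = c ((1+x)/c)^m t₃^l`.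
 Write `r := x / u`.  (a): `s ~ u r^e`.  (b): `s ~ u^j r^{j m}` (mod `T`).  `s ≠ 0` (by (a), all factors are nonzero).
 So `u^{j-1} ~ r^{e - j m}` mod `T` (integer exponent).
 If `l ∤ e - j m`: `r` is (mod `T`) a power of `u` (`pow_mem_uP`: a power of `r` prime to `l` is in `H`), so `r ∈ H`,
 `x = u r ∈ H`, contradiction.  So `l ∣ e - j m` and `u^{j-1} ∈ T`, `1 ≤ j - 1 < l`, so `u` is an `l`-th power in `L`
 (`pow_mem_powSet`), hence in `F` (`pow_descend`, GT08): contradiction.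
-/
import Mathlib
import Pool.Agent.Helper98.SA.GP
import Pool.Agent.Helper98.SA.GT08
import Pool.Agent.Helper98.SA.CO2
import Pool.Agent.Helper98.SA.CO3a

open Pool.Agent.Helper60.SL IsLocalRing

namespace Pool.Agent.Helper98.SA

/-- the prime `l` is good for `(F, A)` -/
structure LGood {F : Type*} [Field F] (A : ValuationSubring F) (l : ℕ) : Prop where
  prime : l.Prime
  odd : l ≠ 2
  dvd : l ∣ Nat.card (ResidueField A) - 1
  cls : ∀ j : ℕ, ∃ c : F, IsUn A c ∧ IsUn A (1 + c) ∧ (¬ ∃ y, y ^ l = 1 + c) ∧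
    ∃ y, c = (1 + c) ^ j * y ^ l

section aux

variable {F L : Type*} [Field F] [Field L] [Algebra F L]

private theorem mulSub_pow {T : Set L} (hT : MulSub T) {x : L} (hx : x ∈ T) (k : ℕ) :
    x ^ k ∈ T := by
  induction k with
  | zero => rw [pow_zero]; exact hT.one
  | succ k ih => rw [pow_succ]; exact hT.mul _ ih _ hx

private theorem coprime_of_lt {l k : ℕ} (hl : l.Prime) (hk : 1 ≤ k) (hkl : k < l) :
    Nat.Coprime k l := by
  refine ((Nat.Prime.coprime_iff_not_dvd hl).2 fun h => ?_).symm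
  exact absurd (Nat.le_of_dvd hk h) (not_le.2 hkl)

private theorem fin_step {A : ValuationSubring F} {l : ℕ} (hl : l.Prime) {r u D : L} {k d : ℕ}
    (hr : r ≠ 0) (hrH : r ∉ uP A l L) (hu : u ≠ 0) (huH : u ∈ uP A l L) (huT : u ∉ powSet l L)
    (hD : D ≠ 0) (hk : 1 ≤ k) (hkl : k < l) (h : r ^ d = u ^ k * D ^ l) : False := by
  by_cases hd : l ∣ d
  · obtain ⟨q, rfl⟩ := hd
    apply huT
    refine pow_mem_powSet (coprime_of_lt hl hk hkl) hu ⟨r ^ q / D, div_ne_zero (pow_ne_zero _ hr) hD, ?_⟩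
    rw [div_pow, ← pow_mul, mul_comm q l, h, mul_div_assoc, div_self (pow_ne_zero _ hD), mul_one]
  · apply hrH
    refine pow_mem_uP A (((Nat.Prime.coprime_iff_not_dvd hl).2 hd).symm) ?_ hr
    rw [h]
    exact (mulSub_uP A l).mul _ (mulSub_pow (mulSub_uP A l) huH k) _
      (powSet_sub_uP A l ⟨D, hD, rfl⟩)

/-- the final comparison -/
private theorem compare {A : ValuationSubring F} {l : ℕ} (hl : l.Prime) {r u Y t t₁ t₃ : L}
    {j e m : ℕ} (hr : r ≠ 0) (hrH : r ∉ uP A l L) (hu : u ≠ 0) (huH : u ∈ uP A l L)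
    (huT : u ∉ powSet l L) (hY : Y ≠ 0) (ht : t ≠ 0) (ht₁ : t₁ ≠ 0) (ht₃ : t₃ ≠ 0)
    (hj : 2 ≤ j) (hjl : j < l)
    (h : u * r ^ e * t₁ ^ l = u ^ j * Y ^ l * (r ^ j * (t / Y) ^ l) ^ m * t₃ ^ l) : False := by
  obtain ⟨k, rfl⟩ : ∃ k, j = k + 1 := ⟨j - 1, by omega⟩
  have hk : 1 ≤ k := by omega
  have hkl : k < l := by omega
  obtain ⟨D, hD, h1⟩ : ∃ D : L, D ≠ 0 ∧ r ^ e = u ^ k * r ^ ((k + 1) * m) * D ^ l := by
    refine ⟨Y * (t / Y) ^ m * t₃ / t₁, ?_, ?_⟩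
    · exact div_ne_zero (mul_ne_zero (mul_ne_zero hY (pow_ne_zero _ (div_ne_zero ht hY))) ht₃) ht₁
    · have h2 : u * r ^ e * t₁ ^ l = u * (u ^ k * r ^ ((k + 1) * m) *
          (Y * (t / Y) ^ m * t₃) ^ l) := by
        rw [h]
        ring
      have h3 : r ^ e * t₁ ^ l = u ^ k * r ^ ((k + 1) * m) * (Y * (t / Y) ^ m * t₃) ^ l := by
        apply mul_left_cancel₀ hu
        rw [← h2]
        ring
      rw [div_pow (Y * (t / Y) ^ m * t₃), ← mul_div_assoc, ← h3, mul_div_assoc,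
        div_self (pow_ne_zero _ ht₁), mul_one]
  rcases Nat.le_total ((k + 1) * m) e with hle | hle
  · obtain ⟨d, rfl⟩ := Nat.exists_eq_add_of_le hle
    refine fin_step hl (d := d) hr hrH hu huH huT hD hk hkl ?_
    apply mul_left_cancel₀ (pow_ne_zero ((k + 1) * m) hr)
    rw [← pow_add, h1]
    ring
  · obtain ⟨d, hd⟩ := Nat.exists_eq_add_of_le hle
    have hrH' : r⁻¹ ∉ uP A l L := fun h2 => hrH (by
      have h3 := (mulSub_uP A l).inv _ h2
      rwa [inv_inv] at h3)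
    refine fin_step hl (d := d) (inv_ne_zero hr) hrH' hu huH huT hD hk hkl ?_
    rw [inv_pow]
    refine inv_eq_of_mul_eq_one_right ?_
    apply mul_left_cancel₀ (pow_ne_zero e hr)
    rw [mul_one, ← mul_assoc, ← pow_add, ← hd]
    conv_rhs => rw [h1]
    ring

end aux

variable {F L Ω : Type*} [Field F] [Field L] [Field Ω] [Algebra F L] [Algebra L Ω] [Algebra F Ω]
  [IsScalarTower F L Ω] [CharZero F] [IsAlgClosed Ω]

theorem rig_main (h : GPair F L Ω) {A : ValuationSubring F} (hA : HDVR A) {l : ℕ}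
    (hl : LGood A l) : Rig (powSet l L) (uP A l L) := by
  have hp := hl.prime
  have hodd : Odd l := hp.odd_of_ne_two hl.odd
  refine ⟨mulSub_powSet l, mulSub_uP A l, powSet_sub_uP A l, ?_, fun x hx => two_uP A hodd hx, ?_⟩
  · exact ⟨-1, neg_ne_zero.2 one_ne_zero, (hodd.neg_one_pow).symm⟩
  intro x hx hxH
  have hxl : ¬ ∃ y, y ^ l = x := by
    rintro ⟨y, rfl⟩
    apply hxH
    refine powSet_sub_uP A l ⟨y, ?_, rfl⟩
    rintro rfl
    exact hx (zero_pow hp.ne_zero)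
  obtain ⟨j, t, ht, hjl, h1⟩ : ∃ (j : ℕ) (t : L), t ≠ 0 ∧ j < l ∧ 1 + x = x ^ j * t ^ l := by
    obtain ⟨i, t, ht, h⟩ := one_add_class h hA hp hl.odd hl.dvd hxl
    refine ⟨i % l, x ^ (i / l) * t, mul_ne_zero (pow_ne_zero _ hx) ht, Nat.mod_lt _ hp.pos, ?_⟩
    rw [h, mul_pow, ← mul_assoc, ← pow_mul, ← pow_add, mul_comm (i / l) l, Nat.mod_add_div]
  rcases Nat.lt_or_ge j 2 with hj | hj
  · rcases Nat.lt_or_ge j 1 with hj' | hj'
    · left
      have hj0 : j = 0 := by omega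
      subst hj0
      exact ⟨t, ht, by rw [h1, pow_zero, one_mul]⟩
    · right
      have hj1 : j = 1 := by omega
      subst hj1
      refine ⟨t, ht, ?_⟩
      rw [h1, pow_one, mul_comm x, mul_assoc, mul_inv_cancel₀ hx, mul_one]
  exfalso
  obtain ⟨c, hc, hc1, hcn, y₀, hy₀⟩ := hl.cls j
  obtain ⟨hc0, hcA, hcA'⟩ := isUn_iff.1 hc
  obtain ⟨hu0, huA, huA'⟩ := isUn_iff.1 hc1
  have hinj := (algebraMap F L).injective
  have hcL : algebraMap F L c ≠ 0 := (map_ne_zero_iff _ hinj).2 hc0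
  have huL : algebraMap F L (1 + c) ≠ 0 := (map_ne_zero_iff _ hinj).2 hu0
  have hadd : algebraMap F L (1 + c) = 1 + algebraMap F L c := by rw [map_add, map_one]
  have hcY : algebraMap F L c = algebraMap F L (1 + c) ^ j * algebraMap F L y₀ ^ l := by
    conv_lhs => rw [hy₀]
    rw [map_mul, map_pow, map_pow]
  have hYL : algebraMap F L y₀ ≠ 0 := by
    intro h0
    rw [h0, zero_pow hp.ne_zero, mul_zero] at hcY
    exact hcL hcY
  set u := algebraMap F L (1 + c) with hu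
  set cL := algebraMap F L c with hcLdef
  set Y := algebraMap F L y₀ with hYdef
  have huH : u ∈ uP A l L := ⟨1 + c, hu0, huA, huA', 1, one_ne_zero, by rw [one_pow, mul_one]⟩
  have huT : u ∉ powSet l L := by
    rintro ⟨y, -, hy⟩
    obtain ⟨z, -, hz⟩ := pow_descend h hp.ne_zero (c := 1 + c) (y := y) hy
    exact hcn ⟨z, hz.symm⟩
  have hr0 : x / u ≠ 0 := div_ne_zero hx huL
  have hrH : x / u ∉ uP A l L := by
    intro h2
    apply hxH
    have h3 := (mulSub_uP A l).mul _ huH _ h2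
    rwa [mul_div_cancel₀ _ huL] at h3
  have hra : ¬ ∃ y, y ^ l = x / u := by
    rintro ⟨y, hy⟩
    apply hrH
    refine powSet_sub_uP A l ⟨y, ?_, hy.symm⟩
    rintro rfl
    rw [zero_pow hp.ne_zero] at hy
    exact hr0 hy.symm
  obtain ⟨e, t₁, ht₁, h2⟩ := add_class h hA hp hl.odd hl.dvd hx huL hra
  have hx1 : 1 + x ≠ 0 := by
    rw [h1]
    exact mul_ne_zero (pow_ne_zero _ hx) (pow_ne_zero _ ht)
  have hq : (1 + x) / cL = (x / u) ^ j * (t / Y) ^ l := by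
    rw [h1, hcY, div_pow, div_pow, mul_div_mul_comm]
  have hb : ¬ ∃ z, z ^ l = (1 + x) / cL := by
    rintro ⟨z, hz⟩
    have h3 : (x / u) ^ j ∈ powSet l L := by
      have htY : t / Y ≠ 0 := div_ne_zero ht hYL
      have h4 : (x / u) ^ j = (z / (t / Y)) ^ l := by
        rw [div_pow z, hz, hq, mul_div_assoc, div_self (pow_ne_zero _ htY), mul_one]
      refine ⟨_, ?_, h4⟩
      intro h5
      rw [h5, zero_pow hp.ne_zero] at h4
      exact pow_ne_zero _ hr0 h4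
    obtain ⟨y, -, hy⟩ := pow_mem_powSet (coprime_of_lt hp (by omega) hjl) hr0 h3
    exact hra ⟨y, hy.symm⟩
  obtain ⟨m, t₃, ht₃, h3⟩ := add_class h hA hp hl.odd hl.dvd hx1 hcL hb
  refine compare (A := A) hp (r := x / u) (u := u) (Y := Y) (t := t) (t₁ := t₁) (t₃ := t₃) (j := j)
    (e := e) (m := m) hr0 hrH huL huH huT hYL ht ht₁ ht₃ hj hjl ?_
  rw [← h2, ← hcY, ← hq, ← h3, hadd]
  ring

end Pool.Agent.Helper98.SA
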