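/-
SB block A, HN1: `LGood` passes to finite extensions of degree prime to `l`.

`E / F` finite, `l` prime to `[E : F]`, `ext hA E` the valuation ring of `E` over `A` (helper60).
dvd: `card_residue_pow`: the residue field of `ext hA E` has `q^f` elements, `l ∣ q - 1 ∣ q^f - 1`.
cls: take the same `c` (in `E`): `algebraMap F E c` and `1 + c` are units of `ext hA E` (`isUn_iff`,
`ext_map`).  If `1 + c = y^l` in `E`, then `(1 + c)^m = N(y)^l` with `m = [E:F]`
(`Algebra.norm_algebraMap`), so `1 + c` is an `l`-th power in `F` (`pow_mem_powSet`, CO3a, or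
Bezout), contradiction.  `c = (1+c)^j y^l` is mapped to `E`.
-/
import Mathlib
import Pool.Agent.Helper98.SA.CO3
import Pool.Agent.Helper60.SL.Resid

open Pool.Agent.Helper60.SL IsLocalRing

namespace Pool.Agent.Helper98.SA

theorem lgood_ext {F E : Type*} [Field F] [CharZero F] [Field E] [Algebra F E]
    [FiniteDimensional F E] {A : ValuationSubring F} (hA : HDVR A) {l : ℕ} (hl : LGood A l)
    (hc : Nat.Coprime (Module.finrank F E) l) : LGood (ext hA E) l := by
  have hun : ∀ x : F, IsUn A x → IsUn (ext hA E) (algebraMap F E x) := fun x hx =>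
    ⟨(ext_map hA x).2 hx.1, fun h => hx.2 ((ext_nonunits_map hA x).1 h)⟩
  refine ⟨hl.prime, hl.odd, ?_, fun j => ?_⟩
  · obtain ⟨f, _, hf⟩ := card_residue_pow hA E
    rw [hf]
    refine dvd_trans hl.dvd ?_
    have h1 := Nat.sub_dvd_pow_sub_pow (Nat.card (ResidueField A)) 1 f
    rwa [one_pow] at h1
  · obtain ⟨c, hc1, hc2, hn, y, hy⟩ := hl.cls j
    have hadd : 1 + algebraMap F E c = algebraMap F E (1 + c) := by rw [map_add, map_one]
    refine ⟨algebraMap F E c, hun c hc1, ?_, ?_, algebraMap F E y, ?_⟩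
    · rw [hadd]
      exact hun _ hc2
    · rintro ⟨z, hz⟩
      rw [hadd] at hz
      have h0 : 1 + c ≠ 0 := (isUn_iff.1 hc2).1
      have h1 : Algebra.norm F z ^ l = (1 + c) ^ Module.finrank F E := by
        rw [← map_pow, hz, Algebra.norm_algebraMap]
      have h2 : Algebra.norm F z ≠ 0 := by
        intro h3
        rw [h3, zero_pow hl.prime.ne_zero] at h1
        exact pow_ne_zero _ h0 h1.symm
      obtain ⟨w, _, hw⟩ := pow_mem_powSet (L := F) hc h0 ⟨_, h2, h1.symm⟩
      exact hn ⟨w, hw.symm⟩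
    · conv_lhs => rw [hy]
      rw [hadd, map_mul, map_pow, map_pow]

end Pool.Agent.Helper98.SA
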