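/-
SB block A, HN3: Hensel's lemma in the canonical ring for polynomials of degree `< l`.

`O` = the canonical ring of `(T, H) = (powSet l L, uP A l L)`.  Let `f` be monic, `natDegree f < l`,
coefficients in `O`, `a ∈ O`, `f(a) ∈ m`, `f'(a) ∉ m`.
`N` := a splitting field of `f` in `Ω` (`exists_splitting`, DEG.lean): `[N : L] ∣ (natDegree f)!`, so `[N:L]` is
prime to `l` (`Nat.Prime.dvd_factorial`).  `N = cmp L E` with `E / F` finite Galois (`descend`, GT06),
`[E:F] = [N:L]` (`cmp_finrank`).  `LGood (ext hA E) l` (HN1), `ext_hdvr`, `GPair E (cmp L E) Ω` (GT05), so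
`Rig (powSet l N) (uP (ext hA E) l N)` (`rig_main`, CO3), and `O'` := its canonical ring (`exists_canon`, TH4).
`canon_comap` (CMP.lean) applies: hypotheses by HN2 (`powSet_comap`, `uP_comap`, `powSet_gal`, `gal_div`), and
`hd`: `pow_mem_uP` (CO3a).  `O'` is stable under `Gal(N/L)`: `oring_inv` (CMP.lean) with `powSet_gal`, `uP_gal`.
So `hensel_of_inv` (HL.lean) gives the root.
-/
import Mathlib
import Pool.Agent.Helper98.SA.CMP
import Pool.Agent.Helper98.SA.HL
import Pool.Agent.Helper98.SA.DEG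
import Pool.Agent.Helper98.SA.HN1
import Pool.Agent.Helper98.SA.HN2

open Pool.Agent.Helper60.SL IsLocalRing

namespace Pool.Agent.Helper98.SA

variable {F L Ω : Type*} [Field F] [Field L] [Field Ω] [Algebra F L] [Algebra L Ω] [Algebra F Ω]
  [IsScalarTower F L Ω] [CharZero F] [IsAlgClosed Ω]

theorem canon_hensel (h : GPair F L Ω) {A : ValuationSubring F} (hA : HDVR A) {l : ℕ}
    (hl : LGood A l) (O : ValuationSubring L)
    (hO : ∀ x, x ∈ O ↔ x ∈ oring (powSet l L) (uP A l L))
    (f : Polynomial L) (hf : f.Monic) (hd : f.natDegree < l) (hfO : ∀ i, f.coeff i ∈ O)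
    (a : L) (ha : a ∈ O) (h0 : O.valuation (f.eval a) < 1)
    (h1 : O.valuation (f.derivative.eval a) = 1) :
    ∃ x : L, f.eval x = 0 ∧ O.valuation (x - a) < 1 := by
  have hcL : CharZero L := charZero_of_injective_algebraMap (algebraMap F L).injective
  obtain ⟨N, hfd, hgal, hsp, hdiv⟩ := exists_splitting (Ω := Ω) f hf.ne_zero
  obtain ⟨E, hEf, hEg, rfl⟩ := descend h N
  have hrank := cmp_finrank h E
  have hc : Nat.Coprime (Module.finrank F E) l := by
    rw [hrank] at hdiv
    refine Nat.Coprime.coprime_dvd_left hdiv ?_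
    rw [Nat.coprime_comm, hl.prime.coprime_iff_not_dvd, hl.prime.dvd_factorial]
    omega
  have hcE : CharZero E := charZero_of_injective_algebraMap (algebraMap F E).injective
  have hG := gpair_cmp h E
  have hA' : HDVR (ext hA E) := ext_hdvr hA E
  have hl' : LGood (ext hA E) l := lgood_ext hA hl hc
  have hR := rig_main h hA hl
  have hR' := rig_main hG hA' hl'
  obtain ⟨O', hO'⟩ := exists_canon hR'
  have hcc : ∀ x : L, algebraMap L (cmp L E) x ∈ O' ↔ x ∈ O := by
    refine canon_comap hR hR' O hO O' hO' (powSet_comap h E hc) (uP_comap h hA E hc)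
      (fun g x hx => (powSet_gal (g : cmp L E ≃+* cmp L E) x).2 hx)
      (fun g x hx => gal_div h hA hl.prime.ne_zero E g hx) ?_
    intro x hx
    have hx0 : x ≠ 0 := by
      rintro rfl
      rw [zero_pow (ne_of_gt Module.finrank_pos)] at hx
      exact (mulSub_uP (L := cmp L E) (ext hA E) l).zero hx
    rw [hrank] at hx
    exact pow_mem_uP (ext hA E) hc hx hx0
  have hg : ∀ g : cmp L E ≃ₐ[L] cmp L E, ∀ x ∈ O', g x ∈ O' := by
    intro g x hx
    exact (hO' _).2 ((oring_inv (g : cmp L E ≃+* cmp L E)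
      (fun x => powSet_gal (g : cmp L E ≃+* cmp L E) x) (fun x => uP_gal h hA E g x) x).2
        ((hO' x).1 hx))
  exact hensel_of_inv O O' hcc hg f hf hfO hsp a ha h0 h1

end Pool.Agent.Helper98.SA
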