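/-
SB block A, W2: the residue field of `O` is perfect: every unit `b` of `O` is `g^p (1 + m)`.

`s : Setup F L Ω A l p O`.  `p` is a nonunit of `O` (`comap_nonunits`, W1: `p` is a nonunit of `A` as the residue
field of `A` has characteristic `p`).
(1) finiteness: there is a finite set `S` of nonzero elements of `L` such that every `x ∈ L^*` is `s y^p`, `s ∈ S`:
    `kummer` (GT07, `n = p`) and helper60 `finite_mod_pow` (`n = p`).
(2) `perfect_of_finite` (pure algebra): `κ` field of characteristic `p`, `S` finite, every nonzero `x` is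
    `s y^p`, `s ∈ S`.  Then every `t` is a `p`-th power.  Suppose `t` is not.  For `c ∈ κ`: `t + c^p ≠ 0` (otherwise
    `t = (-c)^p`, characteristic `p`).  Choose `s(c) ∈ S` with `t + c^p = s(c) y^p`.  If `s(c) = s(c')` then
    `t + c^p = (t + c'^p) z^p`, `z = y / y'`.  If `z^p ≠ 1`: `t = (c'^p z^p - c^p)/(1 - z^p) = ((c' z - c)/(1 - z))^p`
    (Frobenius; `1 - z^p = (1 - z)^p`), contradiction.  So `z^p = 1` and `c^p = c'^p`, `c = c'`.  So `c ↦ s(c)` is
    injective and `κ` is finite; then Frobenius is bijective and `t` is a `p`-th power, contradiction.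
(3) `unit_pth`: `κ = ResidueField O`, characteristic `p` by `p_nonunit`.  The set `S_κ`: for every `s` in the set `S` of (1) for
    which there is a unit `b_s` of `O` of the form `s y_s^p` choose one, `S_κ` = their classes.  If `b` is any unit of `O`,
    `b = s y^p = b_s (y / y_s)^p` and `y / y_s` is a unit of `O` (`isUn_of_pow`).  So (2) applies:
    the class of `b` is the `p`-th power of the class of some `g ∈ O`, `g` is a unit, `m := b / g^p - 1` is a nonunit.
-/
import Mathlib
import Pool.Agent.Helper98.SA.W1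
import Pool.Agent.Helper98.SA.GT07

open Pool.Agent.Helper60.SL IsLocalRing

namespace Pool.Agent.Helper98.SA

variable {F L Ω : Type*} [Field F] [Field L] [Field Ω] [Algebra F L] [Algebra L Ω] [Algebra F Ω]
  [IsScalarTower F L Ω] [CharZero F] [IsAlgClosed Ω] {A : ValuationSubring F} {l p : ℕ}
  {O : ValuationSubring L}

/-- purely algebraic statement behind W2 -/
theorem perfect_of_finite {κ : Type*} [Field κ] {p : ℕ} [Fact p.Prime] [CharP κ p]
    (S : Finset κ) (hS : ∀ x : κ, x ≠ 0 → ∃ s ∈ S, ∃ y : κ, y ≠ 0 ∧ x = s * y ^ p) (t : κ) :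
    ∃ y, y ^ p = t := by
  classical
  by_contra hcon
  push Not at hcon
  have hfr : ∀ a b : κ, a ^ p = b ^ p → a = b := fun a b h => frobenius_inj κ p h
  have hne : ∀ c : κ, t + c ^ p ≠ 0 := by
    intro c h0
    apply hcon (-c)
    have h1 : (-c) ^ p = -(c ^ p) := by
      have := map_neg (frobenius κ p) c
      simpa only [frobenius_def] using this
    rw [h1]
    linear_combination -h0
  choose f hfS g hg0 hfg using fun c => hS (t + c ^ p) (hne c)
  have hinj : Function.Injective f := by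
    intro c c' h
    have e1 := hfg c
    have e2 := hfg c'
    rw [← h] at e2
    by_cases hz : (g c / g c') ^ p = 1
    · apply hfr
      have h3 : g c ^ p = g c' ^ p := by
        rw [div_pow, div_eq_one_iff_eq (pow_ne_zero _ (hg0 c'))] at hz
        exact hz
      rw [h3, ← e2] at e1
      exact add_left_cancel e1
    · exfalso
      have h3 : (1 : κ) - (g c / g c') ^ p ≠ 0 := sub_ne_zero.mpr (Ne.symm hz)
      have h4 : (1 : κ) - (g c / g c') ^ p = (1 - g c / g c') ^ p := by
        rw [sub_pow_char, one_pow]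
      have h5 : (c' * (g c / g c') - c) ^ p = c' ^ p * (g c / g c') ^ p - c ^ p := by
        rw [sub_pow_char, mul_pow]
      apply hcon ((c' * (g c / g c') - c) / (1 - g c / g c'))
      rw [div_pow, ← h4, h5, div_eq_iff h3]
      have h6 : (t + c ^ p) = (t + c' ^ p) * (g c / g c') ^ p := by
        rw [e1, e2, div_pow]
        have := pow_ne_zero p (hg0 c')
        field_simp
      linear_combination -h6
  have hfin : Finite κ := by
    have : Function.Injective (fun c : κ => (⟨f c, hfS c⟩ : S)) := by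
      intro a b h
      exact hinj (congrArg Subtype.val h)
    exact Finite.of_injective _ this
  have hsurj : Function.Surjective (frobenius κ p) :=
    Finite.injective_iff_surjective.mp (frobenius_inj κ p)
  obtain ⟨y, hy⟩ := hsurj t
  exact hcon y hy

theorem p_nonunit (s : Setup F L Ω A l p O) : (p : L) ∈ O.nonunits := by
  have h1 : ((p : ℕ) : F) ∈ A.nonunits := by
    have h2 : (((p : ℕ) : A) : F) ∈ A.nonunits := by
      rw [ValuationSubring.coe_mem_nonunits_iff, ← residue_eq_zero_iff, map_natCast]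
      have := s.chr
      exact CharP.cast_eq_zero _ p
    simpa using h2
  have h2 := (comap_nonunits s ((p : ℕ) : F)).2 h1
  rwa [map_natCast] at h2

private theorem W2_un {x : L} : IsUn O x ↔ ∃ h : x ∈ O, residue O ⟨x, h⟩ ≠ 0 := by
  constructor
  · rintro ⟨h1, h2⟩
    refine ⟨h1, fun h3 => h2 ?_⟩
    rw [residue_eq_zero_iff] at h3
    exact ValuationSubring.mem_nonunits_iff_exists_mem_maximalIdeal.mpr ⟨h1, h3⟩
  · rintro ⟨h1, h2⟩
    refine ⟨h1, fun h3 => h2 ?_⟩
    obtain ⟨h4, h5⟩ := ValuationSubring.mem_nonunits_iff_exists_mem_maximalIdeal.mp h3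
    exact (residue_eq_zero_iff _).mpr h5

theorem unit_pth (s : Setup F L Ω A l p O) {b : L} (hb : IsUn O b) :
    ∃ g m : L, IsUn O g ∧ m ∈ O.nonunits ∧ b = g ^ p * (1 + m) := by
  classical
  have hp := s.pp
  have : Fact p.Prime := ⟨hp⟩
  have hchar : CharP (ResidueField O) p := by
    rw [CharP.charP_iff_prime_eq_zero hp]
    have h1 : (((p : ℕ) : O) : L) ∈ O.nonunits := by simpa using p_nonunit s
    rw [ValuationSubring.coe_mem_nonunits_iff, ← residue_eq_zero_iff, map_natCast] at h1
    exact h1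
  obtain ⟨S, hS0, hS⟩ := finite_mod_pow s.hdvr hp.ne_zero
  let P : F → L → Prop := fun σ β => IsUn O β ∧ ∃ y : L, y ≠ 0 ∧ β = algebraMap F L σ * y ^ p
  let r : F → ResidueField O := fun σ =>
    if h : ∃ β, P σ β then residue O ⟨h.choose, h.choose_spec.1.1⟩ else 0
  have hmain : ∀ β : L, IsUn O β → ∃ σ ∈ S, ∃ w : L, IsUn O w ∧
      ∃ β' : L, ∃ h' : IsUn O β', r σ = residue O ⟨β', h'.1⟩ ∧ β = β' * w ^ p := by
    intro β hβ
    have hβ0 : β ≠ 0 := (isUn_iff.1 hβ).1
    obtain ⟨c, y, hc, hy, e⟩ := kummer s.gp hp.ne_zero hβ0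
    obtain ⟨σ, hσ, z, hz, e'⟩ := hS c hc
    have hz' : algebraMap F L z ≠ 0 := by
      rw [Ne, map_eq_zero]
      exact hz
    have hσ' : algebraMap F L σ ≠ 0 := by
      rw [Ne, map_eq_zero]
      exact hS0 σ hσ
    have hex : ∃ β, P σ β := ⟨β, hβ, algebraMap F L z * y, mul_ne_zero hz' hy, by
      rw [e, e', map_mul, map_pow]; ring⟩
    have hr : r σ = residue O ⟨hex.choose, hex.choose_spec.1.1⟩ := dif_pos hex
    obtain ⟨h1, y', hy', h2⟩ := hex.choose_spec
    have h4 : β = hex.choose * ((algebraMap F L z * y) / y') ^ p := by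
      have h7 := pow_ne_zero p hy'
      have h8 : β = algebraMap F L σ * (algebraMap F L z * y) ^ p := by
        rw [e, e', map_mul, map_pow]; ring
      have h9 : algebraMap F L σ * (algebraMap F L z * y) ^ p =
          (algebraMap F L σ * y' ^ p) * ((algebraMap F L z * y) / y') ^ p := by
        rw [div_pow, mul_assoc, mul_div_cancel₀ _ h7]
      exact h8.trans (h9.trans (congrArg (· * ((algebraMap F L z * y) / y') ^ p) h2.symm))
    refine ⟨σ, hσ, (algebraMap F L z * y) / y', ?_, hex.choose, h1, hr, h4⟩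
    apply isUn_of_pow hp.ne_zero
    have h5 : ((algebraMap F L z * y) / y') ^ p = β * (hex.choose)⁻¹ := by
      rw [eq_mul_inv_iff_mul_eq₀ (isUn_iff.1 h1).1, mul_comm]
      exact h4.symm
    rw [h5]
    exact hβ.mul h1.inv
  have hperf := perfect_of_finite (κ := ResidueField O) (p := p) (S.image r) (by
    intro x hx
    obtain ⟨⟨β, hβO⟩, rfl⟩ := residue_surjective (R := O) x
    obtain ⟨σ, hσ, w, hw, β', h', hr, e⟩ := hmain β (W2_un.mpr ⟨hβO, hx⟩)
    obtain ⟨hwO, hw0⟩ := W2_un.mp hw
    refine ⟨r σ, Finset.mem_image_of_mem r hσ, residue O ⟨w, hwO⟩, hw0, ?_⟩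
    rw [hr, ← map_pow, ← map_mul]
    congr 1
    exact Subtype.ext e)
  obtain ⟨y, hy⟩ := hperf (residue O ⟨b, hb.1⟩)
  obtain ⟨⟨g, hgO⟩, rfl⟩ := residue_surjective (R := O) y
  obtain ⟨hb1, hb2⟩ := W2_un.mp hb
  have hg : IsUn O g := W2_un.mpr ⟨hgO, fun h0 => by
    rw [h0, zero_pow hp.ne_zero] at hy
    exact hb2 hy.symm⟩
  have hg0 : g ≠ 0 := (isUn_iff.1 hg).1
  have hq : IsUn O (b * (g ^ p)⁻¹) := hb.mul (hg.pow p).inv
  refine ⟨g, b * (g ^ p)⁻¹ - 1, hg, ?_, ?_⟩
  · rw [ValuationSubring.mem_nonunits_iff_exists_mem_maximalIdeal]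
    refine ⟨sub_mem hq.1 O.one_mem, ?_⟩
    rw [← residue_eq_zero_iff]
    have h1 : (⟨b * (g ^ p)⁻¹ - 1, sub_mem hq.1 O.one_mem⟩ : O) =
        ⟨b * (g ^ p)⁻¹, hq.1⟩ - 1 := rfl
    rw [h1, map_sub, map_one, sub_eq_zero]
    have h2 : residue O ⟨b * (g ^ p)⁻¹, hq.1⟩ * residue O (⟨g, hgO⟩ ^ p) =
        residue O ⟨b, hb.1⟩ := by
      rw [← map_mul]
      congr 1
      apply Subtype.ext
      show b * (g ^ p)⁻¹ * g ^ p = b
      rw [inv_mul_cancel_right₀ (pow_ne_zero p hg0)]
    rw [map_pow, hy] at h2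
    exact mul_right_cancel₀ hb2 (h2.trans (one_mul _).symm)
  · have := pow_ne_zero p hg0
    rw [add_sub_cancel, mul_comm b, mul_inv_cancel_left₀ this]

end Pool.Agent.Helper98.SA
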