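/-
SB block A, W3: the value of `π` is not divisible by `p` in the value group of `O`.

`s : Setup F L Ω A l p O`, `π` a uniformizer of `A`.  Suppose `π = a^p b`, `a, b ∈ L`, `b` a unit of `O`.
`unit_pth` (W2): `b = g^p (1 + m)`, so `π = (a g)^p (1 + m)`.
helper60 `exists_unram_trace` with `n = p` (inside `Ω`): `E / F` Galois of degree `p`,
`lam ∈ ext hA E` with trace 1 and norm a unit of `A`, and `N_{E/F}(x) = π^{p k} u` for all `x ∈ E^*`.
`M := cmp L E`, Galois over `L` of degree `p` (GT02).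
(1) `1 + m = N_{M/L}(1 + lam x)` for some `x ∈ L` (in fact a nonunit of `O`).  Let
    `P(X) = ∏_{h ∈ Gal(E/F)} (1 + h(lam) X)`, a polynomial with coefficients in `F`, even in `A`
    (they are integral over `A` and invariant), `P(0) = 1`, linear coefficient `Tr lam = 1`, degree `p` with
    leading coefficient `N(lam)`, a unit of `A`.  `f := (P - (1 + m)) / N(lam)` over `L` is monic of degree `p < l` with
    coefficients in `O` (`comap`, W1), `f(0) = -m / N(lam)` nonunit, `f'(0) = 1 / N(lam)` unit.  `canon_hensel` (HN3) gives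
    `x ∈ L` with `f(x) = 0`, and `P(x) = ∏_h (1 + h(lam) x) = N_{M/L}(1 + lam x)`
    (`Algebra.norm_eq_prod_automorphisms` and `cmp_restr`: `Gal(M/L) = Gal(E/F)`).
    In Lean: `P` may be defined as the reverse of `X^p`-homogenised characteristic polynomial of `-lam`, or simply as the
    product over the finite group `E ≃ₐ[F] E`, mapped from `E[X]` to `M[X]`, and then shown to be the image of a
    polynomial over `A` by invariance; see `norm_poly` in W3a.
(2) So `π = N_{M/L}(w)`, `w = a g (1 + lam x) ∈ M^*` (`N(a g) = (a g)^p`).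
(3) `kummer` (GT07, `n = p`) for `GPair E M Ω` (GT05): `w = c y^p`, `c ∈ E^*`, `y ∈ M^*`.  So
    `π = N(c) N(y)^p` with `N_{M/L}(c) = N_{E/F}(c) = π^{p k} u` (`norm_cmp`, GT03), `u` a unit of `A`.  So
    `π / (π^{pk} u) = N(y)^p ∈ F`, so `N(y) ∈ F` (`pow_descend`, GT08), `N(y) = π^i u'` (`exists_zpow`) and
    `π^{1 - p k - p i}` is a unit, so `1 = p (k + i)` (`zpow_isUn`): contradiction.
-/
import Mathlib
import Pool.Agent.Helper98.SA.W2
import Pool.Agent.Helper98.SA.HN3
import Pool.Agent.Helper98.SA.W3a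
import Pool.Agent.Helper60.SL.UnramP

open Pool.Agent.Helper60.SL IsLocalRing

namespace Pool.Agent.Helper98.SA

variable {F L Ω : Type*} [Field F] [Field L] [Field Ω] [Algebra F L] [Algebra L Ω] [Algebra F Ω]
  [IsScalarTower F L Ω] [CharZero F] [IsAlgClosed Ω] {A : ValuationSubring F} {l p : ℕ}
  {O : ValuationSubring L}

/-- every `1 + m` is a norm from `L E`, `E / F` unramified of degree `p` -/
theorem one_add_norm (s : Setup F L Ω A l p O) (E : IntermediateField F Ω)
    [FiniteDimensional F E] [IsGalois F E] (hE : Module.finrank F E = p) {lam : E}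
    (hlam : lam ∈ ext s.hdvr E) (htr : Algebra.trace F E lam = 1)
    (hnm : IsUn A (Algebra.norm F lam)) {m : L} (hm : m ∈ O.nonunits) :
    ∃ w : cmp L E, Algebra.norm L w = 1 + m := by
  classical
  have : FiniteDimensional L (cmp L E) := cmp_finite E
  have : IsGalois L (cmp L E) := cmp_galois E
  obtain ⟨r, hr⟩ := cmp_restr s.gp E
  obtain ⟨P, hPA, hPd, hP0, hP1, hPn, hPm⟩ := norm_poly s.hdvr hlam
  rw [hE] at hPd hPn
  rw [htr] at hP1
  have hp0 : p ≠ 0 := s.pp.ne_zero
  obtain ⟨N, hN⟩ : ∃ N : F, N = Algebra.norm F lam := ⟨_, rfl⟩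
  rw [← hN] at hnm hPn
  obtain ⟨hN0, hNA, hNi⟩ := isUn_iff.1 hnm
  obtain ⟨c, hc⟩ : ∃ c : L, c = algebraMap F L N⁻¹ := ⟨_, rfl⟩
  have hcO : c ∈ O := by
    rw [hc]
    exact (comap s _).2 hNi
  have hcN : c * algebraMap F L N = 1 := by
    rw [hc, ← map_mul, inv_mul_cancel₀ hN0, map_one]
  have hciO : c⁻¹ ∈ O := by
    rw [inv_eq_of_mul_eq_one_right hcN]
    exact (comap s _).2 hNA
  have hc0 : c ≠ 0 := left_ne_zero_of_mul_eq_one hcN
  have hcv : O.valuation c = 1 := by
    have h1 : O.valuation c ≤ 1 := (O.valuation_le_one_iff c).2 hcO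
    have h2 : O.valuation c⁻¹ ≤ 1 := (O.valuation_le_one_iff _).2 hciO
    have h3 : O.valuation c * O.valuation c⁻¹ = 1 := by
      rw [← map_mul, mul_inv_cancel₀ hc0, map_one]
    refine le_antisymm h1 ?_
    calc (1 : _) = O.valuation c * O.valuation c⁻¹ := h3.symm
      _ ≤ O.valuation c * 1 := mul_le_mul_right h2 _
      _ = O.valuation c := mul_one _
  have hmO : m ∈ O := ValuationSubring.nonunits_le hm
  have h1m : 1 + m ∈ O := O.add_mem _ _ O.one_mem hmO
  obtain ⟨f, hf⟩ : ∃ f : Polynomial L, f = Polynomial.C c *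
      (P.map (algebraMap F L) - Polynomial.C (1 + m)) := ⟨_, rfl⟩
  have hfc : ∀ i, f.coeff i = c * (algebraMap F L (P.coeff i) - if i = 0 then 1 + m else 0) := by
    intro i
    rw [hf, Polynomial.coeff_C_mul, Polynomial.coeff_sub, Polynomial.coeff_map,
      Polynomial.coeff_C]
  have hfO : ∀ i, f.coeff i ∈ O := by
    intro i
    rw [hfc]
    refine O.mul_mem _ _ hcO (sub_mem ((comap s _).2 (hPA i)) ?_)
    split_ifs
    · exact h1m
    · exact O.zero_mem
  have hfd : f.natDegree ≤ p := by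
    rw [hf]
    refine (Polynomial.natDegree_C_mul_le _ _).trans ?_
    refine (Polynomial.natDegree_sub_le _ _).trans (max_le ?_ ?_)
    · exact Polynomial.natDegree_map_le.trans hPd
    · rw [Polynomial.natDegree_C]
      exact Nat.zero_le _
  have hfp : f.coeff p = 1 := by
    rw [hfc, if_neg hp0, sub_zero, hPn, hcN]
  have hfm : f.Monic := Polynomial.monic_of_natDegree_le_of_coeff_eq_one p hfd hfp
  have he0 : f.eval 0 = c * (-m) := by
    rw [← Polynomial.coeff_zero_eq_eval_zero, hfc, if_pos rfl, hP0, map_one]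
    congr 1
    ring
  have he1 : f.derivative.eval 0 = c := by
    rw [← Polynomial.coeff_zero_eq_eval_zero, Polynomial.coeff_derivative, hfc, zero_add,
      if_neg one_ne_zero, hP1, map_one, sub_zero, mul_one, Nat.cast_zero, zero_add, mul_one]
  obtain ⟨x, hx, -⟩ := canon_hensel s.gp s.hdvr s.lg O s.mem f hfm (lt_of_le_of_lt hfd s.lt) hfO 0
    O.zero_mem (by
      rw [he0, map_mul, hcv, one_mul, Valuation.map_neg]
      exact O.mem_nonunits_iff.1 hm) (by rw [he1, hcv])
  have hPx : (P.map (algebraMap F L)).eval x = 1 + m := by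
    rw [hf, Polynomial.eval_mul, Polynomial.eval_C, Polynomial.eval_sub, Polynomial.eval_C] at hx
    exact sub_eq_zero.1 ((mul_eq_zero.1 hx).resolve_left hc0)
  refine ⟨1 + algebraMap E (cmp L E) lam * algebraMap L (cmp L E) x, ?_⟩
  apply (algebraMap L (cmp L E)).injective
  rw [Algebra.norm_eq_prod_automorphisms]
  have h1 : ∀ g : cmp L E ≃ₐ[L] cmp L E,
      g (1 + algebraMap E (cmp L E) lam * algebraMap L (cmp L E) x) =
        1 + algebraMap E (cmp L E) (r g lam) * algebraMap L (cmp L E) x := by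
    intro g
    rw [map_add, map_one, map_mul, AlgEquiv.commutes, hr]
  rw [Finset.prod_congr rfl (fun g _ => h1 g)]
  have h2 : ∏ g : cmp L E ≃ₐ[L] cmp L E,
      (1 + algebraMap E (cmp L E) (r g lam) * algebraMap L (cmp L E) x) =
      ∏ h : E ≃ₐ[F] E, (1 + algebraMap E (cmp L E) (h lam) * algebraMap L (cmp L E) x) :=
    Fintype.prod_equiv r.toEquiv _ _ (fun g => rfl)
  rw [h2]
  have h3 := congrArg (Polynomial.eval₂ (algebraMap E (cmp L E)) (algebraMap L (cmp L E) x)) hPm
  rw [Polynomial.eval₂_map, Polynomial.eval₂_finsetProd] at h3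
  have h4 : ∏ h : E ≃ₐ[F] E, Polynomial.eval₂ (algebraMap E (cmp L E))
      (algebraMap L (cmp L E) x) (1 + Polynomial.C (h lam) * Polynomial.X) =
      ∏ h : E ≃ₐ[F] E, (1 + algebraMap E (cmp L E) (h lam) * algebraMap L (cmp L E) x) := by
    refine Finset.prod_congr rfl (fun h _ => ?_)
    rw [Polynomial.eval₂_add, Polynomial.eval₂_one, Polynomial.eval₂_mul, Polynomial.eval₂_C,
      Polynomial.eval₂_X]
  rw [h4] at h3
  rw [← h3, ← hPx]
  have h5 : (algebraMap E (cmp L E)).comp (algebraMap F E) =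
      (algebraMap L (cmp L E)).comp (algebraMap F L) := by
    rw [← IsScalarTower.algebraMap_eq F E (cmp L E), ← IsScalarTower.algebraMap_eq F L (cmp L E)]
  rw [h5, ← Polynomial.eval₂_map, Polynomial.eval₂_at_apply]

theorem pi_not_pth (s : Setup F L Ω A l p O) {π : F} (hπ : IsUnif A π) {a b : L}
    (hb : IsUn O b) : algebraMap F L π ≠ a ^ p * b := by
  intro hab
  have hp0 : p ≠ 0 := s.pp.ne_zero
  obtain ⟨g, m, hg, hm, hbg⟩ := unit_pth s hb
  obtain ⟨E, hEf, hEg, φ, hrank, -, -, ⟨lam, hlam, htr, hnm⟩, hnorm⟩ :=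
    exists_unram_trace (Ω := Ω) s.hdvr hp0
  obtain ⟨w0, hw0⟩ := one_add_norm s E hrank hlam htr hnm hm
  have : FiniteDimensional L (cmp L E) := cmp_finite E
  have : IsGalois L (cmp L E) := cmp_galois E
  have : CharZero E := charZero_of_injective_algebraMap (algebraMap F E).injective
  have hMr : Module.finrank L (cmp L E) = p := by rw [cmp_finrank s.gp E, hrank]
  have hπ0 : π ≠ 0 := hπ.ne
  have hπL : algebraMap F L π ≠ 0 := fun h0 =>
    hπ0 ((algebraMap F L).injective (by rw [h0, map_zero]))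
  obtain ⟨w, hwdef⟩ : ∃ w : cmp L E, w = algebraMap L (cmp L E) (a * g) * w0 := ⟨_, rfl⟩
  have hw : Algebra.norm L w = algebraMap F L π := by
    rw [hwdef, map_mul, Algebra.norm_algebraMap, hMr, hw0, hab, hbg]
    ring
  have hwne : w ≠ 0 := by
    intro h0
    rw [h0, Algebra.norm_zero] at hw
    exact hπL hw.symm
  obtain ⟨c, y, hc, hy, hwc⟩ := kummer (gpair_cmp s.gp E) hp0 hwne
  obtain ⟨k, u, hu, hcn⟩ := hnorm π hπ c hc
  have hu0 : u ≠ 0 := (isUn_iff.1 hu).1
  have h1 : algebraMap F L π =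
      algebraMap F L (π ^ ((p : ℤ) * k) * u) * (Algebra.norm L y) ^ p := by
    rw [← hw, hwc, map_mul, norm_cmp s.gp E, map_pow, hcn]
  have hq0 : π ^ ((p : ℤ) * k) * u ≠ 0 := mul_ne_zero (zpow_ne_zero _ hπ0) hu0
  have h2 : algebraMap F L (π / (π ^ ((p : ℤ) * k) * u)) = (Algebra.norm L y) ^ p := by
    rw [map_div₀, h1, mul_div_cancel_left₀]
    intro h0
    exact hq0 ((algebraMap F L).injective (by rw [h0, map_zero]))
  obtain ⟨z, -, hz⟩ := pow_descend s.gp hp0 h2
  have hz0 : z ≠ 0 := by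
    rintro rfl
    rw [zero_pow hp0] at hz
    exact (div_ne_zero hπ0 hq0) hz
  obtain ⟨i, u', hu', hzi⟩ := exists_zpow s.hdvr.dvr hπ hz0
  have hu'0 : u' ≠ 0 := (isUn_iff.1 hu').1
  have h3 : π ^ (1 - (p : ℤ) * k - (p : ℤ) * i) = u * u' ^ p := by
    rw [div_eq_iff hq0, hzi, mul_pow, ← zpow_natCast (π ^ i) p, ← zpow_mul] at hz
    rw [zpow_sub₀ hπ0, zpow_sub₀ hπ0, zpow_one, mul_comm (p : ℤ) i]
    rw [div_div, div_eq_iff (mul_ne_zero (zpow_ne_zero _ hπ0) (zpow_ne_zero _ hπ0))]
    nth_rewrite 1 [hz]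
    ring
  have h4 : IsUn A (π ^ (1 - (p : ℤ) * k - (p : ℤ) * i)) := by
    rw [h3]
    exact hu.mul (hu'.pow p)
  have h5 := zpow_isUn hπ h4
  have h6 : (p : ℤ) ∣ 1 := ⟨k + i, by linear_combination h5⟩
  have h7 : p ∣ 1 := by exact_mod_cast h6
  exact s.pp.one_lt.ne' (Nat.dvd_one.1 h7)

end Pool.Agent.Helper98.SA
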