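/-
SB block A, W4: `π` is a uniformizer of `O` (as far as divisibility goes) and `O = A + π O`.

`s : Setup F L Ω A l p O`, `π` a uniformizer of `A`; write `π` also for its image in `L`.
(1) `binom`: in any commutative ring, `p` prime: `(1 + w)^p - 1 = w^p + p w e` with `e` in the subring
    generated by `w` (all middle binomial coefficients are divisible by `p`); here for `w ∈ O`: `e ∈ O`.
(2) `pow_pi`: if `π^k = a^p b` with `k : ℤ`, `b` a unit of `O`, then `p ∣ k`: otherwise `k r + p t = 1` (Bezout, integers) and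
    `π = (π^k)^r (π^t)^p = (a^r π^t)^p b^r`, contradiction to `pi_not_pth` (W3).
(3) `form`: `z` a nonunit of `O`.  Then `1 + z = (1 + π d) (1 + w)^p` with `d ∈ A`, `w` a nonunit of `O`.
    `kummer` (GT07, `n = p`): `1 + z = c y^p`, `c ∈ F^*`, `c = π^k u` (`exists_zpow`), `u` a unit of `A`.  `1 + z` is a
    unit of `O`, `u` is a unit of `O` (`comap`, W1), so `π^k = (y⁻¹)^p * unit` and `p ∣ k` by (2), `k = p k'`.
    `u = c₀^p (1 + π d)` (`exists_pth`).  So `1 + z = (1 + π d) Y^p`, `Y = c₀ π^{k'} y`.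
    `Y^p = (1 + z)/(1 + π d) ∈ 1 + m_O`, so `Y` is a unit and in the residue field `κ` (characteristic `p`,
    `p_nonunit`, W2) `(Y - 1)^p = Y^p - 1 = 0`, so `w := Y - 1` is a nonunit of `O`.  (Without residue fields: `Y ∈ O`,
    `(Y - 1)^p = Y^p - 1 + p(...)` is a nonunit.)
(4) `nonunit_pth`: `z ≠ 0` a nonunit of `O` with `π / z` a nonunit of `O`: `z = w^p * unit`.  By (3), (1):
    `z = π d + (1 + π d)((1+w)^p - 1) = (1+w)^p - 1 + π d (1+w)^p = w^p + π g`, `g = (p/π) w e + d (1+w)^p ∈ O`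
    (`p / π ∈ A`, `hπ.gen`).  `w^p = z (1 - (π/z) g)` and `1 - (π/z) g` is a unit of `O`.
(5) `pi_unif`: `IsUnif O π`.  `π ≠ 0`, nonunit by W1.  `x` a nonunit; suppose `x / π ∉ O`; then `x ≠ 0` and `π / x` is a
    nonunit.  (4) for `z = x` and for `z = π / x` (`π / (π / x) = x`): `x = w^p u`, `π/x = w'^p u'`, so
    `π = (w w')^p (u u')`, contradiction to `pi_not_pth`.
(6) `digit`: `x ∈ O`.  (3) for `z = π x`: `1 + π x = (1 + π d)(1+w)^p`, `w = π w'` with `w' ∈ O` by (5).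
    `(1+w)^p - 1 = w^p + p w e = π^2 g`, `g ∈ O` (`p ≥ 2`).  `π x = π d + (1 + π d) π^2 g`, `x = d + π (1 + π d) g`.
-/
import Mathlib
import Pool.Agent.Helper98.SA.W3

open Pool.Agent.Helper60.SL IsLocalRing

namespace Pool.Agent.Helper98.SA

section aux

variable {K : Type*} [Field K] {O : ValuationSubring K}

private theorem W4_mem {x : K} : x ∈ O ↔ O.valuation x ≤ 1 := (O.valuation_le_one_iff x).symm

private theorem W4_non {x : K} : x ∈ O.nonunits ↔ O.valuation x < 1 :=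
  ValuationSubring.mem_nonunits_iff O

private theorem W4_un {x : K} : IsUn O x ↔ O.valuation x = 1 := by
  unfold IsUn
  rw [W4_mem, W4_non, not_lt]
  exact ⟨fun h => le_antisymm h.1 h.2, fun h => ⟨h.le, h.ge⟩⟩

private theorem W4_add {x y : K} (hx : O.valuation x < 1) (hy : O.valuation y < 1) :
    O.valuation (x + y) < 1 := O.valuation.map_add_lt hx hy

private theorem W4_sub {x y : K} (hx : O.valuation x < 1) (hy : O.valuation y < 1) :
    O.valuation (x - y) < 1 := O.valuation.map_sub_lt hx hy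

private theorem W4_mul {x y : K} (hx : O.valuation x < 1) (hy : O.valuation y ≤ 1) :
    O.valuation (x * y) < 1 := by
  rw [map_mul]
  exact mul_lt_one_of_lt_of_le hx hy

private theorem W4_pow {x : K} {n : ℕ} (hx : O.valuation (x ^ n) < 1) : O.valuation x < 1 := by
  by_contra h
  rw [not_lt] at h
  rw [map_pow] at hx
  exact absurd hx (not_lt.2 (one_le_pow₀ h))

end aux

variable {F L Ω : Type*} [Field F] [Field L] [Field Ω] [Algebra F L] [Algebra L Ω] [Algebra F Ω]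
  [IsScalarTower F L Ω] [CharZero F] [IsAlgClosed Ω] {A : ValuationSubring F} {l p : ℕ}
  {O : ValuationSubring L}

theorem binom {K : Type*} [Field K] (O : ValuationSubring K) {p : ℕ} (hp : p.Prime) {w : K}
    (hw : w ∈ O) : ∃ e ∈ O, (1 + w) ^ p - 1 = w ^ p + p * w * e := by
  obtain ⟨r, hr⟩ := exists_add_pow_prime_eq hp (1 : O) ⟨w, hw⟩
  refine ⟨r, r.2, ?_⟩
  have h := congrArg (fun x : O => (x : K)) hr
  push_cast at h
  rw [h]
  ring

theorem pow_pi (s : Setup F L Ω A l p O) {π : F} (hπ : IsUnif A π) {a b : L}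
    (hb : IsUn O b) {k : ℤ} (hk : (algebraMap F L π) ^ k = a ^ p * b) : (p : ℤ) ∣ k := by
  by_contra hnd
  have hcop : IsCoprime k (p : ℤ) := by
    rw [isCoprime_comm, Int.isCoprime_iff_gcd_eq_one]
    have hp : Prime (p : ℤ) := Nat.prime_iff_prime_int.1 s.pp
    rw [← Int.isCoprime_iff_gcd_eq_one]
    exact (Prime.coprime_iff_not_dvd hp).2 hnd
  obtain ⟨r, t, hrt⟩ := hcop
  have hπ0 : algebraMap F L π ≠ 0 := (map_ne_zero _).2 hπ.ne
  have hbv : O.valuation b = 1 := W4_un.1 hb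
  have hbr : IsUn O (b ^ r) := W4_un.2 (by rw [map_zpow₀, hbv, one_zpow])
  refine pi_not_pth s hπ (a := a ^ r * (algebraMap F L π) ^ t) hbr ?_
  have h1 : algebraMap F L π = (algebraMap F L π) ^ (r * k + t * p) := by rw [hrt, zpow_one]
  have h2 : (algebraMap F L π) ^ (r * k + t * p) =
      ((algebraMap F L π) ^ k) ^ r * ((algebraMap F L π) ^ t) ^ p := by
    rw [zpow_add₀ hπ0, mul_comm r k, zpow_mul, zpow_mul, zpow_natCast]
  have h3 : (a ^ p * b) ^ r = (a ^ r) ^ p * b ^ r := by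
    rw [mul_zpow, ← zpow_natCast, ← zpow_natCast, ← zpow_mul, ← zpow_mul, mul_comm (p : ℤ) r]
  rw [hk, h3] at h2
  rw [mul_pow]
  conv_lhs => rw [h1, h2]
  ring

theorem form (s : Setup F L Ω A l p O) {π : F} (hπ : IsUnif A π) {z : L}
    (hz : z ∈ O.nonunits) : ∃ d ∈ A, ∃ w ∈ O.nonunits,
      1 + z = (1 + algebraMap F L (π * d)) * (1 + w) ^ p := by
  have hp0 : p ≠ 0 := s.pp.ne_zero
  have hzv : O.valuation z < 1 := W4_non.1 hz
  have h1z : IsUn O (1 + z) := isUn_one_add hz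
  have h1z0 : 1 + z ≠ 0 := (isUn_iff.1 h1z).1
  obtain ⟨c, y, hc, hy, hcy⟩ := kummer s.gp hp0 h1z0
  obtain ⟨k, u, hu, rfl⟩ := exists_zpow s.hdvr.dvr hπ hc
  have hφ0 : algebraMap F L π ≠ 0 := (map_ne_zero _).2 hπ.ne
  have huO : IsUn O (algebraMap F L u) :=
    ⟨(comap s u).2 hu.1, fun h => hu.2 ((comap_nonunits s u).1 h)⟩
  have hu0 : algebraMap F L u ≠ 0 := (isUn_iff.1 huO).1
  have hkd : (p : ℤ) ∣ k := by
    refine pow_pi s hπ (a := y⁻¹) (b := (1 + z) * (algebraMap F L u)⁻¹) (h1z.mul huO.inv) ?_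
    rw [hcy, map_mul, map_zpow₀, inv_pow]
    have hyp : y ^ p ≠ 0 := pow_ne_zero p hy
    field_simp
  obtain ⟨k', rfl⟩ := hkd
  have := s.chr
  obtain ⟨c₀, d, hc₀, hd, hud⟩ := exists_pth s.hdvr hπ hu
  set Y : L := algebraMap F L c₀ * (algebraMap F L π) ^ k' * y with hY
  have hmain : 1 + z = (1 + algebraMap F L (π * d)) * Y ^ p := by
    rw [hcy, hud, hY, mul_pow, mul_pow, map_mul, map_zpow₀, map_mul, map_pow, map_add, map_one,
      mul_comm (p : ℤ) k', zpow_mul, zpow_natCast]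
    ring
  have hdO : O.valuation (algebraMap F L d) ≤ 1 := W4_mem.1 ((comap s d).2 hd)
  have hπv : O.valuation (algebraMap F L π) < 1 := W4_non.1 (pi_nonunit s hπ)
  have hπd : O.valuation (algebraMap F L (π * d)) < 1 := by
    rw [map_mul]
    exact W4_mul hπv hdO
  have h1πd : IsUn O (1 + algebraMap F L (π * d)) := isUn_one_add (W4_non.2 hπd)
  have h1πd0 : 1 + algebraMap F L (π * d) ≠ 0 := (isUn_iff.1 h1πd).1
  have hYp : IsUn O (Y ^ p) := by
    have : Y ^ p = (1 + z) * (1 + algebraMap F L (π * d))⁻¹ := by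
      rw [hmain]
      field_simp
    rw [this]
    exact h1z.mul h1πd.inv
  have hYu : IsUn O Y := isUn_of_pow hp0 hYp
  have hw : Y - 1 ∈ O := sub_mem hYu.1 O.one_mem
  obtain ⟨e, he, hbin⟩ := binom O s.pp hw
  rw [add_sub_cancel] at hbin
  have hpv : O.valuation (p : L) < 1 := W4_non.1 (p_nonunit s)
  have hYp1 : O.valuation (Y ^ p - 1) < 1 := by
    have : Y ^ p - 1 = (z - algebraMap F L (π * d)) * (1 + algebraMap F L (π * d))⁻¹ := by
      field_simp
      rw [sub_mul, mul_comm (Y ^ p), ← hmain]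
      ring
    rw [this]
    exact W4_mul (W4_sub hzv hπd) (W4_un.1 h1πd.inv).le
  have hwp : O.valuation ((Y - 1) ^ p) < 1 := by
    have h2 : (Y - 1) ^ p = (Y ^ p - 1) - p * ((Y - 1) * e) := by
      rw [hbin]
      ring
    rw [h2]
    refine W4_sub hYp1 (W4_mul hpv ?_)
    exact W4_mem.1 (O.mul_mem _ _ hw he)
  refine ⟨d, hd, Y - 1, W4_non.2 (W4_pow hwp), ?_⟩
  rw [add_sub_cancel]
  exact hmain

/-- `p / π` -/
private theorem W4_quot (s : Setup F L Ω A l p O) {π : F} (hπ : IsUnif A π) :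
    ∃ q ∈ O, (p : L) = algebraMap F L π * q := by
  have h1 : (p : F) ∈ A.nonunits := by
    rw [← comap_nonunits s, map_natCast]
    exact p_nonunit s
  refine ⟨algebraMap F L ((p : F) / π), (comap s _).2 (hπ.gen _ h1), ?_⟩
  rw [← map_mul, mul_div_cancel₀ _ hπ.ne, map_natCast]

theorem nonunit_pth (s : Setup F L Ω A l p O) {π : F} (hπ : IsUnif A π) {z : L}
    (hz0 : z ≠ 0) (hz : z ∈ O.nonunits) (hz' : algebraMap F L π / z ∈ O.nonunits) :
    ∃ w b : L, IsUn O b ∧ z = w ^ p * b := by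
  obtain ⟨d, hd, w, hw, hdw⟩ := form s hπ hz
  have hwO : w ∈ O := W4_mem.2 (W4_non.1 hw).le
  obtain ⟨e, he, hbin⟩ := binom O s.pp hwO
  obtain ⟨q, hq, hpq⟩ := W4_quot s hπ
  have hdO : algebraMap F L d ∈ O := (comap s d).2 hd
  set g : L := q * w * e + algebraMap F L d * (1 + w) ^ p with hg
  have hgO : g ∈ O := by
    refine O.add_mem _ _ (O.mul_mem _ _ (O.mul_mem _ _ hq hwO) he) (O.mul_mem _ _ hdO ?_)
    exact pow_mem (O.add_mem _ _ O.one_mem hwO) p
  have h1 : z = w ^ p + algebraMap F L π * g := by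
    have h2 : z = ((1 + w) ^ p - 1) + algebraMap F L (π * d) * (1 + w) ^ p := by
      have h3 : z = (1 + z) - 1 := by ring
      rw [h3, hdw]
      ring
    rw [h2, hbin, hg, hpq, map_mul]
    ring
  have hun : IsUn O (1 - algebraMap F L π / z * g) := by
    rw [sub_eq_add_neg]
    refine isUn_one_add (W4_non.2 ?_)
    rw [Valuation.map_neg]
    exact W4_mul (W4_non.1 hz') (W4_mem.1 hgO)
  have hun0 := (isUn_iff.1 hun).1
  refine ⟨w, (1 - algebraMap F L π / z * g)⁻¹, hun.inv, ?_⟩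
  have h4 : w ^ p = z * (1 - algebraMap F L π / z * g) := by
    rw [mul_sub, mul_one, ← mul_assoc, mul_div_cancel₀ _ hz0]
    rw [eq_sub_iff_add_eq]
    exact h1.symm
  rw [h4, mul_assoc, mul_inv_cancel₀ hun0, mul_one]

theorem pi_unif (s : Setup F L Ω A l p O) {π : F} (hπ : IsUnif A π) :
    IsUnif O (algebraMap F L π) := by
  have hφ0 : algebraMap F L π ≠ 0 := (map_ne_zero _).2 hπ.ne
  refine ⟨hφ0, pi_nonunit s hπ, ?_⟩
  intro x hx
  by_contra hcon
  have hx0 : x ≠ 0 := by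
    rintro rfl
    rw [zero_div] at hcon
    exact hcon O.zero_mem
  have h1 : algebraMap F L π / x ∈ O.nonunits := by
    rw [W4_non]
    rw [W4_mem, not_le, map_div₀] at hcon
    rw [map_div₀]
    have hv1 : 0 < O.valuation x := (Valuation.pos_iff _).2 hx0
    have hv2 : 0 < O.valuation (algebraMap F L π) := (Valuation.pos_iff _).2 hφ0
    rw [one_lt_div₀ hv2] at hcon
    rw [div_lt_one₀ hv1]
    exact hcon
  obtain ⟨w, b, hb, h2⟩ := nonunit_pth s hπ hx0 hx h1
  have h3 : algebraMap F L π / (algebraMap F L π / x) = x := by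
    field_simp
  obtain ⟨w', b', hb', h4⟩ := nonunit_pth s hπ (div_ne_zero hφ0 hx0) h1 (by rw [h3]; exact hx)
  refine pi_not_pth s hπ (a := w * w') (hb.mul hb') ?_
  have h5 : algebraMap F L π = x * (algebraMap F L π / x) := by field_simp
  rw [h4] at h5
  rw [h5]
  conv_lhs => rw [h2]
  ring

theorem digit (s : Setup F L Ω A l p O) {π : F} (hπ : IsUnif A π) {x : L} (hx : x ∈ O) :
    ∃ d ∈ A, ∃ y ∈ O, x = algebraMap F L d + algebraMap F L π * y := by
  have hφ0 : algebraMap F L π ≠ 0 := (map_ne_zero _).2 hπ.ne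
  have hu := pi_unif s hπ
  have hπv : O.valuation (algebraMap F L π) < 1 := W4_non.1 (pi_nonunit s hπ)
  have hz : algebraMap F L π * x ∈ O.nonunits := W4_non.2 (W4_mul hπv (W4_mem.1 hx))
  obtain ⟨d, hd, w, hw, hdw⟩ := form s hπ hz
  have hwO : w ∈ O := W4_mem.2 (W4_non.1 hw).le
  obtain ⟨e, he, hbin⟩ := binom O s.pp hwO
  obtain ⟨q, hq, hpq⟩ := W4_quot s hπ
  have hdO : algebraMap F L d ∈ O := (comap s d).2 hd
  have hw' : w / algebraMap F L π ∈ O := hu.gen w hw
  set w' : L := w / algebraMap F L π with hw'def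
  have hww : w = algebraMap F L π * w' := by rw [hw'def, mul_div_cancel₀ _ hφ0]
  have hπO : algebraMap F L π ∈ O := W4_mem.2 hπv.le
  obtain ⟨m, hm⟩ : ∃ m, p = m + 2 := ⟨p - 2, by have := s.pp.two_le; omega⟩
  set g : L := (algebraMap F L π) ^ m * w' ^ p + q * w' * e with hg
  have hgO : g ∈ O := O.add_mem _ _ (O.mul_mem _ _ (pow_mem hπO m) (pow_mem hw' p))
    (O.mul_mem _ _ (O.mul_mem _ _ hq hw') he)
  have h1 : (1 + w) ^ p = 1 + (algebraMap F L π) ^ 2 * g := by
    have h2 : w ^ p = (algebraMap F L π) ^ 2 * ((algebraMap F L π) ^ m * w' ^ p) := by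
      rw [hww, mul_pow]
      conv_lhs => rw [hm]
      rw [pow_add, ← hm]
      ring
    have h3 : (p : L) * w * e = (algebraMap F L π) ^ 2 * (q * w' * e) := by
      rw [hpq, hww]
      ring
    have h4 : (1 + w) ^ p = 1 + ((1 + w) ^ p - 1) := by ring
    rw [h4, hbin, h2, h3, hg]
    ring
  refine ⟨d, hd, (1 + algebraMap F L (π * d)) * g, ?_, ?_⟩
  · refine O.mul_mem _ _ (O.add_mem _ _ O.one_mem ?_) hgO
    rw [map_mul]
    exact O.mul_mem _ _ hπO hdO
  · rw [h1] at hdw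
    apply mul_left_cancel₀ hφ0
    have h5 : algebraMap F L π * x = (1 + algebraMap F L π * x) - 1 := by ring
    rw [h5, hdw, map_mul]
    ring

end Pool.Agent.Helper98.SA
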