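/-
SB block A, TH5: units and maximal ideal of the canonical ring.

`O : ValuationSubring K` with `hO : ∀ x, x ∈ O ↔ x ∈ oring T H`, `h : Rig T H`.
Uses TH1 .. TH4 (in fact TH1, TH2).
(1) `x ∈ O, x⁻¹ ∈ O, x ≠ 0 → x ∈ H`: if `x ∉ H` then `x ∈ om` and `x⁻¹ ∈ om` (both are in oring, not 0,
    not in `op` because `op ⊆ H`; `x⁻¹ ∉ H`), contradiction with om_not_inv.
(2) `x ∈ om → x⁻¹ ∉ O`: `x⁻¹ ≠ 0`, `x⁻¹ ∉ om` (om_not_inv), `x⁻¹ ∉ H` so not in op.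
(3) `x ≠ 0, x⁻¹ ∉ O, x ∈ H → ∃ a ∈ om, ∃ b ∈ om, x = a * b`: `x⁻¹ ∉ op` and `x⁻¹ ∈ H`, so there is
    `a ∈ om` with `x⁻¹ a ∉ om`; `x⁻¹ a ∉ H`, `≠ 0`, so `b := (x⁻¹ a)⁻¹ = x a⁻¹ ∈ om`; `x = a b`.
(4) `x⁻¹ ∉ O → x ≠ 0 → 1 + x ∈ T`: `x ∈ O` (valuation ring).  If `x ∉ H` then `x ∈ om`, so `1 + x ∈ T`.
    If `x ∈ H`: by (3) and om_mul_add.
(5) `x ∉ H, x ≠ 0, 1 + x ∈ T → x⁻¹ ∉ O` : that is (2).
-/
import Pool.Agent.Helper98.SA.TH4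

namespace Pool.Agent.Helper98.SA

variable {K : Type*} [Field K] {T H : Set K}

private theorem TH5_inv_not (h : Rig T H) {x : K} (hx : x ∉ H) : x⁻¹ ∉ H := by
  intro h1
  apply hx
  have h2 := h.hH.inv _ h1
  rwa [inv_inv] at h2

private theorem TH5_ne (h : Rig T H) {x : K} (hx : x ∈ H) : x ≠ 0 := by
  intro h0
  rw [h0] at hx
  exact h.hH.zero hx

private theorem TH5_mul_not (h : Rig T H) {t x : K} (ht : t ∈ H) (hx : x ∉ H) : t * x ∉ H := by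
  intro h1
  apply hx
  have h2 := h.hH.mul _ (h.hH.inv _ ht) _ h1
  rwa [inv_mul_cancel_left₀ (TH5_ne h ht)] at h2

theorem canon_unit (h : Rig T H) (O : ValuationSubring K) (hO : ∀ x, x ∈ O ↔ x ∈ oring T H)
    {x : K} (hx0 : x ≠ 0) (hx : x ∈ O) (hx' : x⁻¹ ∈ O) : x ∈ H := by
  by_contra hH
  have hH' := TH5_inv_not h hH
  have h1 : x ∈ om T H := by
    rcases (hO x).1 hx with h1 | h1 | h1
    · exact absurd h1 hx0
    · exact h1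
    · exact absurd h1.1 hH
  have h2 : x⁻¹ ∈ om T H := by
    rcases (hO x⁻¹).1 hx' with h2 | h2 | h2
    · exact absurd h2 (inv_ne_zero hx0)
    · exact h2
    · exact absurd h2.1 hH'
  exact om_not_inv h h1 h2

theorem canon_om (h : Rig T H) (O : ValuationSubring K) (hO : ∀ x, x ∈ O ↔ x ∈ oring T H)
    {x : K} (hx : x ∈ om T H) : x ∈ O ∧ x⁻¹ ∉ O := by
  have h1 : x ∈ O := (hO x).2 (Or.inr (Or.inl hx))
  exact ⟨h1, fun h2 => hx.2.1 (canon_unit h O hO hx.1 h1 h2)⟩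

theorem canon_factor (h : Rig T H) (O : ValuationSubring K) (hO : ∀ x, x ∈ O ↔ x ∈ oring T H)
    {x : K} (hx0 : x ≠ 0) (hx : x⁻¹ ∉ O) (hH : x ∈ H) : ∃ a ∈ om T H, ∃ b ∈ om T H, x = a * b := by
  have hiH : x⁻¹ ∈ H := h.hH.inv _ hH
  have hop : x⁻¹ ∉ op T H := fun h1 => hx ((hO x⁻¹).2 (Or.inr (Or.inr h1)))
  have h1 : ∃ a ∈ om T H, x⁻¹ * a ∉ om T H := by
    by_contra hcon
    push Not at hcon
    exact hop ⟨hiH, hcon⟩
  obtain ⟨a, ha, hna⟩ := h1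
  have hnH : x⁻¹ * a ∉ H := TH5_mul_not h hiH ha.2.1
  have hne : x⁻¹ * a ≠ 0 := mul_ne_zero (inv_ne_zero hx0) ha.1
  have hb : (x⁻¹ * a)⁻¹ ∈ om T H := (om_or_inv h hne hnH).resolve_left hna
  refine ⟨a, ha, _, hb, ?_⟩
  have ha0 : a ≠ 0 := ha.1
  field_simp

theorem canon_one_add (h : Rig T H) (O : ValuationSubring K) (hO : ∀ x, x ∈ O ↔ x ∈ oring T H)
    {x : K} (hx0 : x ≠ 0) (hx : x⁻¹ ∉ O) : 1 + x ∈ T := by
  have hxO : x ∈ O := (O.mem_or_inv_mem x).resolve_right hx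
  by_cases hH : x ∈ H
  · obtain ⟨a, ha, b, hb, hab⟩ := canon_factor h O hO hx0 hx hH
    rw [hab]
    exact om_mul_add h ha hb
  · rcases (hO x).1 hxO with h1 | h1 | h1
    · exact absurd h1 hx0
    · exact h1.2.2
    · exact absurd h1.1 hH

end Pool.Agent.Helper98.SA
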