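/-
SB block A, W1: `O ∩ F = A` and a uniformizer of `A` is a nonunit of `O`.

`Setup F L Ω A l p O`: good pair, `A` HDVR with residue characteristic `p < l`, `l` good, `O` the canonical
ring of `(T, H) = (powSet l L, uP A l L)`.  `rig_main` (CO3) gives `Rig T H`.
Facts used: `canon_one_add` (TH5): `x ≠ 0`, `x⁻¹ ∉ O` gives `1 + x ∈ T`; `canon_unit`; `canon_om`;
`x ∈ O.nonunits ↔ x = 0 ∨ x⁻¹ ∉ O` (`ValuationSubring.mem_nonunits_iff_...`); helper60: `exists_root_one_add` (`1 + m_A`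
consists of `l`-th powers), `exists_zpow`, `zpow_isUn`, `zpow_mem`.

(0) `v(c^l)`: if `c^l = π^k u`, `u` a unit of `A`, then `l ∣ k`  [`c = π^i u'`, so `π^{l i - k}` is a unit].
(1) `pi_nonunit`: `π ∉ H` (as an element of `L`): `π = a y^l`, `a` a unit of `A`, gives `y^l ∈ F`, `y ∈ F`
    (`pow_descend`, GT08), so by (0) `l ∣ 1`.  `1 + π` is an `l`-th power in `F`.  So `π ∈ om T H`, and `canon_om`
    gives `π ∈ O`, `π⁻¹ ∉ O`.
(2) `z ∈ F`, `z` a nonunit of `A` (`v(z) > 0`, `z ≠ 0`)  ⟹  `z ∈ O`.  Suppose `z ∉ O`; `d := z⁻¹` is a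
    nonunit of `O`, `v(d) < 0`.  For `k ≥ 2`: `π d^k` is a nonunit of `O`, so `1 + π d^k ∈ T`, so it is an `l`-th
    power in `F` (`pow_descend`).  `v(π d^k) = 1 + k v(d) < 0`, so `1 + (π d^k)⁻¹ ∈ 1 + m_A` is an
    `l`-th power in `F`, so `π d^k = (1 + π d^k)/(1 + (π d^k)⁻¹)` is an `l`-th power, for `k = 2` and
    `k = 3`.  So `d` and `π` are `l`-th powers, contradiction to (0).
(3) `d ∈ F`, `d` a nonunit of `O`, `d ≠ 0`  ⟹  `d` is a nonunit of `A`.  If `d ∉ A` then `z := d⁻¹` is a nonunit of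
    `A`, `z ∉ O`, contradiction to (2).  If `d` is a unit of `A`: `e := d^(q-1) - 1 ∈ m_A` (residue field with `q`
    elements).  `e = -1 + (nonunit of O)` so `e` and `e⁻¹` are in `O` (if `q - 1 ≥ 1`), `e ≠ 0`; `canon_unit`: `e ∈ H`,
    `e = a y^l`, `y ∈ F` (`pow_descend`), so `l ∣ v(e)`, `v(e) ≥ 1`, so `v(e) ≥ 2` and `e/π` is a nonunit of `A`; (2):
    `e/π ∈ O`, so `e = π (e/π)` is a nonunit of `O` by (1); contradiction.
(4) `comap`: `x ∈ A → x ∈ O`: if `x ∉ O` then `x⁻¹` is a nonunit of `O`, so a nonunit of `A` by (3), so `x ∉ A`.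
    `x ∈ O → x ∈ A`: if `x ∉ A` then `z = x⁻¹` is a nonunit of `A`, `z^l / π` has `v > 0`
    (`l ≥ 2`), so `z^l/π ∈ O` by (2), `z^l ∈ π O` is a nonunit of `O`, so `x^l ∉ O`, so `x ∉ O`.
-/
import Mathlib
import Pool.Agent.Helper98.SA.TH5
import Pool.Agent.Helper98.SA.CO3

open Pool.Agent.Helper60.SL IsLocalRing

namespace Pool.Agent.Helper98.SA

/-- the common hypotheses of the `W` modules -/
structure Setup (F L Ω : Type*) [Field F] [Field L] [Field Ω] [Algebra F L] [Algebra L Ω]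
    [Algebra F Ω] [IsScalarTower F L Ω] (A : ValuationSubring F) (l p : ℕ)
    (O : ValuationSubring L) : Prop where
  gp : GPair F L Ω
  hdvr : HDVR A
  lg : LGood A l
  chr : CharP (ResidueField A) p
  pp : p.Prime
  lt : p < l
  mem : ∀ x, x ∈ O ↔ x ∈ oring (powSet l L) (uP A l L)

variable {F L Ω : Type*} [Field F] [Field L] [Field Ω] [Algebra F L] [Algebra L Ω] [Algebra F Ω]
  [IsScalarTower F L Ω] [CharZero F] [IsAlgClosed Ω] {A : ValuationSubring F} {l p : ℕ}
  {O : ValuationSubring L}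

section aux

private theorem w1_iff {K : Type*} [Field K] (O : ValuationSubring K) {x : K} :
    x ∈ O.nonunits ↔ x = 0 ∨ x⁻¹ ∉ O := by
  rw [ValuationSubring.mem_nonunits_iff]
  rcases eq_or_ne x 0 with rfl | hx
  · simp
  · have hv : O.valuation x ≠ 0 := (Valuation.ne_zero_iff _).2 hx
    rw [← ValuationSubring.valuation_le_one_iff O x⁻¹, map_inv₀, not_le]
    constructor
    · intro h
      exact Or.inr ((one_lt_inv₀ (zero_lt_iff.2 hv)).2 h)
    · rintro (h | h)
      · exact absurd h hx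
      · exact (one_lt_inv₀ (zero_lt_iff.2 hv)).1 h

private theorem w1_non_mul {K : Type*} [Field K] (O : ValuationSubring K) {x y : K}
    (hx : x ∈ O.nonunits) (hy : y ∈ O) : x * y ∈ O.nonunits := by
  rw [ValuationSubring.mem_nonunits_iff] at *
  rw [map_mul]
  exact mul_lt_one_of_lt_of_le hx ((ValuationSubring.valuation_le_one_iff _ _).2 hy)

private theorem w1_non_pow {K : Type*} [Field K] (O : ValuationSubring K) {x : K} {n : ℕ}
    (hn : n ≠ 0) : x ^ n ∈ O.nonunits ↔ x ∈ O.nonunits := by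
  rw [ValuationSubring.mem_nonunits_iff, ValuationSubring.mem_nonunits_iff, map_pow]
  exact pow_lt_one_iff hn

/-- `π` is not an `l`-th power -/
private theorem w1_pi (s : Setup F L Ω A l p O) {π : F} (hπ : IsUnif A π) {a y : F}
    (ha : IsUn A a) (h : π = a * y ^ l) : False := by
  have hy : y ≠ 0 := by
    rintro rfl
    rw [zero_pow s.lg.prime.ne_zero, mul_zero] at h
    exact hπ.ne h
  obtain ⟨k, u, hu, hk⟩ := exists_zpow s.hdvr.dvr hπ hy
  have h1 : π ^ ((1 : ℤ) - k * l) = a * u ^ l := by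
    rw [zpow_sub₀ hπ.ne, zpow_one, zpow_mul, zpow_natCast, div_eq_iff (pow_ne_zero _ (zpow_ne_zero _ hπ.ne))]
    nth_rw 1 [h]
    rw [hk, mul_pow]
    ring
  have h2 : IsUn A (π ^ ((1 : ℤ) - k * l)) := by
    rw [h1]
    exact ha.mul (hu.pow l)
  have h3 := zpow_isUn hπ h2
  have h4 : (l : ℤ) ∣ 1 := ⟨k, by linarith [mul_comm (k : ℤ) (l : ℤ)]⟩
  have h5 : l ∣ 1 := by exact_mod_cast h4
  exact s.lg.prime.one_lt.ne' (Nat.dvd_one.1 h5)

private theorem w1_one : IsUn A (1 : F) :=
  isUn_iff.2 ⟨one_ne_zero, A.one_mem, by rw [inv_one]; exact A.one_mem⟩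

private theorem w1_root (s : Setup F L Ω A l p O) {x : F} (hx : x ∈ A.nonunits) :
    ∃ y : F, y ^ l = 1 + x := by
  haveI := s.chr
  have hpl : ¬ p ∣ l := by
    intro h
    rcases (Nat.dvd_prime s.lg.prime).1 h with h1 | h1
    · exact s.pp.one_lt.ne' h1
    · exact s.lt.ne h1
  obtain ⟨y, -, hy⟩ := exists_root_one_add s.hdvr hpl hx
  exact ⟨y, hy⟩

private theorem w1_div (s : Setup F L Ω A l p O) {π : F} (hπ : IsUnif A π) {z : F}
    (hz : z ∈ A.nonunits) {k : ℕ} (hk : 2 ≤ k) : z ^ k / π ∈ A.nonunits := by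
  obtain ⟨m, rfl⟩ : ∃ m, k = (m + 1) + 1 := ⟨k - 2, by omega⟩
  have h1 : z ^ (m + 1 + 1) / π = z ^ (m + 1) * (z / π) := by
    rw [pow_succ z (m + 1)]
    ring
  rw [h1]
  exact w1_non_mul A ((w1_non_pow A (by omega)).2 hz) (hπ.gen z hz)

end aux

theorem pi_nonunit (s : Setup F L Ω A l p O) {π : F} (hπ : IsUnif A π) :
    algebraMap F L π ∈ O.nonunits := by
  have hR := rig_main s.gp s.hdvr s.lg
  have hmem : algebraMap F L π ∈ om (powSet l L) (uP A l L) := by
    refine ⟨(map_ne_zero _).2 hπ.ne, ?_, ?_⟩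
    · rintro ⟨a, ha, ha1, ha2, y, hy, h⟩
      have haL : algebraMap F L a ≠ 0 := (map_ne_zero _).2 ha
      have h1 : algebraMap F L (π / a) = y ^ l := by
        rw [map_div₀, h, mul_div_assoc, mul_div_cancel₀ _ haL]
      obtain ⟨z, -, hz⟩ := pow_descend s.gp s.lg.prime.ne_zero h1
      refine w1_pi s hπ (a := a) (y := z) (isUn_iff.2 ⟨ha, ha1, ha2⟩) ?_
      rw [← hz, mul_div_cancel₀ _ ha]
    · obtain ⟨y, hy⟩ := w1_root s hπ.non
      refine ⟨algebraMap F L y, ?_, ?_⟩
      · rw [map_ne_zero]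
        rintro rfl
        rw [zero_pow s.lg.prime.ne_zero] at hy
        have h1 := (isUn_one_add hπ.non).2
        rw [← hy] at h1
        exact h1 (by rw [ValuationSubring.mem_nonunits_iff, map_zero]; exact zero_lt_one)
      · rw [← map_pow, hy, map_add, map_one]
  have h1 := canon_om hR O s.mem hmem
  exact (w1_iff O).2 (Or.inr h1.2)

private theorem w1_two (s : Setup F L Ω A l p O) {z : F} (hz : z ∈ A.nonunits) :
    algebraMap F L z ∈ O := by
  by_contra hcon
  have hR := rig_main s.gp s.hdvr s.lg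
  obtain ⟨π, hπ⟩ := exists_unif s.hdvr.dvr
  have hz0 : z ≠ 0 := by
    rintro rfl
    rw [map_zero] at hcon
    exact hcon O.zero_mem
  have hd : algebraMap F L z⁻¹ ∈ O.nonunits := by
    rw [w1_iff]
    right
    rwa [map_inv₀, inv_inv]
  have hkey : ∀ k : ℕ, 2 ≤ k → ∃ w : F, w ≠ 0 ∧ π * (z⁻¹) ^ k = w ^ l := by
    intro k hk
    have h1 : algebraMap F L (π * (z⁻¹) ^ k) ∈ O.nonunits := by
      rw [map_mul, map_pow]
      exact w1_non_mul O (pi_nonunit s hπ) (O.pow_mem (ValuationSubring.nonunits_le hd) k)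
    have hne : π * (z⁻¹) ^ k ≠ 0 := mul_ne_zero hπ.ne (pow_ne_zero _ (inv_ne_zero hz0))
    have hne' : algebraMap F L (π * (z⁻¹) ^ k) ≠ 0 := (map_ne_zero _).2 hne
    have h2 := canon_one_add hR O s.mem hne' (((w1_iff O).1 h1).resolve_left hne')
    obtain ⟨y, hy, h3⟩ := h2
    rw [← map_one (algebraMap F L), ← map_add] at h3
    obtain ⟨w, hw, hw2⟩ := pow_descend s.gp s.lg.prime.ne_zero h3
    have hw0 : w ≠ 0 := by
      rintro rfl
      rw [map_zero] at hw
      exact hy hw.symm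
    have h4 : (π * (z⁻¹) ^ k)⁻¹ ∈ A.nonunits := by
      have h5 : (π * (z⁻¹) ^ k)⁻¹ = z ^ k / π := by
        rw [mul_inv, inv_pow, inv_inv]
        field_simp
      rw [h5]
      exact w1_div s hπ hz hk
    obtain ⟨v, hv⟩ := w1_root s h4
    have hv1 : v ≠ 0 := by
      rintro rfl
      rw [zero_pow s.lg.prime.ne_zero] at hv
      have h1 := (isUn_one_add h4).2
      rw [← hv] at h1
      exact h1 (by rw [ValuationSubring.mem_nonunits_iff, map_zero]; exact zero_lt_one)
    refine ⟨w / v, div_ne_zero hw0 hv1, ?_⟩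
    rw [div_pow, eq_div_iff (pow_ne_zero _ hv1), hv, ← hw2, mul_add, mul_one, mul_inv_cancel₀ hne]
    ring
  obtain ⟨w2, hw2, h2⟩ := hkey 2 le_rfl
  obtain ⟨w3, hw3, h3⟩ := hkey 3 (by norm_num)
  have hd1 : z⁻¹ = (w3 / w2) ^ l := by
    rw [div_pow, ← h2, ← h3]
    have := hπ.ne
    field_simp
  refine w1_pi s hπ (a := 1) (y := w2 / (w3 / w2) ^ 2) w1_one ?_
  rw [one_mul, div_pow, ← h2, ← pow_mul, mul_comm 2 l, pow_mul, ← hd1]
  have := hπ.ne
  field_simp

private theorem w1_three (s : Setup F L Ω A l p O) {d : F} (hd0 : d ≠ 0)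
    (hd : algebraMap F L d ∈ O.nonunits) : d ∈ A.nonunits := by
  by_contra hcon
  have hR := rig_main s.gp s.hdvr s.lg
  by_cases hdA : d ∈ A
  · obtain ⟨π, hπ⟩ := exists_unif s.hdvr.dvr
    haveI := s.hdvr.fin
    letI : Fintype (ResidueField A) := Fintype.ofFinite _
    obtain ⟨n, hn⟩ : ∃ n, n = Fintype.card (ResidueField A) - 1 := ⟨_, rfl⟩
    have hn1 : n ≠ 0 := by
      have := Fintype.one_lt_card (α := ResidueField A)
      omega
    have he : d ^ n - 1 ∈ A.nonunits := by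
      have h1 : residue A ⟨d, hdA⟩ ≠ 0 := by
        intro h2
        rw [residue_eq_zero_iff] at h2
        exact hcon (ValuationSubring.coe_mem_nonunits_iff.2 h2)
      have h2 := FiniteField.pow_card_sub_one_eq_one _ h1
      rw [← hn, ← map_pow, ← sub_eq_zero, ← map_one (residue A), ← map_sub, residue_eq_zero_iff] at h2
      have h3 := ValuationSubring.coe_mem_nonunits_iff.2 h2
      simpa using h3
    have hval : O.valuation (algebraMap F L (d ^ n - 1)) = 1 := by
      have h1 : algebraMap F L (d ^ n) ∈ O.nonunits := by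
        rw [map_pow]
        exact (w1_non_pow O hn1).2 hd
      have h2 : algebraMap F L (d ^ n - 1) = -(1 + -(algebraMap F L (d ^ n))) := by
        rw [map_sub, map_one]
        ring
      rw [h2, Valuation.map_neg]
      apply Valuation.map_one_add_of_lt
      rw [Valuation.map_neg]
      exact (ValuationSubring.mem_nonunits_iff _).1 h1
    have hne : algebraMap F L (d ^ n - 1) ≠ 0 := by
      intro h1
      rw [h1, map_zero] at hval
      exact zero_ne_one hval
    have hH := canon_unit hR O s.mem hne ((ValuationSubring.valuation_le_one_iff _ _).1 hval.le)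
      ((ValuationSubring.valuation_le_one_iff _ _).1 (by rw [map_inv₀, hval, inv_one]))
    obtain ⟨a, ha, ha1, ha2, y, hy, h⟩ := hH
    have haL : algebraMap F L a ≠ 0 := (map_ne_zero _).2 ha
    have h1 : algebraMap F L ((d ^ n - 1) / a) = y ^ l := by
      rw [map_div₀, h, mul_div_assoc, mul_div_cancel₀ _ haL]
    obtain ⟨w, -, hw⟩ := pow_descend s.gp s.lg.prime.ne_zero h1
    have hew : d ^ n - 1 = a * w ^ l := by
      rw [← hw, mul_div_cancel₀ _ ha]
    have hwn : w ∈ A.nonunits := by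
      rw [← w1_non_pow A s.lg.prime.ne_zero, ← hw, div_eq_mul_inv]
      exact w1_non_mul A he ha2
    have h6 : algebraMap F L (a * w ^ l / π) ∈ O := by
      apply w1_two s
      rw [mul_div_assoc, mul_comm]
      exact w1_non_mul A (w1_div s hπ hwn s.lg.prime.two_le) ha1
    have h7 : algebraMap F L (d ^ n - 1) ∈ O.nonunits := by
      have h5 : d ^ n - 1 = π * (a * w ^ l / π) := by
        rw [hew]
        have := hπ.ne
        field_simp
      rw [h5, map_mul]
      exact w1_non_mul O (pi_nonunit s hπ) h6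
    rw [ValuationSubring.mem_nonunits_iff, hval] at h7
    exact lt_irrefl _ h7
  · have h1 : d⁻¹ ∈ A.nonunits := by
      rw [w1_iff]
      right
      rwa [inv_inv]
    have h2 := w1_two s h1
    rw [map_inv₀] at h2
    exact (((w1_iff O).1 hd).resolve_left ((map_ne_zero _).2 hd0)) h2

theorem comap (s : Setup F L Ω A l p O) (x : F) : algebraMap F L x ∈ O ↔ x ∈ A := by
  rcases eq_or_ne x 0 with rfl | hx0
  · rw [map_zero]
    exact ⟨fun _ => A.zero_mem, fun _ => O.zero_mem⟩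
  constructor
  · intro hx
    by_contra hcon
    obtain ⟨π, hπ⟩ := exists_unif s.hdvr.dvr
    have h1 : x⁻¹ ∈ A.nonunits := by
      rw [w1_iff]
      right
      rwa [inv_inv]
    have h2 := w1_two s (w1_div s hπ h1 s.lg.prime.two_le)
    have h3 : algebraMap F L (x⁻¹ ^ l) ∈ O.nonunits := by
      have h5 : x⁻¹ ^ l = π * (x⁻¹ ^ l / π) := by
        rw [mul_div_cancel₀ _ hπ.ne]
      rw [h5, map_mul]
      exact w1_non_mul O (pi_nonunit s hπ) h2
    rw [map_pow, w1_non_pow O s.lg.prime.ne_zero, w1_iff, map_inv₀, inv_inv] at h3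
    rcases h3 with h3 | h3
    · exact inv_ne_zero ((map_ne_zero _).2 hx0) h3
    · exact h3 hx
  · intro hx
    by_contra hcon
    have h1 : algebraMap F L x⁻¹ ∈ O.nonunits := by
      rw [w1_iff]
      right
      rwa [map_inv₀, inv_inv]
    have h2 := w1_three s (inv_ne_zero hx0) h1
    rw [w1_iff, inv_inv] at h2
    rcases h2 with h2 | h2
    · exact inv_ne_zero hx0 h2
    · exact h2 hx

theorem comap_nonunits (s : Setup F L Ω A l p O) (x : F) :
    algebraMap F L x ∈ O.nonunits ↔ x ∈ A.nonunits := by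
  rw [w1_iff, w1_iff, map_eq_zero, ← map_inv₀, comap s]

end Pool.Agent.Helper98.SA
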