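/-
SB block A, W5: existence of a setup after an unramified base change.

`h : GPair F L Ω`, `hA : HDVR A`.  `p` := characteristic of the finite residue field (`CharP.exists`,
`CharP.char_is_prime`).  `l` a prime `> p` (`Nat.exists_infinite_primes`).  helper60 `exists_unram_class` (UnramJac)
with `l ≠ p`: `E / F` finite Galois inside `Ω`, uniformizers stay uniformizers, `l ∣ card - 1`, the classes
`c` for all `j`, and an element `lam` of `ext hA E` of trace 1.
`LGood (ext hA E) l`: prime, `l ≠ 2` as `l > p ≥ 2`, dvd, cls.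
`GPair E (cmp L E) Ω`: GT05.  `HDVR (ext hA E)`: `ext_hdvr`.  Residue characteristic of `ext hA E` is `p`: `p` is a nonunit
of `A`, so of `ext hA E` (`ext_nonunits_map`), so `p = 0` in its residue field (`CharP` with `p` prime:
`CharP.of_prime...`/`ringChar.of_eq`; for a field in which the prime `p` is zero).
`O'` := canonical ring: `exists_canon` (TH4) with `rig_main` (CO3).
-/
import Mathlib
import Pool.Agent.Helper98.SA.W1
import Pool.Agent.Helper98.SA.GT05
import Pool.Agent.Helper60.SL.UnramJac

open Pool.Agent.Helper60.SL IsLocalRing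

namespace Pool.Agent.Helper98.SA

variable {F L Ω : Type*} [Field F] [Field L] [Field Ω] [Algebra F L] [Algebra L Ω] [Algebra F Ω]
  [IsScalarTower F L Ω] [CharZero F] [IsAlgClosed Ω]

theorem exists_setup (h : GPair F L Ω) {A : ValuationSubring F} (hA : HDVR A) :
    ∃ (E : IntermediateField F Ω) (_ : FiniteDimensional F E) (_ : IsGalois F E) (l p : ℕ)
      (O : ValuationSubring (cmp L E)),
      Setup E (cmp L E) Ω (ext hA E) l p O ∧
      (∀ π, IsUnif A π → IsUnif (ext hA E) (algebraMap F E π)) ∧
      ∃ lam : E, lam ∈ ext hA E ∧ Algebra.trace F E lam = 1 := by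
  have hfin : Finite (ResidueField A) := hA.fin
  have hFt : Fintype (ResidueField A) := Fintype.ofFinite _
  obtain ⟨p, hpc⟩ := CharP.exists (ResidueField A)
  have hp : p.Prime := by
    rcases CharP.char_is_prime_or_zero (ResidueField A) p with h1 | h1
    · exact h1
    · subst h1
      have := CharP.charP_to_charZero (ResidueField A)
      exact absurd hfin (not_finite_iff_infinite.mpr (CharZero.infinite (ResidueField A)))
  obtain ⟨l, hlp, hl⟩ := Nat.exists_infinite_primes (p + 1)
  have hne : l ≠ p := by omega
  obtain ⟨E, hEf, hEg, hunif, hdvd, hlam, hcls⟩ :=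
    exists_unram_class (Ω := Ω) hA (p := p) hl hne
  have hB : HDVR (ext hA E) := ext_hdvr hA E
  have hgp : GPair E (cmp L E) Ω := gpair_cmp h E
  have hlg : LGood (ext hA E) l := ⟨hl, by have := hp.two_le; omega, hdvd, hcls⟩
  have hchar : CharP (ResidueField (ext hA E)) p := by
    rw [CharP.charP_iff_prime_eq_zero hp]
    have h1 : (p : F) ∈ A.nonunits := by
      have h2 : ((p : A) : F) = (p : F) := by push_cast; rfl
      rw [← h2, ValuationSubring.coe_mem_nonunits_iff, ← residue_eq_zero_iff, map_natCast,
        CharP.cast_eq_zero]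
    have h3 := (ext_nonunits_map hA (E := E) (p : F)).mpr h1
    rw [map_natCast] at h3
    have h4 : (((p : ℕ) : ext hA E) : E) = (p : E) := by push_cast; rfl
    have h5 : residue (ext hA E) ((p : ℕ) : ext hA E) = 0 := by
      rw [residue_eq_zero_iff, ← ValuationSubring.coe_mem_nonunits_iff, h4]
      exact h3
    rwa [map_natCast] at h5
  obtain ⟨O, hO⟩ := exists_canon (rig_main hgp hB hlg)
  exact ⟨E, hEf, hEg, l, p, O, ⟨hgp, hB, hlg, hchar, hp, by omega, hO⟩, hunif, hlam⟩

end Pool.Agent.Helper98.SA
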