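/-
SB block A, W6: THEOREM P (descent of the place from `L E` to `L`).

`E`, `O'` (valuation ring of `M := cmp L E`), `lam` from `exists_setup` (W5).
`canon_stable`: `O'` is stable under `Gal(M/L)`: `oring_inv` (CMP.lean), `powSet_gal`, `uP_gal` (HN2) and `s.mem`.
`place_p`: `O := O'.comap (algebraMap L M)`.
(a) `x ∈ F`: `algebraMap F L x ∈ O` iff `algebraMap F M x ∈ O'` iff `algebraMap F E x ∈ ext hA E`
    (`comap`, W1, for the setup over `E`) iff `x ∈ A` (`ext_map`).
(b) `π` a uniformizer of `A`, so `algebraMap F E π` is one of `ext hA E`.  `x ∈ O`: by `digit` (W4)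
    `x = d + π y` in `M`, `d ∈ ext hA E`, `y ∈ O'`.  Multiply by `lam` and take the trace `M → L`:
    `x = x Tr(lam) = Tr(lam d) + π Tr(lam y)`; `Tr_{M/L}(lam) = Tr_{E/F}(lam) = 1`, `Tr_{M/L}(lam d) = Tr_{E/F}(lam d)`
    (`trace_cmp`, GT03); `Tr_{E/F}(lam d) ∈ A` (trace of an integral element: `Algebra.isIntegral_trace`, or
    sum of conjugates with `ext_hom` and `ext_map`), and `Tr_{M/L}(lam y)` = sum of the `g (lam y) ∈ O'`
    (`trace_eq_sum_automorphisms`, `canon_stable`; `lam ∈ O'` by `comap`), so it is in `O`.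
-/
import Mathlib
import Pool.Agent.Helper98.SA.W4
import Pool.Agent.Helper98.SA.W5
import Pool.Agent.Helper98.SA.HN2
import Pool.Agent.Helper98.SA.CMP

open Pool.Agent.Helper60.SL IsLocalRing

namespace Pool.Agent.Helper98.SA

variable {F L Ω : Type*} [Field F] [Field L] [Field Ω] [Algebra F L] [Algebra L Ω] [Algebra F Ω]
  [IsScalarTower F L Ω] [CharZero F] [IsAlgClosed Ω]

omit [CharZero F] in
private theorem w6_int {A : ValuationSubring F} (x : F) : IsIntegral A x ↔ x ∈ A := by
  rw [IsIntegrallyClosed.isIntegral_iff]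
  constructor
  · rintro ⟨y, rfl⟩
    exact y.2
  · intro h
    exact ⟨⟨x, h⟩, rfl⟩

theorem canon_stable (h : GPair F L Ω) {A : ValuationSubring F} (hA : HDVR A)
    (E : IntermediateField F Ω) [FiniteDimensional F E] [IsGalois F E] {l p : ℕ}
    {O : ValuationSubring (cmp L E)} (s : Setup E (cmp L E) Ω (ext hA E) l p O)
    (g : cmp L E ≃ₐ[L] cmp L E) (x : cmp L E) : g x ∈ O ↔ x ∈ O := by
  rw [s.mem, s.mem]
  exact oring_inv g.toRingEquiv (fun y => powSet_gal g.toRingEquiv y) (fun y => uP_gal h hA E g y) x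

theorem place_p (h : GPair F L Ω) {A : ValuationSubring F} (hA : HDVR A) :
    ∃ O : ValuationSubring L, (∀ x : F, algebraMap F L x ∈ O ↔ x ∈ A) ∧
      ∀ π, IsUnif A π → ∀ x ∈ O, ∃ d ∈ A, ∃ y ∈ O,
        x = algebraMap F L d + algebraMap F L π * y := by
  obtain ⟨E, hfd, hgal, l, p, O', s, hunif, lam, hlam, htr⟩ := exists_setup h hA
  have hMfd := cmp_finite (L := L) E
  have hMgal := cmp_galois (L := L) E
  have e1 : ∀ z : F, algebraMap L (cmp L E) (algebraMap F L z) = algebraMap E (cmp L E) (algebraMap F E z) := by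
    intro z
    rw [← IsScalarTower.algebraMap_apply F L (cmp L E), ← IsScalarTower.algebraMap_apply F E (cmp L E)]
  refine ⟨O'.comap (algebraMap L (cmp L E)), fun x => ?_, fun π hπ x hx => ?_⟩
  · rw [ValuationSubring.mem_comap, e1, comap s, ext_map]
  · rw [ValuationSubring.mem_comap] at hx
    obtain ⟨d, hd, y, hy, hxy⟩ := digit s (hunif π hπ) hx
    have hlam' : algebraMap E (cmp L E) lam ∈ O' := (comap s lam).2 hlam
    refine ⟨Algebra.trace F E (lam * d), ?_, Algebra.trace L (cmp L E) (algebraMap E (cmp L E) lam * y), ?_, ?_⟩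
    · have h1 : lam * d ∈ ext hA E := (ext hA E).mul_mem _ _ hlam hd
      rw [mem_ext] at h1
      exact (w6_int _).1 (Algebra.isIntegral_trace h1)
    · rw [ValuationSubring.mem_comap, trace_eq_sum_automorphisms]
      exact sum_mem fun g _ => (canon_stable h hA E s g _).2 (O'.mul_mem _ _ hlam' hy)
    · have h1 : Algebra.trace L (cmp L E) (algebraMap L (cmp L E) x * algebraMap E (cmp L E) lam) = x := by
        rw [← Algebra.smul_def, map_smul, trace_cmp h E, htr, map_one, smul_eq_mul, mul_one]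
      have h2 : algebraMap L (cmp L E) x * algebraMap E (cmp L E) lam =
          algebraMap E (cmp L E) (lam * d) + (algebraMap F L π) • (algebraMap E (cmp L E) lam * y) := by
        rw [hxy, Algebra.smul_def, e1, map_mul]
        ring
      rw [h2, map_add, trace_cmp h E, map_smul, smul_eq_mul] at h1
      exact h1.symm

end Pool.Agent.Helper98.SA
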