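/-
SB block A, W9: completeness of a complete valued field with value group `ℤᵐ⁰` in terms of digits.
Mathlib only.

`K` a complete valued field, values in `ℤᵐ⁰ = WithZero (Multiplicative ℤ)`, `ϖ ≠ 0`, `v ϖ < 1`.
(0) for every `γ : ℤᵐ⁰`, `γ ≠ 0`, there is `n` with `v(ϖ)^n < γ` (the value group is archimedean: integers).
(1) `valued_sep`: `v x ≤ v(ϖ)^n` for all `n` implies `x = 0` (otherwise take `γ = v x` in (0)).
(2) `valued_comp`: partial sums `S_n = ∑_{i<n} c_i ϖ^i`; for `m ≥ n`: `v(S_m - S_n) ≤ v(ϖ)^n` (ultrametric,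
    `v(c_i) ≤ 1`), so `S` is a Cauchy sequence (uniform structure of the valued field:
    `Valued.mem_nhds`, `Valued.cauchy_iff` or `Valued.uniformity`...), it converges to some `s` (`CompleteSpace`,
    `cauchySeq_tendsto_of_complete`).  The set `{y | v(y - S_n) ≤ v(ϖ)^n}` is closed (`Valued.isClosed_closedBall`...), so
    `v(s - S_n) ≤ v(ϖ)^n`.  `n = 0`: `v s ≤ 1`.
-/
import Mathlib

open scoped WithZero

namespace Pool.Agent.Helper98.SA

private theorem w9_arch {a γ : ℤᵐ⁰} (h0 : a ≠ 0) (h1 : a < 1) (hγ : γ ≠ 0) :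
    ∃ n : ℕ, a ^ n < γ := by
  have ha : 0 < a := zero_lt_iff.2 h0
  have hg : 0 < γ := zero_lt_iff.2 hγ
  have h2 : 1 < a⁻¹ := (one_lt_inv₀ ha).2 h1
  obtain ⟨n, hn⟩ := MulArchimedean.arch γ⁻¹ h2
  refine ⟨n + 1, ?_⟩
  have h3 : a⁻¹ ^ n < a⁻¹ ^ (n + 1) := pow_lt_pow_right₀ h2 (Nat.lt_succ_self n)
  have h4 : γ⁻¹ < a⁻¹ ^ (n + 1) := hn.trans_lt h3
  rw [inv_pow] at h4
  exact (inv_lt_inv₀ hg (pow_pos ha _)).1 h4

theorem valued_sep {K : Type*} [Field K] [Valued K ℤᵐ⁰] {ϖ : K} (h0 : ϖ ≠ 0)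
    (h1 : Valued.v ϖ < 1) {x : K} (hx : ∀ n : ℕ, Valued.v x ≤ Valued.v ϖ ^ n) : x = 0 := by
  by_contra hne
  obtain ⟨n, hn⟩ := w9_arch ((Valuation.ne_zero_iff _).2 h0) h1
    ((Valuation.ne_zero_iff Valued.v).2 hne)
  exact absurd (hx n) (not_le.2 hn)

theorem valued_comp {K : Type*} [Field K] [Valued K ℤᵐ⁰] [CompleteSpace K] {ϖ : K}
    (h0 : ϖ ≠ 0) (h1 : Valued.v ϖ < 1) (c : ℕ → K) (hc : ∀ i, Valued.v (c i) ≤ 1) :
    ∃ s : K, Valued.v s ≤ 1 ∧
      ∀ n : ℕ, Valued.v (s - ∑ i ∈ Finset.range n, c i * ϖ ^ i) ≤ Valued.v ϖ ^ n := by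
  have hv0 : (Valued.v ϖ : ℤᵐ⁰) ≠ 0 := (Valuation.ne_zero_iff _).2 h0
  let S : ℕ → K := fun n => ∑ i ∈ Finset.range n, c i * ϖ ^ i
  -- the differences
  have hS : ∀ n k : ℕ, Valued.v (S (n + k) - S n) ≤ (Valued.v ϖ : ℤᵐ⁰) ^ n := by
    intro n k
    have e : S (n + k) - S n = ∑ i ∈ Finset.range k, c (n + i) * ϖ ^ (n + i) := by
      change ∑ i ∈ Finset.range (n + k), c i * ϖ ^ i - ∑ i ∈ Finset.range n, c i * ϖ ^ i = _
      rw [Finset.sum_range_add]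
      ring
    rw [e]
    refine Valuation.map_sum_le _ fun i _ => ?_
    rw [map_mul, map_pow, pow_add]
    calc Valued.v (c (n + i)) * (Valued.v ϖ ^ n * Valued.v ϖ ^ i)
        ≤ 1 * (Valued.v ϖ ^ n * 1) :=
          mul_le_mul' (hc _) (mul_le_mul' le_rfl (pow_le_one' h1.le i))
      _ = Valued.v ϖ ^ n := by rw [one_mul, mul_one]
  have hS' : ∀ n m : ℕ, n ≤ m → Valued.v (S m - S n) ≤ (Valued.v ϖ : ℤᵐ⁰) ^ n := by
    intro n m h
    obtain ⟨k, rfl⟩ := Nat.exists_eq_add_of_le h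
    exact hS n k
  have hcau : CauchySeq S := by
    refine Valued.cauchy_iff.2 ⟨inferInstance, fun γ => ?_⟩
    have hγ : (MonoidWithZeroHom.ValueGroup₀.embedding γ.1 : ℤᵐ⁰) ≠ 0 := by
      rw [Ne, map_eq_zero]
      exact γ.ne_zero
    obtain ⟨n, hn⟩ := w9_arch hv0 h1 hγ
    refine ⟨S '' {m | n ≤ m}, Filter.mem_map.2 ?_, ?_⟩
    · filter_upwards [Filter.eventually_ge_atTop n] with m hm
      exact ⟨m, hm, rfl⟩
    · rintro x ⟨a, ha, rfl⟩ y ⟨b, hb, rfl⟩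
      rw [Valuation.restrict_lt_iff_lt_embedding]
      refine lt_of_le_of_lt ?_ hn
      have e : S b - S a = (S b - S n) - (S a - S n) := by ring
      rw [e]
      exact (Valuation.map_sub _ _ _).trans (max_le (hS' n b hb) (hS' n a ha))
  obtain ⟨s, hs⟩ := cauchySeq_tendsto_of_complete hcau
  have key : ∀ n : ℕ, Valued.v (s - S n) ≤ (Valued.v ϖ : ℤᵐ⁰) ^ n := by
    intro n
    have hcl : IsClosed {x : K | Valued.v.restrict x ≤ Valued.v.restrict (ϖ ^ n)} :=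
      Valued.isClosed_closedBall K _
    have ht : Filter.Tendsto (fun m => S m - S n) Filter.atTop (nhds (s - S n)) :=
      hs.sub_const _
    have hmem := hcl.mem_of_tendsto ht (by
      filter_upwards [Filter.eventually_ge_atTop n] with m hm
      rw [Valuation.restrict_le_iff, map_pow]
      exact hS' n m hm)
    have hm2 : Valued.v.restrict (s - S n) ≤ Valued.v.restrict (ϖ ^ n) := hmem
    rw [Valuation.restrict_le_iff, map_pow] at hm2
    exact hm2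
  refine ⟨s, ?_, key⟩
  have h2 := key 0
  have h3 : S 0 = 0 := Finset.sum_range_zero _
  rw [h3, sub_zero, pow_zero] at h2
  exact h2

end Pool.Agent.Helper98.SA
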