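/-
PROJECT SB (MP_ad201b_nt), BLOCK A: final interface (helper98).

`place_hom`: the place theorem at a finite place: good pair `F ⊆ L ⊆ Ω`, `A` a henselian discrete valuation ring
of `F` with finite residue field, `ι : F → K` a homomorphism into a complete valued field with `ι⁻¹(v ≤ 1) = A`:
there are a valuation ring `O ⊇ F` of `L` and a homomorphism `φ : O → K` over `F`.
`place_real`: the same at a real place.
-/
import Mathlib
import Pool.Agent.Helper98.SA.W6
import Pool.Agent.Helper98.SA.W8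
import Pool.Agent.Helper98.SA.W9
import Pool.Agent.Helper98.SA.R1
import Pool.Agent.Helper98.SA.R2
import Pool.Agent.Helper98.SA.R3

open Pool.Agent.Helper60.SL IsLocalRing
open scoped WithZero

namespace Pool.Agent.Helper98.SA

variable {F L Ω : Type*} [Field F] [Field L] [Field Ω] [Algebra F L] [Algebra L Ω] [Algebra F Ω]
  [IsScalarTower F L Ω] [CharZero F] [IsAlgClosed Ω]

omit [CharZero F] in
theorem arch_of_hdvr {A : ValuationSubring F} (hA : HDVR A) {π : F} (hπ : IsUnif A π) (x : F) :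
    ∃ n : ℕ, π ^ n * x ∈ A := by
  by_cases hx : x = 0
  · exact ⟨0, by simp [hx, A.zero_mem]⟩
  · obtain ⟨k, u, hu, rfl⟩ := exists_zpow hA.dvr hπ hx
    refine ⟨k.natAbs, ?_⟩
    have h : π ^ k.natAbs * (π ^ k * u) = π ^ ((k.natAbs : ℤ) + k) * u := by
      rw [← mul_assoc, zpow_add₀ hπ.ne, zpow_natCast]
    rw [h]
    exact (zpow_mem hπ hu).mpr (by omega)

theorem place_hom (h : GPair F L Ω) {A : ValuationSubring F} (hA : HDVR A) {K : Type*} [Field K]
    [Valued K ℤᵐ⁰] [CompleteSpace K] (ι : F →+* K)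
    (hι : ∀ x : F, Valued.v (ι x) ≤ 1 ↔ x ∈ A) :
    ∃ (O : ValuationSubring L) (φ : O →+* K) (hF : ∀ x : F, algebraMap F L x ∈ O),
      ∀ x : F, φ ⟨algebraMap F L x, hF x⟩ = ι x := by
  obtain ⟨O, hO, hdig⟩ := place_p h hA
  obtain ⟨π, hπ⟩ := exists_unif hA.dvr
  have hϖ : ι π ≠ 0 := (map_ne_zero ι).mpr hπ.ne
  have hv0 : (Valued.v (ι π) : ℤᵐ⁰) ≠ 0 := (Valuation.ne_zero_iff _).mpr hϖ
  have hlt : (Valued.v (ι π) : ℤᵐ⁰) < 1 := by
    have h1 : π ∈ A := A.nonunits_subset hπ.non
    have h2 : π⁻¹ ∉ A := by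
      intro h2
      have h3 : IsUn A π := isUn_iff.mpr ⟨hπ.ne, h1, h2⟩
      exact h3.2 hπ.non
    have h4 : ¬ (Valued.v (ι π⁻¹) : ℤᵐ⁰) ≤ 1 := fun h5 => h2 ((hι _).mp h5)
    rw [map_inv₀, map_inv₀, not_le] at h4
    exact (one_lt_inv₀ (zero_lt_iff.mpr hv0)).mp h4
  have hdata : LimData A O (Valued.v (R := K) (Γ₀ := ℤᵐ⁰)).valuationSubring ι π := by
    have hmem : ∀ (x : K) (n : ℕ), x / (ι π) ^ n ∈ (Valued.v (R := K) (Γ₀ := ℤᵐ⁰)).valuationSubring ↔
        (Valued.v x : ℤᵐ⁰) ≤ Valued.v (ι π) ^ n := by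
      intro x n
      rw [Valuation.mem_valuationSubring_iff, map_div₀, map_pow,
        div_le_one₀ (pow_pos (zero_lt_iff.mpr hv0) n)]
    refine ⟨hO, hπ, arch_of_hdvr hA hπ, hdig π hπ, fun x => ?_, fun x hx hn => ?_, fun c hc => ?_⟩
    · rw [Valuation.mem_valuationSubring_iff]
      exact hι x
    · exact valued_sep hϖ hlt fun n => (hmem x n).mp (hn n)
    · obtain ⟨s, hs, hs'⟩ := valued_comp hϖ hlt c fun i => (Valuation.mem_valuationSubring_iff _ _).mp (hc i)
      exact ⟨s, (Valuation.mem_valuationSubring_iff _ _).mpr hs, fun n => (hmem _ n).mpr (hs' n)⟩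
  exact lim_hom_ext hdata

/-- the real place: every element of `Ω` algebraic over `F` is `a + b i` with `a, b ∈ F` -/
theorem place_real (h : GPair F L Ω) (ι : F →+* ℝ) {i : Ω} (hi : i ^ 2 = -1)
    (hF : ∀ z : Ω, IsAlgebraic F z →
      ∃ a b : F, z = algebraMap F Ω a + algebraMap F Ω b * i) :
    ∃ (O : ValuationSubring L) (φ : O →+* ℝ) (hF : ∀ x : F, algebraMap F L x ∈ O),
      ∀ x : F, φ ⟨algebraMap F L x, hF x⟩ = ι x := by
  have hLΩ : Function.Injective (algebraMap L Ω) := (algebraMap L Ω).injective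
  have : CharZero L := charZero_of_injective_algebraMap (algebraMap F L).injective
  -- `-1` is not a square in `L`
  have h1 : ¬ IsSquare (-1 : L) := by
    rintro ⟨y, hy⟩
    obtain ⟨z, hz⟩ := h.closed y (by
      refine ⟨Polynomial.X ^ 2 + 1, ?_, ?_⟩
      · intro h0
        have := congrArg (fun p => Polynomial.coeff p 2) h0
        simp [Polynomial.coeff_one] at this
      · simp [pow_two, ← hy])
    have h2 : z * z = -1 := by
      apply (algebraMap F L).injective
      rw [map_mul, hz, ← hy, map_neg, map_one]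
    have h3 : ι z * ι z = -1 := by rw [← map_mul, h2, map_neg, map_one]
    nlinarith [mul_self_nonneg (ι z)]
  -- `Ω = L(i)`
  have hL : ∀ z : Ω, ∃ a b : L, z = algebraMap L Ω a + algebraMap L Ω b * i := by
    intro z
    have hle : IntermediateField.adjoin L {z : Ω | IsAlgebraic F z} ≤
        IntermediateField.adjoin L {i} := by
      rw [IntermediateField.adjoin_le_iff]
      intro w hw
      obtain ⟨a, b, rfl⟩ := hF w hw
      have hi' : i ∈ IntermediateField.adjoin L {i} :=
        IntermediateField.mem_adjoin_simple_self L i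
      rw [IsScalarTower.algebraMap_apply F L Ω, IsScalarTower.algebraMap_apply F L Ω]
      exact add_mem (IntermediateField.algebraMap_mem _ _)
        (mul_mem (IntermediateField.algebraMap_mem _ _) hi')
    have hz : z ∈ IntermediateField.adjoin L {i} := hle (h.gen z)
    have hint : IsIntegral L i := ⟨Polynomial.X ^ 2 + 1, by monicity!, by simp [hi]⟩
    have hz' : z ∈ Algebra.adjoin L {i} := by
      rw [← IntermediateField.adjoin_simple_toSubalgebra_of_isAlgebraic hint.isAlgebraic]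
      exact hz
    refine Algebra.adjoin_induction (p := fun z _ => ∃ a b : L,
      z = algebraMap L Ω a + algebraMap L Ω b * i) ?_ ?_ ?_ ?_ hz'
    · rintro w hw
      rw [Set.mem_singleton_iff] at hw
      exact ⟨0, 1, by simp [hw]⟩
    · intro r
      exact ⟨r, 0, by simp⟩
    · rintro x y _ _ ⟨a, b, rfl⟩ ⟨c, d, rfl⟩
      exact ⟨a + c, b + d, by simp only [map_add]; ring⟩
    · rintro x y _ _ ⟨a, b, rfl⟩ ⟨c, d, rfl⟩
      refine ⟨a * c - b * d, a * d + b * c, ?_⟩
      simp only [map_add, map_sub, map_mul]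
      linear_combination (algebraMap L Ω b * algebraMap L Ω d) * hi
  obtain ⟨h2, h3⟩ := real_closed hi hL h1
  obtain ⟨lo, hlo, hsq⟩ := exists_order h1 h2 h3
  letI := lo
  haveI := hlo
  refine st_place ι fun x hx => ?_
  rw [hsq]
  -- `x = z^2` with `z = a + b i`
  rcases eq_or_ne x 0 with rfl | hx0
  · exact ⟨0, by simp⟩
  obtain ⟨z, hz⟩ := IsAlgClosed.exists_pow_nat_eq (algebraMap F Ω x) (n := 2) (by norm_num)
  obtain ⟨a, b, hab⟩ := hF z (by
    refine ⟨Polynomial.X ^ 2 - Polynomial.C x, ?_, ?_⟩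
    · exact Polynomial.X_pow_sub_C_ne_zero (by norm_num) x
    · simp [hz])
  have e1 : algebraMap F Ω (x - a ^ 2 + b ^ 2) = algebraMap F Ω (2 * a * b) * i := by
    rw [hab] at hz
    simp only [map_add, map_sub, map_mul, map_pow, map_ofNat]
    linear_combination -hz + (algebraMap F Ω b) ^ 2 * hi
  have e2 : 2 * a * b = 0 := by
    by_contra hne
    have e3 : algebraMap F Ω ((x - a ^ 2 + b ^ 2) / (2 * a * b)) = i := by
      rw [map_div₀, e1]
      exact mul_div_cancel_left₀ i ((map_ne_zero (algebraMap F Ω)).mpr hne)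
    have e4 : ((x - a ^ 2 + b ^ 2) / (2 * a * b)) ^ 2 = -1 := by
      apply (algebraMap F Ω).injective
      rw [map_pow, e3, hi, map_neg, map_one]
    have e5 : ι ((x - a ^ 2 + b ^ 2) / (2 * a * b)) ^ 2 = -1 := by
      rw [← map_pow, e4, map_neg, map_one]
    nlinarith [sq_nonneg (ι ((x - a ^ 2 + b ^ 2) / (2 * a * b)))]
  have e6 : x = a ^ 2 - b ^ 2 := by
    have : algebraMap F Ω (x - a ^ 2 + b ^ 2) = 0 := by rw [e1, e2]; simp
    have := (map_eq_zero_iff _ (algebraMap F Ω).injective).mp this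
    linear_combination this
  have e7 : a = 0 ∨ b = 0 := by
    rcases mul_eq_zero.mp e2 with h4 | h4
    · rcases mul_eq_zero.mp h4 with h5 | h5
      · exact absurd h5 two_ne_zero
      · exact Or.inl h5
    · exact Or.inr h4
  rcases e7 with rfl | rfl
  · exfalso
    have : ι x = - (ι b) ^ 2 := by rw [e6]; simp
    have h6 : ι x = 0 := le_antisymm (by rw [this]; nlinarith [sq_nonneg (ι b)]) hx
    exact hx0 ((map_eq_zero_iff ι ι.injective).mp h6)
  · exact ⟨algebraMap F L a, by rw [e6]; simp [pow_two]⟩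

end Pool.Agent.Helper98.SA
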