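/-
SB block A, GPC: a criterion for good pairs from a group acting on `Ω` over `L`
(application: `G = Gal(kbar/F_v)` acting on `Ω` through a section, `L` its fixed field).

`ρ : G →* (Ω ≃ₐ[L] Ω)`.
closed: `x ∈ L` algebraic over `F` is fixed by all `ρ g`, so it is in `F` by `hF` (as an element of `Ω`, and
  `L → Ω` is injective).
alg: hypothesis.
gen: let `y ∈ Ω` and `S` as in `hc`.  Claim `y ∈ adjoin L S` (then `y ∈ adjoin L {z | IsAlgebraic F z}` by monotonicity).
  Let `M := ` the normal closure in `Ω` of `adjoin L (S ∪ {y})` over `L`, finite Galois over `L` (`Ω / L` algebraic,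
  characteristic 0, `Ω` algebraically closed).  `r : G →* (M ≃ₐ[L] M)`, `r g = (ρ g)` restricted to `M`
  (`AlgEquiv.restrictNormalHom M`).  The fixed field of the subgroup `r.range` of `Gal(M/L)` is `⊥` by `hfix`
  (an element of `M` fixed by all `r g` is fixed by all `ρ g`), so `r.range = ⊤`
  (`IntermediateField.fixingSubgroup_fixedField`, `IntermediateField.fixingSubgroup_bot`).
  Let `N := adjoin L S` inside `M`, `τ ∈ N.fixingSubgroup`.  `τ = r g`, `ρ g` is the identity on `S`, so
  `ρ g y = y`, `τ y = y`.  So `y ∈ fixedField (fixingSubgroup N) = N` (`IsGalois.fixedField_fixingSubgroup`).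
-/
import Mathlib
import Pool.Agent.Helper98.SA.GP

namespace Pool.Agent.Helper98.SA

theorem gpair_crit {F L Ω G : Type*} [Field F] [Field L] [Field Ω] [Group G] [Algebra F L]
    [Algebra L Ω] [Algebra F Ω] [IsScalarTower F L Ω] [CharZero F] [IsAlgClosed Ω]
    [Algebra.IsAlgebraic L Ω] (ρ : G →* (Ω ≃ₐ[L] Ω))
    (hfix : ∀ x : Ω, (∀ g, ρ g x = x) → ∃ y : L, algebraMap L Ω y = x)
    (hF : ∀ z : Ω, IsAlgebraic F z → (∀ g, ρ g z = z) → ∃ y : F, algebraMap F Ω y = z)
    (hc : ∀ y : Ω, ∃ S : Finset Ω, (∀ z ∈ S, IsAlgebraic F z) ∧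
      ∀ g, (∀ z ∈ S, ρ g z = z) → ρ g y = y) : GPair F L Ω := by
  classical
  have hchar : CharZero L := charZero_of_injective_algebraMap (algebraMap F L).injective
  have hclo : IsAlgClosure L Ω := ⟨inferInstance, inferInstance⟩
  have hgal : IsGalois L Ω := inferInstance
  refine ⟨?_, ?_, ?_⟩
  · intro x hx
    obtain ⟨y, hy⟩ := hF (algebraMap L Ω x) hx.algebraMap (fun g => (ρ g).commutes x)
    refine ⟨y, ?_⟩
    apply (algebraMap L Ω).injective
    rw [← IsScalarTower.algebraMap_apply, hy]
  · intro x
    exact Algebra.IsAlgebraic.isAlgebraic x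
  · intro y
    obtain ⟨S, hS, hfixS⟩ := hc y
    have key : y ∈ IntermediateField.adjoin L (S : Set Ω) := by
      rw [← InfiniteGalois.fixedField_fixingSubgroup (IntermediateField.adjoin L (S : Set Ω)),
        IntermediateField.mem_fixedField_iff]
      intro τ hτ
      rw [IntermediateField.mem_fixingSubgroup_iff] at hτ
      obtain ⟨K0, hK0⟩ : ∃ K0 : IntermediateField L Ω,
          K0 = IntermediateField.adjoin L ((insert y S : Finset Ω) : Set Ω) := ⟨_, rfl⟩
      have hfin0 : FiniteDimensional L K0 := by
        rw [hK0]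
        exact IntermediateField.finiteDimensional_adjoin
          (fun x _ => (Algebra.IsAlgebraic.isAlgebraic x).isIntegral)
      obtain ⟨M, hM⟩ : ∃ M : IntermediateField L Ω,
          M = IntermediateField.normalClosure L K0 Ω := ⟨_, rfl⟩
      have hMfin : FiniteDimensional L M := by
        rw [hM]
        infer_instance
      have hMn : Normal L M := by
        rw [hM]
        infer_instance
      have hMgal : IsGalois L M := ⟨⟩
      have hle : K0 ≤ M := by
        rw [hM]
        exact IntermediateField.le_normalClosure K0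
      have hmem : ∀ x ∈ (insert y S : Finset Ω), x ∈ M := by
        intro x hx
        apply hle
        rw [hK0]
        exact IntermediateField.subset_adjoin L _ hx
      obtain ⟨r, hr⟩ : ∃ r : G →* (M ≃ₐ[L] M), r = (AlgEquiv.restrictNormalHom M).comp ρ :=
        ⟨_, rfl⟩
      have hrr : ∀ g (x : M), ((r g x : M) : Ω) = ρ g (x : Ω) := by
        intro g x
        rw [hr]
        exact AlgEquiv.restrictNormal_commutes (ρ g) M x
      have hbot : IntermediateField.fixedField r.range = (⊥ : IntermediateField L M) := by
        rw [eq_bot_iff]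
        intro x hx
        rw [IntermediateField.mem_fixedField_iff] at hx
        obtain ⟨z, hz⟩ := hfix (x : Ω) (fun g => by rw [← hrr, hx (r g) ⟨g, rfl⟩])
        rw [IntermediateField.mem_bot]
        exact ⟨z, Subtype.ext hz⟩
      have htop : r.range = ⊤ := by
        rw [← IntermediateField.fixingSubgroup_fixedField r.range, hbot,
          IntermediateField.fixingSubgroup_bot]
      have h1 : AlgEquiv.restrictNormalHom M τ ∈ r.range := by
        rw [htop]
        trivial
      obtain ⟨g, hg⟩ := h1
      have h2 : ∀ x ∈ M, ρ g x = τ x := by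
        intro x hx
        have h3 := hrr g ⟨x, hx⟩
        rw [hg] at h3
        rw [← h3]
        exact AlgEquiv.restrictNormal_commutes τ M ⟨x, hx⟩
      rw [← h2 y (hmem y (Finset.mem_insert_self y S))]
      apply hfixS
      intro z hz
      rw [h2 z (hmem z (Finset.mem_insert_of_mem hz))]
      exact hτ z (IntermediateField.subset_adjoin L _ hz)
    refine IntermediateField.adjoin.mono L _ _ ?_ key
    intro z hz
    exact hS z hz

end Pool.Agent.Helper98.SA
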