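/-
SB block A, CO2a: the Kummer extension `L(x^{1/l})` inside `Ω`.  Mathlib only.

`l` prime, `L` contains a primitive `l`-th root of unity `ζ`, characteristic 0, `x` not an `l`-th power.
`γ ∈ Ω`, `γ^l = x`, `N := IntermediateField.adjoin L {γ}`: `X^l - C x` is irreducible
(`X_pow_sub_C_irreducible_of_prime`), so it is the minimal polynomial of `γ` and `finrank = l`
(`IntermediateField.adjoin.finrank`).  `N / L` is Galois: `X^l - C x` splits in `N` (roots `ζ^i γ`), it is
separable (characteristic 0, irreducible), and `N` is generated by a root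
(`IsGalois.of_separable_splitting_field`; Mathlib has `isSplittingField_..._X_pow_sub_C` in
`Mathlib/FieldTheory/KummerExtension.lean`).
-/
import Mathlib

namespace Pool.Agent.Helper98.SA

/-- a cyclic Kummer extension inside `Ω` -/
theorem exists_kummer_ext {L Ω : Type*} [Field L] [CharZero L] [Field Ω] [Algebra L Ω]
    [IsAlgClosed Ω] {l : ℕ} (hl : l.Prime) {ζ : L} (hζ : IsPrimitiveRoot ζ l) {x : L}
    (hx : ¬ ∃ y, y ^ l = x) : ∃ N : IntermediateField L Ω, FiniteDimensional L N ∧
      IsGalois L N ∧ Module.finrank L N = l ∧ ∃ γ : N, γ ^ l = algebraMap L N x := by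
  classical
  have hirr : Irreducible (Polynomial.X ^ l - Polynomial.C x) :=
    X_pow_sub_C_irreducible_of_prime hl fun b hb => hx ⟨b, hb⟩
  have hprim : (primitiveRoots l L).Nonempty := ⟨ζ, (mem_primitiveRoots hl.pos).mpr hζ⟩
  have hne : (Polynomial.X ^ l - Polynomial.C x : Polynomial L) ≠ 0 := hirr.ne_zero
  obtain ⟨γ, hγ⟩ := IsAlgClosed.exists_pow_nat_eq (algebraMap L Ω x) hl.pos
  obtain ⟨N, hN⟩ : ∃ N : IntermediateField L Ω,
      N = IntermediateField.adjoin L
        ((Polynomial.X ^ l - Polynomial.C x : Polynomial L).rootSet Ω) := ⟨_, rfl⟩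
  have hsplit : (Polynomial.X ^ l - Polynomial.C x : Polynomial L).IsSplittingField L N := by
    rw [hN]
    exact IntermediateField.adjoin_rootSet_isSplittingField (IsAlgClosed.splits _)
  have hfd : FiniteDimensional L N := Polynomial.IsSplittingField.finiteDimensional N
    (Polynomial.X ^ l - Polynomial.C x : Polynomial L)
  have hmem : γ ∈ N := by
    rw [hN]
    apply IntermediateField.subset_adjoin
    rw [Polynomial.mem_rootSet]
    refine ⟨hne, ?_⟩
    rw [map_sub, map_pow, Polynomial.aeval_X, Polynomial.aeval_C, hγ, sub_self]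
  refine ⟨N, hfd, isGalois_of_isSplittingField_X_pow_sub_C hprim hirr N,
    finrank_of_isSplittingField_X_pow_sub_C hprim hirr N, ⟨γ, hmem⟩, ?_⟩
  apply Subtype.ext
  exact hγ

end Pool.Agent.Helper98.SA
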