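/-
SB block A, DEG: the splitting field inside `Ω` of a polynomial of degree `n` over `L` has degree
dividing `n!`.  Mathlib only.

`N := IntermediateField.adjoin L (f.rootSet Ω)` is a splitting field of `f` over `L`
(`IntermediateField.adjoin_rootSet_isSplittingField`), so finite dimensional and normal, and Galois
(char 0).  `N ≃ₐ[L] N` embeds into the permutations of `f.rootSet N` (`Polynomial.Gal`:
`Polynomial.Gal.galActionHom_injective`, or directly), a finite set with `m ≤ n` elements
(`Polynomial.card_rootSet...`), so `card (N ≃ₐ[L] N) = finrank L N` divides `m!`, which divides `n!`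
(`Nat.factorial_dvd_factorial`).  Lagrange: `Subgroup.card_dvd_of_injective`,
`Nat.card_perm`/`Fintype.card_perm`.
-/
import Mathlib

namespace Pool.Agent.Helper98.SA

theorem exists_splitting {L Ω : Type*} [Field L] [CharZero L] [Field Ω] [IsAlgClosed Ω]
    [Algebra L Ω] (f : Polynomial L) (hf : f ≠ 0) :
    ∃ N : IntermediateField L Ω, FiniteDimensional L N ∧ IsGalois L N ∧
      (f.map (algebraMap L N)).Splits ∧ Module.finrank L N ∣ (f.natDegree).factorial := by
  classical
  have hsp : (f.map (algebraMap L Ω)).Splits := IsAlgClosed.splits _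
  have hS : f.IsSplittingField L (IntermediateField.adjoin L (f.rootSet Ω)) :=
    IntermediateField.adjoin_rootSet_isSplittingField hsp
  have hfd : FiniteDimensional L (IntermediateField.adjoin L (f.rootSet Ω)) :=
    Polynomial.IsSplittingField.finiteDimensional _ f
  have hn : Normal L (IntermediateField.adjoin L (f.rootSet Ω)) := Normal.of_isSplittingField f
  refine ⟨IntermediateField.adjoin L (f.rootSet Ω), hfd, ⟨⟩, hS.splits', ?_⟩
  have e := Polynomial.IsSplittingField.algEquiv (IntermediateField.adjoin L (f.rootSet Ω)) f
  rw [e.toLinearEquiv.finrank_eq]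
  have : IsGalois L f.SplittingField := ⟨⟩
  have h1 : Nat.card f.Gal = Module.finrank L f.SplittingField :=
    IsGalois.card_aut_eq_finrank L f.SplittingField
  rw [← h1]
  have : Fact ((f.map (algebraMap L f.SplittingField)).Splits) :=
    ⟨Polynomial.SplittingField.splits f⟩
  have h2 := Subgroup.card_dvd_of_injective _
    (Polynomial.Gal.galActionHom_injective f f.SplittingField)
  refine h2.trans ?_
  rw [Nat.card_perm]
  apply Nat.factorial_dvd_factorial
  rw [Nat.card_eq_fintype_card]
  simp_rw [Polynomial.rootSet_def, Finset.coe_sort_coe, Fintype.card_coe]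
  refine (Multiset.toFinset_card_le _).trans ((Polynomial.card_roots' _).trans ?_)
  rw [Polynomial.natDegree_map]

end Pool.Agent.Helper98.SA
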