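/-
SB block A, TH1: first properties of `O^-(T,H)`.

`h : Rig T H`.  `K` is a field.  Write `O^- = om T H = {x ≠ 0, x ∉ H, 1+x ∈ T}`.
Note `T ⊆ H`, both are multiplicative subgroups (`MulSub`), `-1 ∈ T`; `x ∈ H ↔ x⁻¹ ∈ H`;
if `x ∉ H` and `t ∈ H` then `x t ∉ H`.  `0 ∉ T`.

(a) `x ≠ 0, x ∉ H`: `h.rig x`: `1+x ∈ T` gives `x ∈ om`; otherwise `(1+x) x⁻¹ = 1 + x⁻¹ ∈ T`, and
    `x⁻¹ ∉ H`, so `x⁻¹ ∈ om`.
(a') not both: `x, x⁻¹ ∈ om`: `1+x ∈ T`, `1 + x⁻¹ = (1+x) x⁻¹ ∈ T`, so `x = (1+x)/((1+x)x⁻¹) ∈ T ⊆ H`,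
    contradiction.
(b) `x ∈ om → -x ∈ om`: `-x ∉ H` (`-1 ∈ T`).  `h.rig (-x)`: if `1 - x ∈ T` done.  Otherwise
    `(1-x)(-x)⁻¹ ∈ T`, so `(1-x) x⁻¹ ∈ T` (times `-1`).  Then `(1 - x^2) x⁻¹ = (1+x) · ((1-x) x⁻¹) ∈ T`.
    `x^2 ∉ H` by `h.two`; apply `h.rig (-(x^2))` (`-(x^2) ∉ H`): either `1 - x^2 ∈ T`, then
    `x⁻¹ ∈ T`, so `x ∈ T ⊆ H`, contradiction; or `(1-x^2) (-(x^2))⁻¹ ∈ T`, then
    `x⁻¹ / (x^2)⁻¹ = x ∈ T` (up to the sign `-1 ∈ T`), contradiction.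
(c) `x, y ∈ om → 1 + x y ∈ T`.  Because of (b) it is enough to show `1 - x y ∈ T` for all
    `x, y ∈ om` (replace `x` by `-x`).  By (b) `1 - x, 1 - y ∈ T`.
    `1 - x y = (1-x)(1 + x s)` with `s = (1-y)/(1-x) ∈ T`.  `x s ∉ H`, `x s ≠ 0`, so by `rig`
    `1 + x s ∈ T` or `(1 + x s)(x s)⁻¹ ∈ T`, hence `1 - x y ∈ T` or `(1 - x y) x⁻¹ ∈ T`.
    By symmetry `1 - x y ∈ T` or `(1 - x y) y⁻¹ ∈ T`.  Suppose `1 - x y ∉ T`; then
    `(1-xy)x⁻¹ ∈ T` and `(1-xy) y⁻¹ ∈ T`, so `x y⁻¹ ∈ T`.  Then `x y = x^2 (x y⁻¹)⁻¹`, and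
    `x^2 ∉ H`, so `x y ∉ H`; `h.rig (-(x y))`: `1 - x y ∈ T` is excluded, so `(1-xy)(-(xy))⁻¹ ∈ T`,
    so `(1-xy)(x y)⁻¹ ∈ T`; dividing `(1-xy)x⁻¹ ∈ T` by it gives `y ∈ T ⊆ H`, contradiction.
(d) `x, y ∈ om`, `x y ∉ H → x y ∈ om`: by (c).
-/
import Pool.Agent.Helper98.SA.Defs

namespace Pool.Agent.Helper98.SA

variable {K : Type*} [Field K] {T H : Set K}

private theorem th1_ne {T : Set K} (hT : MulSub T) {a : K} (ha : a ∈ T) : a ≠ 0 := fun h0 =>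
  hT.zero (h0 ▸ ha)

private theorem th1_neg_mem (h : Rig T H) {a : K} (ha : -a ∈ T) : a ∈ T := by
  have h1 := h.hT.mul _ h.neg _ ha
  simpa using h1

private theorem th1_neg_memH (h : Rig T H) {a : K} (ha : -a ∈ H) : a ∈ H := by
  have h1 := h.hH.mul _ (h.le h.neg) _ ha
  simpa using h1

private theorem th1_inv_not {H : Set K} (hH : MulSub H) {x : K} (hx : x ∉ H) : x⁻¹ ∉ H := by
  intro hc
  have h1 := hH.inv _ hc
  rw [inv_inv] at h1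
  exact hx h1

private theorem th1_mul_not {H : Set K} (hH : MulSub H) {x t : K} (hx : x ∉ H) (ht : t ∈ H) :
    x * t ∉ H := by
  intro hc
  have h1 := hH.mul _ hc _ (hH.inv _ ht)
  have ht0 := th1_ne hH ht
  rw [mul_assoc, mul_inv_cancel₀ ht0, mul_one] at h1
  exact hx h1

theorem om_or_inv (h : Rig T H) {x : K} (hx0 : x ≠ 0) (hx : x ∉ H) :
    x ∈ om T H ∨ x⁻¹ ∈ om T H := by
  rcases h.rig x hx0 hx with h1 | h1
  · exact Or.inl ⟨hx0, hx, h1⟩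
  · right
    refine ⟨inv_ne_zero hx0, th1_inv_not h.hH hx, ?_⟩
    have h2 : 1 + x⁻¹ = (1 + x) * x⁻¹ := by
      rw [add_mul, one_mul, mul_inv_cancel₀ hx0, add_comm]
    rw [h2]
    exact h1

theorem om_not_inv (h : Rig T H) {x : K} (hx : x ∈ om T H) : x⁻¹ ∉ om T H := by
  rintro ⟨-, -, h2⟩
  obtain ⟨hx0, hx1, h1⟩ := hx
  have h3 : 1 + x⁻¹ = (1 + x) * x⁻¹ := by
    rw [add_mul, one_mul, mul_inv_cancel₀ hx0, add_comm]
  have h4 := h.hT.mul _ h1 _ (h.hT.inv _ h2)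
  have h5 : (1 + x) ≠ 0 := th1_ne h.hT h1
  have h6 : (1 + x) * (1 + x⁻¹)⁻¹ = x := by
    rw [h3]
    field_simp
  rw [h6] at h4
  exact hx1 (h.le h4)

theorem om_neg (h : Rig T H) {x : K} (hx : x ∈ om T H) : -x ∈ om T H := by
  obtain ⟨hx0, hx1, h1⟩ := hx
  have hn1 : -x ∉ H := fun hc => hx1 (th1_neg_memH h hc)
  have hn0 : -x ≠ 0 := neg_ne_zero.2 hx0
  refine ⟨hn0, hn1, ?_⟩
  rcases h.rig (-x) hn0 hn1 with h2 | h2
  · exact h2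
  · exfalso
    have h3 : (1 - x) * x⁻¹ ∈ T := by
      apply th1_neg_mem h
      have e : -((1 - x) * x⁻¹) = (1 + -x) * (-x)⁻¹ := by
        rw [inv_neg]
        ring
      rw [e]
      exact h2
    have h4 : (1 - x ^ 2) * x⁻¹ ∈ T := by
      have h5 := h.hT.mul _ h1 _ h3
      have e : (1 + x) * ((1 - x) * x⁻¹) = (1 - x ^ 2) * x⁻¹ := by ring
      rw [e] at h5
      exact h5
    have h5 : x ^ 2 ∉ H := fun hc => hx1 (h.two x hc)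
    have h6 : -(x ^ 2) ∉ H := fun hc => h5 (th1_neg_memH h hc)
    have hx2 : x ^ 2 ≠ 0 := pow_ne_zero 2 hx0
    have h7 : (1 - x ^ 2) ≠ 0 := fun hc => th1_ne h.hT h4 (by rw [hc, zero_mul])
    rcases h.rig (-(x ^ 2)) (neg_ne_zero.2 hx2) h6 with h8 | h8
    · have h9 := h.hT.mul _ h4 _ (h.hT.inv _ h8)
      have e : (1 - x ^ 2) * x⁻¹ * (1 + -(x ^ 2))⁻¹ = x⁻¹ := by
        have e1 : (1 : K) + -(x ^ 2) = 1 - x ^ 2 := by ring
        rw [e1]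
        field_simp
      rw [e] at h9
      have h10 := h.hT.inv _ h9
      rw [inv_inv] at h10
      exact hx1 (h.le h10)
    · have h9 := h.hT.mul _ h4 _ (h.hT.inv _ h8)
      have e : (1 - x ^ 2) * x⁻¹ * ((1 + -(x ^ 2)) * (-(x ^ 2))⁻¹)⁻¹ = -x := by
        have e1 : (1 : K) + -(x ^ 2) = 1 - x ^ 2 := by ring
        rw [e1, mul_inv, inv_inv]
        field_simp
      rw [e] at h9
      exact hx1 (h.le (th1_neg_mem h h9))

private theorem th1_key (h : Rig T H) {x y : K} (hx : x ∈ om T H) (hy : y ∈ om T H) :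
    1 - x * y ∈ T ∨ (1 - x * y) * x⁻¹ ∈ T := by
  have hx' := om_neg h hx
  have hy' := om_neg h hy
  have h1 : 1 - x ∈ T := by
    have := hx'.2.2
    rwa [← sub_eq_add_neg] at this
  have h2 : 1 - y ∈ T := by
    have := hy'.2.2
    rwa [← sub_eq_add_neg] at this
  have hs : (1 - y) * (1 - x)⁻¹ ∈ T := h.hT.mul _ h2 _ (h.hT.inv _ h1)
  have h10 := th1_ne h.hT h1
  have hs0 := th1_ne h.hT hs
  have hxs : x * ((1 - y) * (1 - x)⁻¹) ∉ H := th1_mul_not h.hH hx.2.1 (h.le hs)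
  have hxs0 : x * ((1 - y) * (1 - x)⁻¹) ≠ 0 := mul_ne_zero hx.1 hs0
  have e : 1 - x * y = (1 - x) * (1 + x * ((1 - y) * (1 - x)⁻¹)) := by
    field_simp
    ring
  rcases h.rig _ hxs0 hxs with h3 | h3
  · left
    rw [e]
    exact h.hT.mul _ h1 _ h3
  · right
    have h4 := h.hT.mul _ (h.hT.mul _ h1 _ h3) _ hs
    have e2 : (1 - x) * ((1 + x * ((1 - y) * (1 - x)⁻¹)) * (x * ((1 - y) * (1 - x)⁻¹))⁻¹) *
        ((1 - y) * (1 - x)⁻¹) = (1 - x * y) * x⁻¹ := by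
      rw [e, mul_inv]
      have e3 : ((1 - y) * (1 - x)⁻¹)⁻¹ * ((1 - y) * (1 - x)⁻¹) = 1 := inv_mul_cancel₀ hs0
      calc (1 - x) * ((1 + x * ((1 - y) * (1 - x)⁻¹)) * (x⁻¹ * ((1 - y) * (1 - x)⁻¹)⁻¹)) *
            ((1 - y) * (1 - x)⁻¹) = (1 - x) * (1 + x * ((1 - y) * (1 - x)⁻¹)) * x⁻¹ *
              (((1 - y) * (1 - x)⁻¹)⁻¹ * ((1 - y) * (1 - x)⁻¹)) := by ring
        _ = _ := by rw [e3, mul_one]
    rw [e2] at h4
    exact h4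

private theorem th1_sub (h : Rig T H) {x y : K} (hx : x ∈ om T H) (hy : y ∈ om T H) :
    1 - x * y ∈ T := by
  by_contra hcon
  have hA := (th1_key h hx hy).resolve_left hcon
  have hB : (1 - x * y) * y⁻¹ ∈ T := by
    have h1 := th1_key h hy hx
    rw [mul_comm y x] at h1
    exact h1.resolve_left hcon
  have hx0 := hx.1
  have hy0 := hy.1
  have h0 : 1 - x * y ≠ 0 := fun hc => th1_ne h.hT hA (by rw [hc, zero_mul])
  have h1 : x * y⁻¹ ∈ T := by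
    have h2 := h.hT.mul _ hB _ (h.hT.inv _ hA)
    have e : (1 - x * y) * y⁻¹ * ((1 - x * y) * x⁻¹)⁻¹ = x * y⁻¹ := by
      rw [mul_inv, inv_inv]
      calc (1 - x * y) * y⁻¹ * ((1 - x * y)⁻¹ * x) = ((1 - x * y) * (1 - x * y)⁻¹) * (x * y⁻¹) := by ring
        _ = _ := by rw [mul_inv_cancel₀ h0, one_mul]
    rw [e] at h2
    exact h2
  have h2 : x ^ 2 ∉ H := fun hc => hx.2.1 (h.two x hc)
  have h3 : x * y ∉ H := by
    have h4 := th1_mul_not h.hH h2 (h.le (h.hT.inv _ h1))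
    have e : x ^ 2 * (x * y⁻¹)⁻¹ = x * y := by
      rw [mul_inv, inv_inv]
      field_simp
    rw [e] at h4
    exact h4
  have h4 : -(x * y) ∉ H := fun hc => h3 (th1_neg_memH h hc)
  have hxy0 : x * y ≠ 0 := mul_ne_zero hx0 hy0
  rcases h.rig _ (neg_ne_zero.2 hxy0) h4 with h5 | h5
  · rw [← sub_eq_add_neg] at h5
    exact hcon h5
  · have h6 := h.hT.mul _ hA _ (h.hT.inv _ h5)
    have e : (1 - x * y) * x⁻¹ * ((1 + -(x * y)) * (-(x * y))⁻¹)⁻¹ = -y := by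
      have e1 : (1 : K) + -(x * y) = 1 - x * y := by ring
      rw [e1, mul_inv, inv_inv]
      calc (1 - x * y) * x⁻¹ * ((1 - x * y)⁻¹ * -(x * y)) =
          ((1 - x * y) * (1 - x * y)⁻¹) * ((x⁻¹ * x) * -y) := by ring
        _ = _ := by rw [mul_inv_cancel₀ h0, inv_mul_cancel₀ hx0, one_mul, one_mul]
    rw [e] at h6
    exact hy.2.1 (h.le (th1_neg_mem h h6))

theorem om_mul_add (h : Rig T H) {x y : K} (hx : x ∈ om T H) (hy : y ∈ om T H) :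
    1 + x * y ∈ T := by
  have h1 := th1_sub h (om_neg h hx) hy
  have e : 1 - -x * y = 1 + x * y := by ring
  rw [e] at h1
  exact h1

theorem om_mul (h : Rig T H) {x y : K} (hx : x ∈ om T H) (hy : y ∈ om T H)
    (hxy : x * y ∉ H) : x * y ∈ om T H := 
  ⟨mul_ne_zero hx.1 hy.1, hxy, om_mul_add h hx hy⟩

end Pool.Agent.Helper98.SA
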