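/-
SB block A, TH2: products, `O^+`, inverses.

Uses TH1 (om_or_inv, om_neg, om_mul_add, om_mul).
(f) `x, y ∈ om`, `x y ∈ H → x y ∈ op`: let `z ∈ om`; show `x y z ∈ om`.  `x y z ∉ H` (since `x y ∈ H`,
    `z ∉ H`).  If `y z ∉ H`: `y z ∈ om` by (d) and `x (y z) ∉ H`, so `x (y z) ∈ om` by (d).
    If `y z ∈ H`: then `x z ∉ H`, for otherwise `(x y)(x z)(y z)⁻¹ = x^2 ∈ H`, so `x ∈ H` by `h.two`,
    contradiction.  So `x z ∈ om`, and `(x z) y ∉ H`, so `(x z) y ∈ om`.
(g) `op` is closed under multiplication; `x ∈ op, a ∈ om → x a ∈ om` (definition).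
    `-1 ∈ op`: `-1 ∈ T ⊆ H`, and `-a ∈ om` by `om_neg`.  `1 ∈ op`.
    `x ∈ H → x ∈ op ∨ x⁻¹ ∈ op`: if `x ∉ op` there is `a ∈ om` with `x a ∉ om`; `x a ∉ H`, `x a ≠ 0`,
    so `(x a)⁻¹ ∈ om` (om_or_inv), and `x⁻¹ = a · (x a)⁻¹ ∈ H` is a product of two elements of `om`,
    so in `op` by (f).
    `mul_mem_oring`: products of two elements of `oring` are in `oring`: cases: `0`; om·om: (d) or (f);
    om·op, op·om: in om; op·op: in op.
    `oring_or_inv`: `x ≠ 0 → x ∈ oring ∨ x⁻¹ ∈ oring`.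
-/
import Pool.Agent.Helper98.SA.TH1

namespace Pool.Agent.Helper98.SA

variable {K : Type*} [Field K] {T H : Set K}

theorem om_mul_op (h : Rig T H) {x y : K} (hx : x ∈ om T H) (hy : y ∈ om T H)
    (hxy : x * y ∈ H) : x * y ∈ op T H := by
  refine ⟨hxy, fun z hz => ?_⟩
  have hxyz : x * y * z ∉ H := by
    intro hc
    apply hz.2.1
    have h1 := h.hH.mul _ (h.hH.inv _ hxy) _ hc
    have e : (x * y)⁻¹ * (x * y * z) = z := by
      have hx0 := hx.1
      have hy0 := hy.1
      field_simp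
    rwa [e] at h1
  by_cases hyz : y * z ∈ H
  · have hxz : x * z ∉ H := by
      intro hc
      apply hx.2.1
      apply h.two
      have h1 := h.hH.mul _ (h.hH.mul _ hxy _ hc) _ (h.hH.inv _ hyz)
      have e : x * y * (x * z) * (y * z)⁻¹ = x ^ 2 := by
        have hy0 := hy.1
        have hz0 := hz.1
        field_simp
      rwa [e] at h1
    have h2 := om_mul h hx hz hxz
    have e : x * z * y = x * y * z := by ring
    have h3 := om_mul h h2 hy (by rw [e]; exact hxyz)
    rwa [e] at h3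
  · have h2 := om_mul h hy hz hyz
    have e : x * (y * z) = x * y * z := by ring
    have h3 := om_mul h hx h2 (by rw [e]; exact hxyz)
    rwa [e] at h3

theorem op_mul (h : Rig T H) {x y : K} (hx : x ∈ op T H) (hy : y ∈ op T H) :
    x * y ∈ op T H := by
  refine ⟨h.hH.mul _ hx.1 _ hy.1, fun a ha => ?_⟩
  have e : x * y * a = x * (y * a) := by ring
  rw [e]
  exact hx.2 _ (hy.2 _ ha)

theorem neg_one_op (h : Rig T H) : (-1 : K) ∈ op T H := by
  refine ⟨h.le h.neg, fun a ha => ?_⟩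
  have e : (-1 : K) * a = -a := by ring
  rw [e]
  exact om_neg h ha

theorem one_op (h : Rig T H) : (1 : K) ∈ op T H := by
  refine ⟨h.hH.one, fun a ha => ?_⟩
  rw [one_mul]
  exact ha

theorem op_or_inv (h : Rig T H) {x : K} (hx : x ∈ H) : x ∈ op T H ∨ x⁻¹ ∈ op T H := by
  by_cases hop : x ∈ op T H
  · exact Or.inl hop
  · right
    have hex : ∃ a ∈ om T H, x * a ∉ om T H := by
      by_contra hc
      push Not at hc
      exact hop ⟨hx, hc⟩
    obtain ⟨a, ha, hxa⟩ := hex
    have hx0 : x ≠ 0 := fun h0 => h.hH.zero (h0 ▸ hx)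
    have ha0 : a ≠ 0 := ha.1
    have hxaH : x * a ∉ H := by
      intro hc
      apply ha.2.1
      have h1 := h.hH.mul _ (h.hH.inv _ hx) _ hc
      have e : x⁻¹ * (x * a) = a := by field_simp
      rwa [e] at h1
    have hinv : (x * a)⁻¹ ∈ om T H := by
      rcases om_or_inv h (mul_ne_zero hx0 ha0) hxaH with h1 | h1
      · exact absurd h1 hxa
      · exact h1
    have e : a * (x * a)⁻¹ = x⁻¹ := by field_simp
    have h2 := om_mul_op h ha hinv (by rw [e]; exact h.hH.inv _ hx)
    rwa [e] at h2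

theorem mul_mem_oring (h : Rig T H) {x y : K} (hx : x ∈ oring T H) (hy : y ∈ oring T H) :
    x * y ∈ oring T H := by
  rcases hx with hx | hx | hx
  · left
    rw [hx, zero_mul]
  · rcases hy with hy | hy | hy
    · left
      rw [hy, mul_zero]
    · by_cases hxy : x * y ∈ H
      · exact Or.inr (Or.inr (om_mul_op h hx hy hxy))
      · exact Or.inr (Or.inl (om_mul h hx hy hxy))
    · right
      left
      rw [mul_comm]
      exact hy.2 _ hx
  · rcases hy with hy | hy | hy
    · left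
      rw [hy, mul_zero]
    · exact Or.inr (Or.inl (hx.2 _ hy))
    · exact Or.inr (Or.inr (op_mul h hx hy))

theorem oring_or_inv (h : Rig T H) {x : K} (hx : x ≠ 0) : x ∈ oring T H ∨ x⁻¹ ∈ oring T H := by
  by_cases hH : x ∈ H
  · rcases op_or_inv h hH with h1 | h1
    · exact Or.inl (Or.inr (Or.inr h1))
    · exact Or.inr (Or.inr (Or.inr h1))
  · rcases om_or_inv h hx hH with h1 | h1
    · exact Or.inl (Or.inr (Or.inl h1))
    · exact Or.inr (Or.inr (Or.inl h1))

end Pool.Agent.Helper98.SA
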