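/-
SB block A, TH3: `1 + om ⊆ op` and its inverses.

Uses TH1, TH2.  `T` multiplicative subgroup, `-1 ∈ T`.
(h1) `x ∈ om → 1 + x ∈ op`: `1+x ∈ T ⊆ H`.  Let `y ∈ om`; show `(1+x) y ∈ om`: it is not in `H`, not 0.
     `1 + (1+x) y = (1+y) (1 + x (y (1+y)⁻¹))`.  `u := y (1+y)⁻¹`: `u ∉ H`, `u ≠ 0`, and
     `1 + (-u) = (1+y)⁻¹ ∈ T`, so `-u ∈ om`, so `u ∈ om` (om_neg).  By om_mul_add `1 + x u ∈ T`.
     So `1 + (1+x) y ∈ T`.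
(j)  `x, z ∈ om → 1 + x + z ∈ T`.  `1 + x + z = (1+x)(1 + z (1+x)⁻¹)`, `z (1+x)⁻¹ ∉ H`, so by `rig`
     `1 + x + z ∈ T` or `(1+x+z) z⁻¹ ∈ T` (here `(1+x)⁻¹ ∈ T` is absorbed).  By symmetry
     `1 + x + z ∈ T` or `(1+x+z) x⁻¹ ∈ T`.  Suppose `m := 1 + x + z ∉ T`.  Then `m x⁻¹ ∈ T`,
     `m z⁻¹ ∈ T` (so `m ≠ 0`).  `(1+x)(1+z) = m + x z ∈ T`, so `m (1 + x z m⁻¹) ∈ T`.
     `w := x z m⁻¹ = z (m x⁻¹)⁻¹ ∉ H`, `w ≠ 0`.  `rig w`: if `1 + w ∈ T` then `m ∈ T`, contradiction;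
     otherwise `(1+w) w⁻¹ ∈ T`, so `m w = x z ∈ T` (as `m (1+w) ∈ T`), and
     `x^2 = (x z) (m z⁻¹) (m x⁻¹)⁻¹ ∈ T ⊆ H`, so `x ∈ H` by `h.two`: contradiction.
(j') `x ∈ om → (1+x)⁻¹ ∈ op`: `(1+x)⁻¹ ∈ T ⊆ H`; for `z ∈ om`: `(1+x)⁻¹ z ∉ H`, and
     `1 + (1+x)⁻¹ z = (1+x)⁻¹ (1+x+z) ∈ T` by (j).
(i)  `x, y, z ∈ om → (1 - x y)⁻¹ * z ∈ om`.  First `1 - x y ∈ T` (om_mul_add with `-x`).
     Claim `1 - x y + z ∈ T`: `1 - x y + z = (1+z) (1 - (x (1+z)⁻¹) y)`, and `x (1+z)⁻¹ ∈ om` by (j')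
     (`(1+z)⁻¹ * x ∈ om`), so `1 - (x (1+z)⁻¹) y ∈ T` (om_mul_add with `-(…)`).
     Then `(1-xy)⁻¹ z ∉ H`, `≠ 0`, and `1 + (1-xy)⁻¹ z = (1-xy)⁻¹ (1 - xy + z) ∈ T`.
-/
import Pool.Agent.Helper98.SA.TH2

namespace Pool.Agent.Helper98.SA

variable {K : Type*} [Field K] {T H : Set K}

private theorem TH3_ne (hT : MulSub T) {a : K} (ha : a ∈ T) : a ≠ 0 := by
  intro h0
  rw [h0] at ha
  exact hT.zero ha

private theorem TH3_nmul (hH : MulSub H) {t x : K} (ht : t ∈ H) (hx : x ∉ H) : t * x ∉ H := by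
  intro h1
  apply hx
  have h0 := TH3_ne hH ht
  have h2 := hH.mul _ (hH.inv _ ht) _ h1
  rwa [inv_mul_cancel_left₀ h0] at h2

theorem one_add_op (h : Rig T H) {x : K} (hx : x ∈ om T H) : 1 + x ∈ op T H := by
  have hxT : 1 + x ∈ T := hx.2.2
  refine ⟨h.le hxT, fun y hy => ?_⟩
  have hyT : 1 + y ∈ T := hy.2.2
  have hx0 : 1 + x ≠ 0 := TH3_ne h.hT hxT
  have hy0 : 1 + y ≠ 0 := TH3_ne h.hT hyT
  refine ⟨mul_ne_zero hx0 hy.1, TH3_nmul h.hH (h.le hxT) hy.2.1, ?_⟩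
  have hu : -((1 + y)⁻¹ * y) ∈ om T H := by
    refine ⟨neg_ne_zero.2 (mul_ne_zero (inv_ne_zero hy0) hy.1), ?_, ?_⟩
    · have h1 : -((1 + y)⁻¹ * y) = (-1 * (1 + y)⁻¹) * y := by ring
      rw [h1]
      exact TH3_nmul h.hH (h.hH.mul _ (h.le h.neg) _ (h.hH.inv _ (h.le hyT))) hy.2.1
    · have h1 : 1 + -((1 + y)⁻¹ * y) = (1 + y)⁻¹ := by
        field_simp
        ring
      rw [h1]
      exact h.hT.inv _ hyT
  have hu' := om_neg h hu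
  rw [neg_neg] at hu'
  have h2 := h.hT.mul _ hyT _ (om_mul_add h hx hu')
  have h3 : (1 + y) * (1 + x * ((1 + y)⁻¹ * y)) = 1 + (1 + x) * y := by
    field_simp
    ring
  rwa [h3] at h2

private theorem TH3_dich (h : Rig T H) {x z : K} (hx : x ∈ om T H) (hz : z ∈ om T H) :
    1 + x + z ∈ T ∨ (1 + x + z) * z⁻¹ ∈ T := by
  have hxT : 1 + x ∈ T := hx.2.2
  have hx0 : 1 + x ≠ 0 := TH3_ne h.hT hxT
  have hz0 : z ≠ 0 := hz.1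
  rcases h.rig ((1 + x)⁻¹ * z) (mul_ne_zero (inv_ne_zero hx0) hz0)
    (TH3_nmul h.hH (h.hH.inv _ (h.le hxT)) hz.2.1) with h1 | h1
  · left
    have h2 := h.hT.mul _ hxT _ h1
    have h3 : (1 + x) * (1 + (1 + x)⁻¹ * z) = 1 + x + z := by
      field_simp
    rwa [h3] at h2
  · right
    have h3 : (1 + (1 + x)⁻¹ * z) * ((1 + x)⁻¹ * z)⁻¹ = (1 + x + z) * z⁻¹ := by
      field_simp
    rwa [h3] at h1

theorem one_add_add (h : Rig T H) {x z : K} (hx : x ∈ om T H) (hz : z ∈ om T H) :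
    1 + x + z ∈ T := by
  by_contra hm
  have h1 : (1 + x + z) * z⁻¹ ∈ T := (TH3_dich h hx hz).resolve_left hm
  have h2 : (1 + x + z) * x⁻¹ ∈ T := by
    have h3 := TH3_dich h hz hx
    have h4 : 1 + z + x = 1 + x + z := by ring
    rw [h4] at h3
    exact h3.resolve_left hm
  obtain ⟨m, hmd⟩ : ∃ m, m = 1 + x + z := ⟨_, rfl⟩
  rw [← hmd] at hm h1 h2
  have hm0 : m ≠ 0 := left_ne_zero_of_mul (TH3_ne h.hT h1)
  have hx0 : x ≠ 0 := hx.1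
  have hz0 : z ≠ 0 := hz.1
  have h3 : m + x * z ∈ T := by
    have h4 := h.hT.mul _ hx.2.2 _ hz.2.2
    have h5 : (1 + x) * (1 + z) = m + x * z := by
      rw [hmd]
      ring
    rwa [h5] at h4
  obtain ⟨w, hw⟩ : ∃ w, w = (m * x⁻¹)⁻¹ * z := ⟨_, rfl⟩
  have hw0 : w ≠ 0 := by
    rw [hw]
    exact mul_ne_zero (inv_ne_zero (mul_ne_zero hm0 (inv_ne_zero hx0))) hz0
  have hwH : w ∉ H := by
    rw [hw]
    exact TH3_nmul h.hH (h.hH.inv _ (h.le h2)) hz.2.1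
  have hmw : m * w = x * z := by
    rw [hw]
    field_simp
  have hm1 : m + x * z = m * (1 + w) := by
    rw [mul_add, mul_one, hmw]
  rw [hm1] at h3
  have hw1 : 1 + w ≠ 0 := right_ne_zero_of_mul (TH3_ne h.hT h3)
  rcases h.rig w hw0 hwH with h4 | h4
  · apply hm
    have h5 := h.hT.mul _ h3 _ (h.hT.inv _ h4)
    rwa [mul_inv_cancel_right₀ hw1] at h5
  · have h5 := h.hT.mul _ h3 _ (h.hT.inv _ h4)
    have h6 : m * (1 + w) * ((1 + w) * w⁻¹)⁻¹ = x * z := by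
      rw [← hmw]
      field_simp
    rw [h6] at h5
    have h7 := h.hT.mul _ (h.hT.mul _ h5 _ h1) _ (h.hT.inv _ h2)
    have h8 : x * z * (m * z⁻¹) * (m * x⁻¹)⁻¹ = x ^ 2 := by
      field_simp
    rw [h8] at h7
    exact hx.2.1 (h.two x (h.le h7))

theorem one_add_inv_op (h : Rig T H) {x : K} (hx : x ∈ om T H) : (1 + x)⁻¹ ∈ op T H := by
  have hxT : 1 + x ∈ T := hx.2.2
  have hx0 : 1 + x ≠ 0 := TH3_ne h.hT hxT
  refine ⟨h.le (h.hT.inv _ hxT), fun z hz => ⟨mul_ne_zero (inv_ne_zero hx0) hz.1,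
    TH3_nmul h.hH (h.le (h.hT.inv _ hxT)) hz.2.1, ?_⟩⟩
  have h1 := h.hT.mul _ (h.hT.inv _ hxT) _ (one_add_add h hx hz)
  have h2 : (1 + x)⁻¹ * (1 + x + z) = 1 + (1 + x)⁻¹ * z := by
    field_simp
  rwa [h2] at h1

theorem one_sub_mul_inv (h : Rig T H) {x y z : K} (hx : x ∈ om T H) (hy : y ∈ om T H)
    (hz : z ∈ om T H) : (1 - x * y)⁻¹ * z ∈ om T H := by
  have h1 : 1 - x * y ∈ T := by
    have h2 := om_mul_add h (om_neg h hx) hy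
    have h3 : 1 + -x * y = 1 - x * y := by ring
    rwa [h3] at h2
  have h0 : 1 - x * y ≠ 0 := TH3_ne h.hT h1
  have hzT : 1 + z ∈ T := hz.2.2
  have hz0 : 1 + z ≠ 0 := TH3_ne h.hT hzT
  have h4 : 1 - x * y + z ∈ T := by
    have h5 := (one_add_inv_op h hz).2 x hx
    have h6 := h.hT.mul _ hzT _ (om_mul_add h (om_neg h h5) hy)
    have h7 : (1 + z) * (1 + -((1 + z)⁻¹ * x) * y) = 1 - x * y + z := by
      field_simp
      ring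
    rwa [h7] at h6
  refine ⟨mul_ne_zero (inv_ne_zero h0) hz.1, TH3_nmul h.hH (h.le (h.hT.inv _ h1)) hz.2.1, ?_⟩
  have h5 := h.hT.mul _ (h.hT.inv _ h1) _ h4
  have h6 : (1 - x * y)⁻¹ * (1 - x * y + z) = 1 + (1 - x * y)⁻¹ * z := by
    rw [mul_add, inv_mul_cancel₀ h0]
  rwa [h6] at h5

end Pool.Agent.Helper98.SA
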