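/-
SB block A, TH4: the canonical ring is closed under `x ↦ 1 + x`.

Uses TH1, TH2, TH3.  Let `x ∈ op`.  Show `1 + x ∈ oring T H`.
If `1 + x = 0` fine.  Suppose `1 + x ∉ oring`.
Case `1 + x ∉ H`: by om_or_inv (`1+x ∉ om`) `u := (1+x)⁻¹ ∈ om`.  `x u ∈ om` (x ∈ op), so `x u ∉ H`.
  But `x u = 1 - u = 1 + (-u) ∈ T ⊆ H` (om_neg).  Contradiction.
Case `1 + x ∈ H`: `1 + x ∉ op`, so there is `a ∈ om` with `(1+x) a ∉ om`; `(1+x) a ∉ H`, `≠ 0`, so
  `c := ((1+x) a)⁻¹ ∈ om`.  `b := x a ∈ om`.  `a + b = c⁻¹`, so `1 - c a = c b`, and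
  `(1 - c a)⁻¹ b = c⁻¹`.  By one_sub_mul_inv (with `c, a, b`) `(1 - c a)⁻¹ b ∈ om`, so `c⁻¹ ∈ om`,
  contradiction with om_not_inv.
For `x ∈ om`: `1 + x ∈ op` by one_add_op.  For `x = 0`: `1 ∈ op`.
So `one_add_mem : x ∈ oring → 1 + x ∈ oring`.
`add_mem_oring`: `x, y ∈ oring → x + y ∈ oring`: if one is 0 trivial.  By oring_or_inv for `y x⁻¹`:
  either `y x⁻¹ ∈ oring`, then `x + y = x (1 + y x⁻¹)`, or `(y x⁻¹)⁻¹ = x y⁻¹ ∈ oring`, then
  `x + y = y (1 + x y⁻¹)`; use mul_mem_oring.
`canon : ValuationSubring K` with carrier `oring T H` (neg by `-1 ∈ op` and mul_mem_oring):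
  stated as existence plus choice-free definition below: fill in the structure fields.
-/
import Pool.Agent.Helper98.SA.TH3

namespace Pool.Agent.Helper98.SA

variable {K : Type*} [Field K] {T H : Set K}

theorem one_add_mem (h : Rig T H) {x : K} (hx : x ∈ oring T H) : 1 + x ∈ oring T H := by
  rcases hx with hx | hx | hx
  · rw [hx, add_zero]
    exact Or.inr (Or.inr (one_op h))
  · exact Or.inr (Or.inr (one_add_op h hx))
  · by_contra hn
    have h0 : 1 + x ≠ 0 := fun h0 => hn (Or.inl h0)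
    have hom : 1 + x ∉ om T H := fun h1 => hn (Or.inr (Or.inl h1))
    have hop : 1 + x ∉ op T H := fun h1 => hn (Or.inr (Or.inr h1))
    by_cases hH : 1 + x ∈ H
    · have h1 : ∃ a ∈ om T H, (1 + x) * a ∉ om T H := by
        by_contra hcon
        push Not at hcon
        exact hop ⟨hH, hcon⟩
      obtain ⟨a, ha, hna⟩ := h1
      have ha0 : a ≠ 0 := ha.1
      have hne : (1 + x) * a ≠ 0 := mul_ne_zero h0 ha0
      have hnH : (1 + x) * a ∉ H := by
        intro hc
        apply ha.2.1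
        have h2 := h.hH.mul _ (h.hH.inv _ hH) _ hc
        have h3 : (1 + x)⁻¹ * ((1 + x) * a) = a := by
          field_simp
        rw [h3] at h2
        exact h2
      have hc : ((1 + x) * a)⁻¹ ∈ om T H := (om_or_inv h hne hnH).resolve_left hna
      have hb : x * a ∈ om T H := hx.2 a ha
      have hb0 : x * a ≠ 0 := hb.1
      have hx0 : x ≠ 0 := fun hx0 => hb0 (by rw [hx0, zero_mul])
      have h4 := one_sub_mul_inv h hc ha hb
      have h5 : 1 - ((1 + x) * a)⁻¹ * a = ((1 + x) * a)⁻¹ * (x * a) := by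
        field_simp
        ring
      have h6 : (1 - ((1 + x) * a)⁻¹ * a)⁻¹ * (x * a) = (((1 + x) * a)⁻¹)⁻¹ := by
        rw [h5, mul_inv, mul_assoc, inv_mul_cancel₀ hb0, mul_one]
      rw [h6] at h4
      exact om_not_inv h hc h4
    · have hu : (1 + x)⁻¹ ∈ om T H := (om_or_inv h h0 hH).resolve_left hom
      have h1 : x * (1 + x)⁻¹ ∈ om T H := hx.2 _ hu
      have h2 : x * (1 + x)⁻¹ = 1 + -(1 + x)⁻¹ := by
        field_simp
        ring
      apply h1.2.1
      rw [h2]
      exact h.le (om_neg h hu).2.2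

theorem add_mem_oring (h : Rig T H) {x y : K} (hx : x ∈ oring T H) (hy : y ∈ oring T H) :
    x + y ∈ oring T H := by
  by_cases hx0 : x = 0
  · rw [hx0, zero_add]
    exact hy
  by_cases hy0 : y = 0
  · rw [hy0, add_zero]
    exact hx
  have hne : y * x⁻¹ ≠ 0 := mul_ne_zero hy0 (inv_ne_zero hx0)
  rcases oring_or_inv h hne with h1 | h1
  · have h2 := mul_mem_oring h hx (one_add_mem h h1)
    have h3 : x * (1 + y * x⁻¹) = x + y := by
      field_simp
    rw [h3] at h2
    exact h2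
  · have h2 := mul_mem_oring h hy (one_add_mem h h1)
    have h3 : y * (1 + (y * x⁻¹)⁻¹) = x + y := by
      field_simp
      ring
    rw [h3] at h2
    exact h2

theorem exists_canon (h : Rig T H) : ∃ O : ValuationSubring K, ∀ x, x ∈ O ↔ x ∈ oring T H := by
  refine ⟨{ carrier := oring T H
            mul_mem' := fun ha hb => mul_mem_oring h ha hb
            one_mem' := Or.inr (Or.inr (one_op h))
            add_mem' := fun ha hb => add_mem_oring h ha hb
            zero_mem' := Or.inl rfl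
            neg_mem' := fun {x} hx => ?_
            mem_or_inv_mem' := fun x => ?_ }, fun x => Iff.rfl⟩
  · have h1 := mul_mem_oring h (Or.inr (Or.inr (neg_one_op h)) : (-1 : K) ∈ oring T H) hx
    rw [neg_one_mul] at h1
    exact h1
  · by_cases hx : x = 0
    · exact Or.inl (Or.inl hx)
    · exact oring_or_inv h hx

end Pool.Agent.Helper98.SA
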