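/-
SB block A, W3a: the polynomial `N(1 + λ X)`.  Mathlib and `ext hA E` of helper60.

`E / F` finite Galois of degree `n`, `lam ∈ E` integral over `A` (i.e. in `ext hA E`).  There is a polynomial `P` over `F`
with coefficients in `A`, `natDegree P ≤ n`, `P.coeff 0 = 1`, `P.coeff 1 = Tr(lam)`, `P.coeff n = N(lam)` and
`P = ∏_{h ∈ Gal(E/F)} (1 + h(lam) X)` in `E[X]`.
Proof: `Q := ∏_h (1 + C (h lam) * X) ∈ E[X]`.  Its coefficients are fixed by `Gal(E/F)` (permutation of the factors), so
`Q = P.map (algebraMap F E)` (`IsGalois`, fixed elements are in `F`; Mathlib: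
`Polynomial.lifts`, `IsGalois.mem_bot_iff_fixed` ...), and they are in the subring `ext hA E` (products and sums of
elements `h lam`, `ext_hom`), so the coefficients of `P` are in `A` (`ext_map`).  `Q.coeff 0 = ∏ 1 = 1`
(`Polynomial.coeff_zero_prod`), `Q.coeff 1 = ∑ h lam = Tr lam` (derivative at 0, or induction), `Q.coeff n = ∏ h lam = N(lam)`
(`Polynomial.coeff_prod_of_natDegree_le`), `natDegree Q ≤ n`.
-/
import Mathlib
import Pool.Agent.Helper60.SL.ExtBasic

open Pool.Agent.Helper60.SL IsLocalRing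

namespace Pool.Agent.Helper98.SA

theorem norm_poly {F E : Type*} [Field F] [CharZero F] [Field E] [Algebra F E]
    [FiniteDimensional F E] [IsGalois F E] {A : ValuationSubring F} (hA : HDVR A) {lam : E}
    (hlam : lam ∈ ext hA E) : ∃ P : Polynomial F, (∀ i, P.coeff i ∈ A) ∧
      P.natDegree ≤ Module.finrank F E ∧ P.coeff 0 = 1 ∧
      P.coeff 1 = Algebra.trace F E lam ∧ P.coeff (Module.finrank F E) = Algebra.norm F lam ∧
      P.map (algebraMap F E) =
        ∏ h : E ≃ₐ[F] E, (1 + Polynomial.C (h lam) * Polynomial.X) := by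
  classical
  obtain ⟨Q, hQ⟩ : ∃ Q : Polynomial E, Q =
      ∏ h : E ≃ₐ[F] E, (1 + Polynomial.C (h lam) * Polynomial.X) := ⟨_, rfl⟩
  have hmem : ∀ h : E ≃ₐ[F] E, h lam ∈ ext hA E := fun h =>
    (ext_hom hA (h : E →ₐ[F] E) lam).2 hlam
  -- `Q` is fixed by the Galois group
  have hfix : ∀ (σ : E ≃ₐ[F] E) (i : ℕ), σ (Q.coeff i) = Q.coeff i := by
    intro σ i
    have h1 : Q.map (σ : E →+* E) = Q := by
      rw [hQ, Polynomial.map_prod]
      refine Fintype.prod_equiv (Equiv.mulLeft σ) _ _ fun h => ?_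
      rw [Polynomial.map_add, Polynomial.map_one, Polynomial.map_mul, Polynomial.map_C,
        Polynomial.map_X]
      rfl
    conv_rhs => rw [← h1]
    rw [Polynomial.coeff_map]
    rfl
  have hlift : Q ∈ Polynomial.lifts (algebraMap F E) := by
    rw [Polynomial.lifts_iff_coeff_lifts]
    intro i
    exact (IsGalois.mem_range_algebraMap_iff_fixed (F := F) (Q.coeff i)).2 fun σ => hfix σ i
  obtain ⟨P, hP⟩ := (Polynomial.mem_lifts Q).1 hlift
  have hcoeff : ∀ i, algebraMap F E (P.coeff i) = Q.coeff i := by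
    intro i
    rw [← hP, Polynomial.coeff_map]
  have hinj := (algebraMap F E).injective
  -- the coefficients are integral
  have hint : ∀ i, Q.coeff i ∈ ext hA E := by
    intro i
    obtain ⟨R, hR⟩ : ∃ R : Polynomial (ext hA E), R =
      ∏ h : E ≃ₐ[F] E, (1 + Polynomial.C (⟨h lam, hmem h⟩ : ext hA E) * Polynomial.X) := ⟨_, rfl⟩
    have h1 : R.map (ext hA E).subtype = Q := by
      rw [hR, hQ, Polynomial.map_prod]
      refine Finset.prod_congr rfl fun h _ => ?_
      rw [Polynomial.map_add, Polynomial.map_one, Polynomial.map_mul, Polynomial.map_C,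
        Polynomial.map_X]
      rfl
    rw [← h1, Polynomial.coeff_map]
    exact (R.coeff i).2
  -- the lowest coefficients
  have hlow : ∀ s : Finset (E ≃ₐ[F] E),
      (∏ h ∈ s, (1 + Polynomial.C (h lam) * Polynomial.X)).coeff 0 = 1 ∧
      (∏ h ∈ s, (1 + Polynomial.C (h lam) * Polynomial.X)).coeff 1 = ∑ h ∈ s, h lam := by
    intro s
    induction s using Finset.induction_on with
    | empty => simp [Polynomial.coeff_one]
    | insert h s hs ih =>
      rw [Finset.prod_insert hs, Finset.sum_insert hs, Polynomial.mul_coeff_zero,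
        Polynomial.mul_coeff_one, ih.1, ih.2]
      constructor
      · simp
      · simp [Polynomial.coeff_one]
        ring
  have hdeg1 : ∀ h : E ≃ₐ[F] E,
      (1 + Polynomial.C (h lam) * Polynomial.X : Polynomial E).natDegree ≤ 1 := by
    intro h
    refine le_trans (Polynomial.natDegree_add_le _ _) (max_le ?_ ?_)
    · rw [Polynomial.natDegree_one]
      exact zero_le_one
    · exact le_trans (Polynomial.natDegree_C_mul_le _ _) Polynomial.natDegree_X_le
  have hcard : (Finset.univ : Finset (E ≃ₐ[F] E)).card = Module.finrank F E := by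
    rw [Finset.card_univ, ← Nat.card_eq_fintype_card, IsGalois.card_aut_eq_finrank]
  refine ⟨P, ?_, ?_, ?_, ?_, ?_, ?_⟩
  · intro i
    rw [← ext_map (E := E) hA, hcoeff]
    exact hint i
  · have h1 : P.natDegree = Q.natDegree := by
      rw [← hP, Polynomial.natDegree_map]
    rw [h1, hQ, ← hcard]
    refine le_trans (Polynomial.natDegree_prod_le _ _) ?_
    refine le_trans (Finset.sum_le_sum fun h _ => hdeg1 h) ?_
    rw [Finset.sum_const, smul_eq_mul, mul_one]
  · apply hinj
    rw [hcoeff, hQ, map_one]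
    exact (hlow Finset.univ).1
  · apply hinj
    rw [hcoeff, hQ, trace_eq_sum_automorphisms]
    exact (hlow Finset.univ).2
  · apply hinj
    rw [hcoeff, hQ, Algebra.norm_eq_prod_automorphisms, ← hcard]
    have h1 := Polynomial.coeff_prod_of_natDegree_le (Finset.univ : Finset (E ≃ₐ[F] E))
      (fun h => (1 + Polynomial.C (h lam) * Polynomial.X : Polynomial E)) 1 (fun h _ => hdeg1 h)
    rw [mul_one] at h1
    rw [h1]
    refine Finset.prod_congr rfl fun h _ => ?_
    simp [Polynomial.coeff_one]
  · rw [hP, hQ]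

end Pool.Agent.Helper98.SA
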