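/-
SB block A, W7: the limit map.  Pure algebra.

`F ⊆ L`, valuation rings `A` of `F`, `O` of `L` with `O ∩ F = A`, `π` a uniformizer of `A`, and every
`x ∈ O` is `d + π y`, `d ∈ A`, `y ∈ O`.  `ι : F → K` with `ι⁻¹(B) = A`, `B` a valuation ring of `K`, separated and
complete for the powers of `ϖ = ι π` in the sense of `hsep`, `hcomp`.
`IsLim x s` : for every `n` there is `d ∈ A` with `(x - d)/π^n ∈ O` and `(s - ι d)/ϖ^n ∈ B`.
(1) `exists_digits`: `x ∈ O`: there is a sequence `c : ℕ → F` in `A` with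
    `(x - ∑_{i<n} c_i π^i)/π^n ∈ O` for all `n` (recursion with `hdig`).
(2) `isLim_exists`: `s` from `hcomp` for the sequence `ι (c i)`; `d = ∑_{i<n} c_i π^i`.
(3) `isLim_unique`: `IsLim x s`, `IsLim x s'`: `(d - d')/π^n ∈ O ∩ F = A`, so `(ι d - ι d')/ϖ^n ∈ B`, so
    `(s - s')/ϖ^n ∈ B` for all `n`; `hsep` (also for `n = 0`: `s - s' ∈ B`).
(4) `isLim_add`, `isLim_mul`: `x x' - d d' = (x - d) x' + d (x' - d')`, where `x' ∈ O`, `d ∈ A ⊆ O`; similarly for
    `s s' - ι d ι d'` with `s' ∈ B` (`IsLim x' s'` for `n = 0` gives `x' ∈ O` and `s' ∈ B`).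
(5) `isLim_map`: `a ∈ A`: `IsLim a (ι a)` (`d = a`).
-/
import Mathlib
import Pool.Agent.Helper60.SL.Unif

open Pool.Agent.Helper60.SL

namespace Pool.Agent.Helper98.SA

variable {F L K : Type*} [Field F] [Field L] [Algebra F L] [Field K]

/-- `s` is the value of `x` under the limit map -/
def IsLim (A : ValuationSubring F) (O : ValuationSubring L) (B : ValuationSubring K)
    (ι : F →+* K) (π : F) (x : L) (s : K) : Prop :=
  ∀ n : ℕ, ∃ d ∈ A, (x - algebraMap F L d) / (algebraMap F L π) ^ n ∈ O ∧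
    (s - ι d) / (ι π) ^ n ∈ B

/-- the hypotheses of the limit construction -/
structure LimData (A : ValuationSubring F) (O : ValuationSubring L) (B : ValuationSubring K)
    (ι : F →+* K) (π : F) : Prop where
  comap : ∀ x : F, algebraMap F L x ∈ O ↔ x ∈ A
  unif : IsUnif A π
  arch : ∀ x : F, ∃ n : ℕ, π ^ n * x ∈ A
  dig : ∀ x ∈ O, ∃ d ∈ A, ∃ y ∈ O, x = algebraMap F L d + algebraMap F L π * y
  map : ∀ x : F, ι x ∈ B ↔ x ∈ A
  sep : ∀ x ∈ B, (∀ n : ℕ, x / (ι π) ^ n ∈ B) → x = 0
  comp : ∀ c : ℕ → K, (∀ i, c i ∈ B) → ∃ s ∈ B, ∀ n : ℕ,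
    (s - ∑ i ∈ Finset.range n, c i * (ι π) ^ i) / (ι π) ^ n ∈ B

variable {A : ValuationSubring F} {O : ValuationSubring L} {B : ValuationSubring K}
  {ι : F →+* K} {π : F}

theorem LimData.pi_ne (h : LimData A O B ι π) : π ≠ 0 := h.unif.ne

theorem LimData.alg_pi_ne (h : LimData A O B ι π) (n : ℕ) : (algebraMap F L π) ^ n ≠ 0 :=
  pow_ne_zero _ ((map_ne_zero (algebraMap F L)).2 h.pi_ne)

theorem LimData.iota_pi_ne (h : LimData A O B ι π) (n : ℕ) : (ι π) ^ n ≠ 0 :=
  pow_ne_zero _ ((map_ne_zero ι).2 h.pi_ne)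

theorem exists_digits (h : LimData A O B ι π) {x : L} (hx : x ∈ O) :
    ∃ c : ℕ → F, (∀ i, c i ∈ A) ∧ ∀ n : ℕ,
      (x - ∑ i ∈ Finset.range n, algebraMap F L (c i) * (algebraMap F L π) ^ i) /
        (algebraMap F L π) ^ n ∈ O := by
  classical
  choose! f hfA g hgO hfg using h.dig
  let y : ℕ → L := fun n => Nat.rec x (fun _ z => g z) n
  have hy0 : y 0 = x := rfl
  have hys : ∀ n, y (n + 1) = g (y n) := fun n => rfl
  have hyO : ∀ n, y n ∈ O := by
    intro n
    induction n with
    | zero => rw [hy0]; exact hx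
    | succ n ih => rw [hys]; exact hgO _ ih
  refine ⟨fun n => f (y n), fun i => hfA _ (hyO i), ?_⟩
  intro n
  have key : x - ∑ i ∈ Finset.range n, algebraMap F L (f (y i)) * (algebraMap F L π) ^ i
      = (algebraMap F L π) ^ n * y n := by
    induction n with
    | zero => simp [hy0]
    | succ n ih =>
      rw [Finset.sum_range_succ, ← sub_sub, ih, hys]
      have := hfg (y n) (hyO n)
      have e : y n - algebraMap F L (f (y n)) = algebraMap F L π * g (y n) := by
        rw [sub_eq_iff_eq_add, add_comm]; exact this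
      calc (algebraMap F L π) ^ n * y n - algebraMap F L (f (y n)) * (algebraMap F L π) ^ n
          = (algebraMap F L π) ^ n * (y n - algebraMap F L (f (y n))) := by ring
        _ = (algebraMap F L π) ^ (n + 1) * g (y n) := by rw [e]; ring
  rw [key, mul_div_cancel_left₀ _ (h.alg_pi_ne n)]
  exact hyO n

theorem isLim_exists (h : LimData A O B ι π) {x : L} (hx : x ∈ O) :
    ∃ s ∈ B, IsLim A O B ι π x s := by
  obtain ⟨c, hcA, hc⟩ := exists_digits h hx
  obtain ⟨s, hsB, hs⟩ := h.comp (fun i => ι (c i)) (fun i => (h.map _).2 (hcA i))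
  refine ⟨s, hsB, ?_⟩
  intro n
  have hπA : π ∈ A := ValuationSubring.nonunits_le h.unif.non
  refine ⟨∑ i ∈ Finset.range n, c i * π ^ i, ?_, ?_, ?_⟩
  · exact sum_mem fun i _ => mul_mem (hcA i) (pow_mem hπA i)
  · have := hc n
    simpa [map_sum, map_mul, map_pow] using this
  · have := hs n
    simpa [map_sum, map_mul, map_pow] using this

theorem isLim_mem {x : L} {s : K} (hs : IsLim A O B ι π x s) (h : LimData A O B ι π) :
    x ∈ O ∧ s ∈ B := by
  obtain ⟨d, hd, h1, h2⟩ := hs 0
  simp only [pow_zero, div_one] at h1 h2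
  refine ⟨?_, ?_⟩
  · have : x = (x - algebraMap F L d) + algebraMap F L d := by ring
    rw [this]
    exact add_mem h1 ((h.comap d).2 hd)
  · have : s = (s - ι d) + ι d := by ring
    rw [this]
    exact add_mem h2 ((h.map d).2 hd)

theorem isLim_unique (h : LimData A O B ι π) {x : L} {s s' : K}
    (hs : IsLim A O B ι π x s) (hs' : IsLim A O B ι π x s') : s = s' := by
  have hss : s - s' ∈ B := sub_mem (isLim_mem hs h).2 (isLim_mem hs' h).2
  have : s - s' = 0 := by
    refine h.sep _ hss ?_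
    intro n
    obtain ⟨d, hd, h1, h2⟩ := hs n
    obtain ⟨d', hd', h1', h2'⟩ := hs' n
    have e1 : (d - d') / π ^ n ∈ A := by
      rw [← h.comap]
      have : algebraMap F L ((d - d') / π ^ n)
          = (x - algebraMap F L d') / (algebraMap F L π) ^ n
            - (x - algebraMap F L d) / (algebraMap F L π) ^ n := by
        rw [map_div₀, map_sub, map_pow]
        ring
      rw [this]
      exact sub_mem h1' h1
    have e2 : (ι d - ι d') / (ι π) ^ n ∈ B := by
      have := (h.map _).2 e1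
      rwa [map_div₀, map_sub, map_pow] at this
    have e3 : (s - s') / (ι π) ^ n
        = (s - ι d) / (ι π) ^ n - (s' - ι d') / (ι π) ^ n + (ι d - ι d') / (ι π) ^ n := by
      ring
    rw [e3]
    exact add_mem (sub_mem h2 h2') e2
  exact sub_eq_zero.1 this

theorem isLim_add (h : LimData A O B ι π) {x x' : L} {s s' : K}
    (hs : IsLim A O B ι π x s) (hs' : IsLim A O B ι π x' s') :
    IsLim A O B ι π (x + x') (s + s') := by
  intro n
  obtain ⟨d, hd, h1, h2⟩ := hs n
  obtain ⟨d', hd', h1', h2'⟩ := hs' n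
  refine ⟨d + d', add_mem hd hd', ?_, ?_⟩
  · have e : (x + x' - algebraMap F L (d + d')) / (algebraMap F L π) ^ n
        = (x - algebraMap F L d) / (algebraMap F L π) ^ n
          + (x' - algebraMap F L d') / (algebraMap F L π) ^ n := by
      rw [map_add]; ring
    rw [e]
    exact add_mem h1 h1'
  · have e : (s + s' - ι (d + d')) / (ι π) ^ n
        = (s - ι d) / (ι π) ^ n + (s' - ι d') / (ι π) ^ n := by
      rw [map_add]; ring
    rw [e]
    exact add_mem h2 h2'

theorem isLim_mul (h : LimData A O B ι π) {x x' : L} {s s' : K}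
    (hs : IsLim A O B ι π x s) (hs' : IsLim A O B ι π x' s') :
    IsLim A O B ι π (x * x') (s * s') := by
  intro n
  obtain ⟨d, hd, h1, h2⟩ := hs n
  obtain ⟨d', hd', h1', h2'⟩ := hs' n
  have hm' := isLim_mem hs' h
  refine ⟨d * d', mul_mem hd hd', ?_, ?_⟩
  · have e : (x * x' - algebraMap F L (d * d')) / (algebraMap F L π) ^ n
        = (x - algebraMap F L d) / (algebraMap F L π) ^ n * x'
          + algebraMap F L d * ((x' - algebraMap F L d') / (algebraMap F L π) ^ n) := by
      rw [map_mul]; ring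
    rw [e]
    exact add_mem (mul_mem h1 hm'.1) (mul_mem ((h.comap d).2 hd) h1')
  · have e : (s * s' - ι (d * d')) / (ι π) ^ n
        = (s - ι d) / (ι π) ^ n * s' + ι d * ((s' - ι d') / (ι π) ^ n) := by
      rw [map_mul]; ring
    rw [e]
    exact add_mem (mul_mem h2 hm'.2) (mul_mem ((h.map d).2 hd) h2')

theorem isLim_map (h : LimData A O B ι π) {a : F} (ha : a ∈ A) :
    IsLim A O B ι π (algebraMap F L a) (ι a) := by
  intro n
  refine ⟨a, ha, ?_, ?_⟩
  · rw [sub_self, zero_div]; exact zero_mem _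
  · rw [sub_self, zero_div]; exact zero_mem _

end Pool.Agent.Helper98.SA
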