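/-
SB block A, W8: the limit homomorphism on `O[1/π]`.

`LimData` and `IsLim` from W7.
`lim_hom`: `φ₀ : O →+* K`, `φ₀ x` = the unique `s` with `IsLim x s` (choice), a ring homomorphism by
`isLim_add`, `isLim_mul`, `isLim_map` (for 0 and 1) and uniqueness; `φ₀ a = ι a` for `a ∈ A`.
`ext_hom_inv`: `O' := {x ∈ L | ∃ n, π^n x ∈ O}` is a valuation subring (it contains `O`; closed under sums: common `n`;
products; neg; `x ∈ O` or `x⁻¹ ∈ O`), it contains `F` by `arch` and `comap`.
`φ x := φ₀ (π^n x) / (ι π)^n` for any `n` with `π^n x ∈ O`; independent of `n` (`φ₀ (π^{n+1} x) = ι π φ₀(π^n x)`), a ring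
homomorphism, and `φ x = ι x` on `F`.
(Alternatively: relation `x ~ s` iff `∃ n, π^n x ∈ O ∧ IsLim (π^n x) ((ι π)^n s)`.)
-/
import Mathlib
import Pool.Agent.Helper98.SA.W7

open Pool.Agent.Helper60.SL

namespace Pool.Agent.Helper98.SA

variable {F L K : Type*} [Field F] [Field L] [Algebra F L] [Field K]
  {A : ValuationSubring F} {O : ValuationSubring L} {B : ValuationSubring K}
  {ι : F →+* K} {π : F}

private theorem isLim_zero (h : LimData A O B ι π) : IsLim A O B ι π 0 0 := by
  have h1 := isLim_map h A.zero_mem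
  rw [map_zero, map_zero] at h1
  exact h1

private theorem isLim_one (h : LimData A O B ι π) : IsLim A O B ι π 1 1 := by
  have h1 := isLim_map h A.one_mem
  rw [map_one, map_one] at h1
  exact h1

theorem lim_hom (h : LimData A O B ι π) :
    ∃ φ₀ : O →+* K, ∀ (a : F) (ha : algebraMap F L a ∈ O), φ₀ ⟨algebraMap F L a, ha⟩ = ι a := by
  choose f hf using fun x : O => isLim_exists h x.2
  have key : ∀ (x : O) (s : K), IsLim A O B ι π (x : L) s → f x = s :=
    fun x s hs => isLim_unique h (hf x).2 hs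
  refine ⟨{ toFun := f, map_one' := ?_, map_mul' := ?_, map_zero' := ?_, map_add' := ?_ }, ?_⟩
  · exact key 1 1 (isLim_one h)
  · intro x y
    exact key (x * y) (f x * f y) (isLim_mul h (hf x).2 (hf y).2)
  · exact key 0 0 (isLim_zero h)
  · intro x y
    exact key (x + y) (f x + f y) (isLim_add h (hf x).2 (hf y).2)
  · intro a ha
    exact key ⟨algebraMap F L a, ha⟩ (ι a) (isLim_map h ((h.comap a).mp ha))

/-- `s` is the value of `x` under the extended limit map -/
private def Ext (A : ValuationSubring F) (O : ValuationSubring L) (B : ValuationSubring K)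
    (ι : F →+* K) (π : F) (x : L) (s : K) : Prop :=
  ∃ n : ℕ, IsLim A O B ι π (algebraMap F L π ^ n * x) (ι π ^ n * s)

private theorem pi_mem (h : LimData A O B ι π) : π ∈ A := ValuationSubring.nonunits_le h.unif.non

private theorem lim_raise (h : LimData A O B ι π) {x : L} {s : K} {n : ℕ}
    (hs : IsLim A O B ι π (algebraMap F L π ^ n * x) (ι π ^ n * s)) (m : ℕ) :
    IsLim A O B ι π (algebraMap F L π ^ (m + n) * x) (ι π ^ (m + n) * s) := by
  have h1 := isLim_mul h (isLim_map h (A.pow_mem (pi_mem h) m)) hs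
  rw [map_pow, map_pow, ← mul_assoc, ← mul_assoc, ← pow_add, ← pow_add] at h1
  exact h1

private theorem ext_unique (h : LimData A O B ι π) {x : L} {s s' : K}
    (hs : Ext A O B ι π x s) (hs' : Ext A O B ι π x s') : s = s' := by
  obtain ⟨n, hn⟩ := hs
  obtain ⟨m, hm⟩ := hs'
  have h1 := lim_raise h hn m
  have h2 := lim_raise h hm n
  rw [add_comm n m] at h2
  have h3 := isLim_unique h h1 h2
  have hne : ι π ^ (m + n) ≠ 0 := pow_ne_zero _ ((map_ne_zero ι).mpr h.unif.ne)
  exact mul_left_cancel₀ hne h3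

private theorem ext_exists (h : LimData A O B ι π) {x : L} (hx : ∃ n : ℕ, algebraMap F L π ^ n * x ∈ O) :
    ∃ s, Ext A O B ι π x s := by
  obtain ⟨n, hn⟩ := hx
  obtain ⟨s, -, hs⟩ := isLim_exists h hn
  have hne : ι π ^ n ≠ 0 := pow_ne_zero _ ((map_ne_zero ι).mpr h.unif.ne)
  refine ⟨s / ι π ^ n, n, ?_⟩
  rw [mul_div_cancel₀ _ hne]
  exact hs

private theorem ext_add (h : LimData A O B ι π) {x x' : L} {s s' : K}
    (hs : Ext A O B ι π x s) (hs' : Ext A O B ι π x' s') : Ext A O B ι π (x + x') (s + s') := by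
  obtain ⟨n, hn⟩ := hs
  obtain ⟨m, hm⟩ := hs'
  have h1 := lim_raise h hn m
  have h2 := lim_raise h hm n
  rw [add_comm n m] at h2
  refine ⟨m + n, ?_⟩
  rw [mul_add, mul_add]
  exact isLim_add h h1 h2

private theorem ext_mul (h : LimData A O B ι π) {x x' : L} {s s' : K}
    (hs : Ext A O B ι π x s) (hs' : Ext A O B ι π x' s') : Ext A O B ι π (x * x') (s * s') := by
  obtain ⟨n, hn⟩ := hs
  obtain ⟨m, hm⟩ := hs'
  refine ⟨n + m, ?_⟩
  have h1 := isLim_mul h hn hm
  rw [mul_mul_mul_comm, mul_mul_mul_comm (ι π ^ n), ← pow_add, ← pow_add] at h1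
  exact h1

private theorem ext_map (h : LimData A O B ι π) (x : F) :
    Ext A O B ι π (algebraMap F L x) (ι x) := by
  obtain ⟨n, hn⟩ := h.arch x
  refine ⟨n, ?_⟩
  have h1 := isLim_map h hn
  rw [map_mul, map_mul, map_pow, map_pow] at h1
  exact h1

theorem lim_hom_ext (h : LimData A O B ι π) :
    ∃ (O' : ValuationSubring L) (φ : O' →+* K) (hF : ∀ x : F, algebraMap F L x ∈ O'),
      ∀ x : F, φ ⟨algebraMap F L x, hF x⟩ = ι x := by
  have hπO : algebraMap F L π ∈ O := (h.comap π).mpr (pi_mem h)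
  have hraise : ∀ (x : L) (n m : ℕ), algebraMap F L π ^ n * x ∈ O →
      algebraMap F L π ^ (m + n) * x ∈ O := by
    intro x n m hx
    rw [pow_add, mul_assoc]
    exact O.mul_mem _ _ (O.pow_mem hπO m) hx
  let O' : ValuationSubring L :=
    { carrier := {x | ∃ n : ℕ, algebraMap F L π ^ n * x ∈ O}
      mul_mem' := by
        rintro a b ⟨n, hn⟩ ⟨m, hm⟩
        refine ⟨n + m, ?_⟩
        have h1 := O.mul_mem _ _ hn hm
        rw [mul_mul_mul_comm, ← pow_add] at h1
        exact h1
      one_mem' := ⟨0, by rw [pow_zero, one_mul]; exact O.one_mem⟩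
      add_mem' := by
        rintro a b ⟨n, hn⟩ ⟨m, hm⟩
        refine ⟨m + n, ?_⟩
        have h1 := hraise a n m hn
        have h2 := hraise b m n hm
        rw [add_comm n m] at h2
        rw [mul_add]
        exact O.add_mem _ _ h1 h2
      zero_mem' := ⟨0, by rw [mul_zero]; exact O.zero_mem⟩
      neg_mem' := by
        rintro a ⟨n, hn⟩
        refine ⟨n, ?_⟩
        rw [mul_neg]
        exact O.neg_mem _ hn
      mem_or_inv_mem' := by
        intro x
        rcases O.mem_or_inv_mem x with hx | hx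
        · exact Or.inl ⟨0, by rw [pow_zero, one_mul]; exact hx⟩
        · exact Or.inr ⟨0, by rw [pow_zero, one_mul]; exact hx⟩ }
  have hmem : ∀ x : O', ∃ n : ℕ, algebraMap F L π ^ n * (x : L) ∈ O := fun x => x.2
  choose f hf using fun x : O' => ext_exists h (hmem x)
  have key : ∀ (x : O') (s : K), Ext A O B ι π (x : L) s → f x = s :=
    fun x s hs => ext_unique h (hf x) hs
  refine ⟨O', { toFun := f, map_one' := ?_, map_mul' := ?_, map_zero' := ?_, map_add' := ?_ },
    ?_, ?_⟩
  · apply key 1 1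
    have h1 := ext_map h (1 : F)
    rw [map_one, map_one] at h1
    exact h1
  · intro x y
    exact key (x * y) (f x * f y) (ext_mul h (hf x) (hf y))
  · apply key 0 0
    have h1 := ext_map h (0 : F)
    rw [map_zero, map_zero] at h1
    exact h1
  · intro x y
    exact key (x + y) (f x + f y) (ext_add h (hf x) (hf y))
  · intro x
    obtain ⟨n, hn⟩ := h.arch x
    refine ⟨n, ?_⟩
    have h1 := (h.comap _).mpr hn
    rw [map_mul, map_pow] at h1
    exact h1
  · intro x
    exact key _ (ι x) (ext_map h x)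

end Pool.Agent.Helper98.SA
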